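import Mathlib

set_option autoImplicit false
open Real

namespace Pool.Agent.Helper78.SM

/-- the standard map on the plane -/
noncomputable def F (a : ℝ) (q : ℝ × ℝ) : ℝ × ℝ :=
  (2 * q.1 - q.2 + a * Real.sin (2 * π * q.1), q.1)

noncomputable def phi (a x : ℝ) : ℝ := 2 + 2 * π * a * Real.cos (2 * π * x)

noncomputable def L (t : ℝ) : ℝ × ℝ →L[ℝ] ℝ × ℝ :=
  (t • ContinuousLinearMap.fst ℝ ℝ ℝ - ContinuousLinearMap.snd ℝ ℝ ℝ).prod
    (ContinuousLinearMap.fst ℝ ℝ ℝ)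

lemma L_apply (t : ℝ) (h : ℝ × ℝ) : L t h = (t * h.1 - h.2, h.1) := by
  simp [L]

lemma hasFDerivAt_F (a : ℝ) (q : ℝ × ℝ) : HasFDerivAt (F a) (L (phi a q.1)) q := by
  have h1 : HasFDerivAt (fun q : ℝ × ℝ => q.1) (ContinuousLinearMap.fst ℝ ℝ ℝ) q := hasFDerivAt_fst
  have h2 : HasFDerivAt (fun q : ℝ × ℝ => q.2) (ContinuousLinearMap.snd ℝ ℝ ℝ) q := hasFDerivAt_snd
  have h3 : HasFDerivAt (fun q : ℝ × ℝ => 2 * q.1 - q.2 + a * Real.sin (2 * π * q.1))
      ((2:ℝ) • ContinuousLinearMap.fst ℝ ℝ ℝ - ContinuousLinearMap.snd ℝ ℝ ℝ +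
        a • (Real.cos (2 * π * q.1) • ((2 * π) • ContinuousLinearMap.fst ℝ ℝ ℝ))) q :=
    ((h1.const_mul 2).sub h2).add (((h1.const_mul (2 * π)).sin).const_mul a)
  have h4 := h3.prodMk h1
  refine h4.congr_fderiv ?_
  ext <;> simp [L, phi] <;> ring

/-- the derivative of the iterate -/
noncomputable def D (a : ℝ) : ℕ → ℝ × ℝ → (ℝ × ℝ →L[ℝ] ℝ × ℝ)
  | 0, _ => ContinuousLinearMap.id ℝ (ℝ × ℝ)
  | n + 1, p => (L (phi a ((F a)^[n] p).1)).comp (D a n p)

lemma hasFDerivAt_iter (a : ℝ) (n : ℕ) (p : ℝ × ℝ) : HasFDerivAt ((F a)^[n]) (D a n p) p := by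
  induction n with
  | zero => exact hasFDerivAt_id p
  | succ n ih =>
    rw [Function.iterate_succ']
    exact (hasFDerivAt_F a _).comp p ih

lemma norm_L_le (t : ℝ) : ‖L t‖ ≤ |t| + 1 := by
  refine ContinuousLinearMap.opNorm_le_bound _ (by positivity) ?_
  intro h
  rw [L_apply, Prod.norm_def, Prod.norm_def]
  simp only [Real.norm_eq_abs]
  have h1 : |h.1| ≤ max |h.1| |h.2| := le_max_left _ _
  have h2 : |h.2| ≤ max |h.1| |h.2| := le_max_right _ _
  have h0 : 0 ≤ max |h.1| |h.2| := (abs_nonneg _).trans h1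
  apply max_le
  · calc |t * h.1 - h.2| ≤ |t * h.1| + |h.2| := abs_sub _ _
      _ = |t| * |h.1| + |h.2| := by rw [abs_mul]
      _ ≤ |t| * max |h.1| |h.2| + max |h.1| |h.2| := by gcongr
      _ = _ := by ring
  · have : 0 ≤ |t| := abs_nonneg _
    nlinarith

lemma norm_D_le (a : ℝ) (n : ℕ) (p : ℝ × ℝ) :
    ‖D a n p‖ ≤ ∏ k ∈ Finset.range n, (|phi a ((F a)^[k] p).1| + 1) := by
  induction n with
  | zero => simpa [D] using ContinuousLinearMap.norm_id_le
  | succ n ih =>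
    rw [Finset.prod_range_succ, mul_comm]
    calc ‖D a (n+1) p‖ ≤ ‖L (phi a ((F a)^[n] p).1)‖ * ‖D a n p‖ :=
          ContinuousLinearMap.opNorm_comp_le _ _
      _ ≤ _ := by
          gcongr
          exact norm_L_le _

/-- deterministic growth of the vector `(1,0)` -/
lemma growth {a : ℝ} {κ : ℝ} (hκ : 4 ≤ κ) (p : ℝ × ℝ) (n : ℕ)
    (h : ∀ k, k + 1 ≤ n → κ ≤ |phi a ((F a)^[k] p).1 * phi a ((F a)^[k+1] p).1|) :
    |phi a ((F a)^[n] p).1| * |(D a n p (1, 0)).1| * (1 - 2 / κ) ≤ |(D a (n+1) p (1, 0)).1| ∧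
    (∏ k ∈ Finset.range (n+1), |phi a ((F a)^[k] p).1|) * (1 - 2 / κ) ^ (n + 1) ≤
      |(D a (n+1) p (1, 0)).1| := by
  have hκ0 : 0 < κ := by linarith
  have hq : (2:ℝ) / κ ≤ 1 / 2 := by
    rw [div_le_div_iff₀ hκ0 (by norm_num)]; linarith
  have hq0 : 0 < 2 / κ := by positivity
  induction n with
  | zero =>
    have e : (D a (0+1) p (1, 0)).1 = phi a p.1 := by
      simp [D, L_apply]
    have e0 : (D a 0 p (1, 0)).1 = 1 := by simp [D]
    rw [e, e0]
    simp only [Function.iterate_zero, id_eq, mul_one, zero_add, Finset.range_one,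
      Finset.prod_singleton, pow_one]
    have : 0 ≤ |phi a p.1| := abs_nonneg _
    constructor <;> nlinarith
  | succ n ih =>
    obtain ⟨ih1, ih2⟩ := ih (fun k hk => h k (by omega))
    set φ0 := phi a ((F a)^[n] p).1 with hφ0
    set φ1 := phi a ((F a)^[n+1] p).1 with hφ1
    set v0 := (D a n p (1, 0)).1 with hv0
    set v1 := (D a (n+1) p (1, 0)).1 with hv1
    have hw : (D a (n+1) p (1, 0)).2 = v0 := by
      rw [D, ContinuousLinearMap.comp_apply, L_apply]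
    have hv2 : (D a (n+1+1) p (1, 0)).1 = φ1 * v1 - v0 := by
      rw [D, ContinuousLinearMap.comp_apply, L_apply, hw]
    have hpair : κ ≤ |φ0 * φ1| := h n le_rfl
    rw [abs_mul] at hpair
    have hφ0p : 0 < |φ0| := by
      rcases (abs_nonneg φ0).eq_or_lt with h0 | h0
      · rw [← h0] at hpair; linarith
      · exact h0
    have hφ1p : 0 < |φ1| := by
      rcases (abs_nonneg φ1).eq_or_lt with h0 | h0
      · rw [← h0] at hpair; linarith
      · exact h0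
    have hstep : |φ1| * |v1| * (1 - 2 / κ) ≤ |(D a (n+1+1) p (1, 0)).1| := by
      rw [hv2]
      have h1 : |φ1| * |v1| - |v0| ≤ |φ1 * v1 - v0| := by
        have := abs_sub_abs_le_abs_sub (φ1 * v1) v0
        rw [abs_mul] at this
        exact this
      have h2 : |φ0| * |v0| ≤ 2 * |v1| := by
        have : |φ0| * |v0| * (1 / 2) ≤ |φ0| * |v0| * (1 - 2 / κ) := by
          apply mul_le_mul_of_nonneg_left (by linarith) (by positivity)
        linarith
      -- |v0| ≤ |φ1| |v1| 2/κ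
      have h3 : κ * |v0| ≤ 2 * (|φ1| * |v1|) := by
        calc κ * |v0| ≤ (|φ0| * |φ1|) * |v0| := by gcongr
          _ = |φ1| * (|φ0| * |v0|) := by ring
          _ ≤ |φ1| * (2 * |v1|) := by gcongr
          _ = _ := by ring
      have h4 : |v0| ≤ |φ1| * |v1| * (2 / κ) := by
        rw [mul_div_assoc', le_div_iff₀ hκ0]
        linarith
      linarith
    refine ⟨hstep, ?_⟩
    rw [Finset.prod_range_succ, pow_succ]
    calc (∏ k ∈ Finset.range (n+1), |phi a ((F a)^[k] p).1|) * |φ1| *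
          ((1 - 2 / κ) ^ (n+1) * (1 - 2 / κ))
        = |φ1| * ((∏ k ∈ Finset.range (n+1), |phi a ((F a)^[k] p).1|) * (1 - 2 / κ) ^ (n+1)) *
          (1 - 2 / κ) := by ring
      _ ≤ |φ1| * |v1| * (1 - 2 / κ) := by
          have : 0 ≤ 1 - 2 / κ := by linarith
          gcongr
      _ ≤ _ := hstep

/-- lower bound for the operator norm -/
lemma norm_D_ge {a : ℝ} {κ : ℝ} (hκ : 4 ≤ κ) (p : ℝ × ℝ) {n : ℕ} (hn : 1 ≤ n)
    (h : ∀ k, k + 1 < n → κ ≤ |phi a ((F a)^[k] p).1 * phi a ((F a)^[k+1] p).1|) :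
    (∏ k ∈ Finset.range n, |phi a ((F a)^[k] p).1|) * (1 - 2 / κ) ^ n ≤ ‖D a n p‖ := by
  obtain ⟨m, rfl⟩ : ∃ m, n = m + 1 := ⟨n - 1, by omega⟩
  have h1 := (growth (a := a) hκ p m (fun k hk => h k (by omega))).2
  refine h1.trans ?_
  have h2 := (D a (m+1) p).le_opNorm (1, 0)
  have h3 : ‖((1:ℝ), (0:ℝ))‖ = 1 := by simp [Prod.norm_def]
  rw [h3, mul_one] at h2
  refine le_trans ?_ h2
  rw [Prod.norm_def]
  exact le_max_left _ _

end Pool.Agent.Helper78.SM
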