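import Mathlib
import Pool.Agent.Helper78.SM.Deriv
import Pool.Agent.Helper53.SM.Torus

set_option autoImplicit false
open Real MeasureTheory Set
open scoped ENNReal

namespace Pool.Agent.Helper78.SM

/-- cosine on the circle -/
noncomputable def csn (θ : UnitAddCircle) : ℝ := ((AddCircle.toCircle θ : Circle) : ℂ).re

/-- sine on the circle -/
noncomputable def snn (θ : UnitAddCircle) : ℝ := ((AddCircle.toCircle θ : Circle) : ℂ).im

lemma csn_coe (x : ℝ) : csn (x : UnitAddCircle) = Real.cos (2 * π * x) := by
  unfold csn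
  rw [AddCircle.toCircle_apply_mk, Circle.coe_exp]
  rw [Complex.exp_ofReal_mul_I_re]
  congr 1
  ring

lemma snn_coe (x : ℝ) : snn (x : UnitAddCircle) = Real.sin (2 * π * x) := by
  unfold snn
  rw [AddCircle.toCircle_apply_mk, Circle.coe_exp]
  rw [Complex.exp_ofReal_mul_I_im]
  congr 1
  ring

lemma continuous_csn : Continuous csn := by
  unfold csn
  have h : Continuous (fun z : Circle => (z : ℂ)) := by fun_prop
  exact Complex.continuous_re.comp (h.comp AddCircle.continuous_toCircle)

lemma measurable_csn : Measurable csn := continuous_csn.measurable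

lemma abs_csn_le (θ : UnitAddCircle) : |csn θ| ≤ 1 := by
  induction θ using QuotientAddGroup.induction_on with
  | H x =>
    have := csn_coe x
    rw [show (QuotientAddGroup.mk x : UnitAddCircle) = (x : UnitAddCircle) from rfl, this]
    exact Real.abs_cos_le_one _

lemma norm_le_sin (x : ℝ) : 2 * ‖(x : UnitAddCircle)‖ ≤ |Real.sin (π * x)| := by
  rw [UnitAddCircle.norm_eq]
  have h1 : |Real.sin (π * x)| = |Real.sin (π * (x - round x))| := by
    have : π * (x - round x) = π * x - (round x : ℤ) * π := by ring
    rw [this, Real.sin_sub_int_mul_pi, abs_mul]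
    simp
  rw [h1]
  have h2 : |π * (x - round x)| ≤ π / 2 := by
    rw [abs_mul, abs_of_pos Real.pi_pos]
    have := abs_sub_round x
    nlinarith [Real.pi_pos]
  have h3 := Real.mul_abs_le_abs_sin h2
  rw [abs_mul, abs_of_pos Real.pi_pos] at h3
  have h4 : 2 / π * (π * |x - round x|) = 2 * |x - round x| := by
    field_simp
  rw [h4] at h3
  exact h3

lemma sublevel {c t : ℝ} (hc : |c| ≤ 1 / 2) (ht : 0 ≤ t) :
    volume {θ : UnitAddCircle | |csn θ - c| ≤ t} ≤ ENNReal.ofReal (5 / 2 * t) := by
  have hc1 : -1 ≤ c := by have := abs_le.1 hc; linarith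
  have hc2 : c ≤ 1 := by have := abs_le.1 hc; linarith
  set y := Real.arccos c / (2 * π) with hy
  have hy1 : 2 * π * y = Real.arccos c := by
    rw [hy]; field_simp
  have hcos : Real.cos (2 * π * y) = c := by rw [hy1, Real.cos_arccos hc1 hc2]
  have hsin : (4:ℝ) / 5 ≤ |Real.sin (2 * π * y)| := by
    have h1 := Real.sin_sq_add_cos_sq (2 * π * y)
    rw [hcos] at h1
    have h2 : c ^ 2 ≤ 1 / 4 := by
      have := abs_le.1 hc
      nlinarith
    have h3 : (4 / 5 : ℝ) ^ 2 ≤ |Real.sin (2 * π * y)| ^ 2 := by
      rw [sq_abs]; nlinarith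
    exact le_of_sq_le_sq h3 (abs_nonneg _) |> fun h => h
  have hsub : {θ : UnitAddCircle | |csn θ - c| ≤ t} ⊆
      Metric.closedBall ((y : ℝ) : UnitAddCircle) (5 / 8 * t) ∪
      Metric.closedBall ((-y : ℝ) : UnitAddCircle) (5 / 8 * t) := by
    intro θ hθ
    induction θ using QuotientAddGroup.induction_on with
    | H x =>
      rw [mem_ofPred_eq, show (QuotientAddGroup.mk x : UnitAddCircle) = (x : UnitAddCircle) from rfl,
        csn_coe] at hθ
      have e1 : Real.cos (2 * π * x) - c =
          -(2 * Real.sin (π * (x + y)) * Real.sin (π * (x - y))) := by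
        rw [← hcos, Real.cos_sub_cos]
        rw [show (2 * π * x + 2 * π * y) / 2 = π * (x + y) by ring,
          show (2 * π * x - 2 * π * y) / 2 = π * (x - y) by ring]
        ring
      rw [e1, abs_neg, abs_mul, abs_mul, abs_of_pos (by norm_num : (0:ℝ) < 2)] at hθ
      have e2 : |Real.sin (2 * π * y)| ≤ |Real.sin (π * (x + y))| + |Real.sin (π * (x - y))| := by
        have : Real.sin (2 * π * y) = Real.sin (π * (x + y)) * Real.cos (π * (x - y)) -
            Real.cos (π * (x + y)) * Real.sin (π * (x - y)) := by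
          rw [← Real.sin_sub]; congr 1; ring
        rw [this]
        refine (abs_sub _ _).trans ?_
        rw [abs_mul, abs_mul]
        have h1 := Real.abs_cos_le_one (π * (x - y))
        have h2 := Real.abs_cos_le_one (π * (x + y))
        have h3 := abs_nonneg (Real.sin (π * (x + y)))
        have h4 := abs_nonneg (Real.sin (π * (x - y)))
        nlinarith
      have h3 := abs_nonneg (Real.sin (π * (x + y)))
      have h4 := abs_nonneg (Real.sin (π * (x - y)))
      rcases le_or_gt (2 / 5) |Real.sin (π * (x + y))| with h | h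
      · left
        rw [Metric.mem_closedBall, dist_eq_norm, ← AddCircle.coe_sub]
        have h5 := norm_le_sin (x - y)
        have h6 : 4 / 5 * |Real.sin (π * (x - y))| ≤ t := by nlinarith
        linarith
      · right
        have h7 : 2 / 5 ≤ |Real.sin (π * (x - y))| := by linarith
        rw [Metric.mem_closedBall, dist_eq_norm, ← AddCircle.coe_sub]
        have h5 := norm_le_sin (x - -y)
        rw [sub_neg_eq_add] at h5
        have h6 : 4 / 5 * |Real.sin (π * (x + y))| ≤ t := by nlinarith
        rw [sub_neg_eq_add]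
        linarith
  have hball : ∀ z : UnitAddCircle, volume (Metric.closedBall z (5 / 8 * t)) ≤
      ENNReal.ofReal (5 / 4 * t) := by
    intro z
    rw [AddCircle.volume_closedBall]
    apply ENNReal.ofReal_le_ofReal
    refine (min_le_right _ _).trans ?_
    linarith
  calc volume {θ : UnitAddCircle | |csn θ - c| ≤ t} ≤ _ := measure_mono hsub
    _ ≤ _ := measure_union_le _ _
    _ ≤ ENNReal.ofReal (5 / 4 * t) + ENNReal.ofReal (5 / 4 * t) := add_le_add (hball _) (hball _)
    _ = ENNReal.ofReal (5 / 2 * t) := by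
        rw [← ENNReal.ofReal_add (by positivity) (by positivity)]
        congr 1; ring

/-- the derivative coefficient on the circle -/
noncomputable def Phi (a : ℝ) (θ : UnitAddCircle) : ℝ := 2 + 2 * π * a * csn θ

lemma Phi_coe (a x : ℝ) : Phi a (x : UnitAddCircle) = phi a x := by
  unfold Phi phi; rw [csn_coe]

lemma measurable_Phi (a : ℝ) : Measurable (Phi a) :=
  (measurable_csn.const_mul _).const_add _

lemma sublevel_Phi {a s : ℝ} (ha : 1 ≤ |a|) (hs : 0 ≤ s) :
    volume {θ : UnitAddCircle | |Phi a θ| ≤ s} ≤ ENNReal.ofReal (s / (2 * |a|)) := by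
  have ha0 : 0 < |a| := by linarith
  have hane : a ≠ 0 := abs_pos.1 ha0
  have hpi := Real.pi_gt_three
  have hc : |(-(1 / (π * a)) : ℝ)| ≤ 1 / 2 := by
    rw [abs_neg, abs_div, abs_mul, abs_one, abs_of_pos Real.pi_pos]
    rw [div_le_div_iff₀ (by positivity) (by norm_num)]
    nlinarith
  have h1 := sublevel (c := -(1 / (π * a))) (t := s / (2 * π * |a|)) hc (by positivity)
  refine (measure_mono ?_).trans (h1.trans ?_)
  · intro θ hθ
    rw [mem_ofPred_eq] at hθ ⊢
    have e : csn θ - -(1 / (π * a)) = Phi a θ / (2 * π * a) := by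
      unfold Phi; field_simp; ring
    rw [e, abs_div]
    have : |2 * π * a| = 2 * π * |a| := by
      rw [abs_mul, abs_of_pos (by positivity : (0:ℝ) < 2 * π)]
    rw [this]
    gcongr
  · apply ENNReal.ofReal_le_ofReal
    rw [mul_div_assoc', div_le_div_iff₀ (by positivity) (by positivity)]
    nlinarith [mul_nonneg hs ha0.le]

end Pool.Agent.Helper78.SM
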