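import Mathlib
import Pool.Agent.Helper78.SM.Sub

set_option autoImplicit false
open Real MeasureTheory Set
open scoped ENNReal

namespace Pool.Agent.Helper78.SM

open Pool.Agent.Helper53.SM (T2 IsStd isStd_iff)

/-- pairs with small product -/
def P2 (a κ : ℝ) : Set T2 := {p | |Phi a p.1 * Phi a p.2| < κ}

lemma measurableSet_P2 (a κ : ℝ) : MeasurableSet (P2 a κ) := by
  have h1 : Measurable (fun p : T2 => |Phi a p.1 * Phi a p.2|) := by
    have := ((measurable_Phi a).comp (measurable_fst (α := UnitAddCircle) (β := UnitAddCircle))).mul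
      ((measurable_Phi a).comp (measurable_snd (α := UnitAddCircle) (β := UnitAddCircle)))
    exact continuous_abs.measurable.comp this
  exact measurableSet_lt h1 measurable_const

lemma abs_Phi_le {a : ℝ} (ha : 1 ≤ |a|) (θ : UnitAddCircle) : |Phi a θ| ≤ 9 * |a| := by
  unfold Phi
  have h1 := abs_csn_le θ
  have hpi := Real.pi_lt_d2
  have hpi0 := Real.pi_pos
  calc |2 + 2 * π * a * csn θ| ≤ |2| + |2 * π * a * csn θ| := abs_add_le _ _
    _ = 2 + 2 * π * |a| * |csn θ| := by
        rw [abs_mul, abs_mul, abs_of_pos (by positivity : (0:ℝ) < 2 * π), abs_two]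
    _ ≤ 2 + 2 * π * |a| * 1 := by gcongr
    _ ≤ 9 * |a| := by nlinarith

lemma volume_P2 {a κ : ℝ} (ha : 3 ≤ |a|) (hκ : 4 ≤ κ) :
    volume (P2 a κ) ≤ ENNReal.ofReal (4 * κ * Real.log |a| / |a| ^ 2) := by
  set A := |a| with hA
  have ha1 : 1 ≤ |a| := by linarith
  have hA0 : 0 < A := by linarith
  have hlog : 1 ≤ Real.log A := by
    rw [← Real.log_exp 1]
    apply Real.log_le_log (Real.exp_pos _)
    have := Real.exp_one_lt_d9
    linarith
  set J : ℕ := ⌈2 + 3 * Real.log A⌉₊ with hJ
  have hJ1 : 2 + 3 * Real.log A ≤ J := Nat.le_ceil _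
  have hJ2 : (J:ℝ) ≤ 3 + 3 * Real.log A := by
    have := Nat.ceil_lt_add_one (by linarith : 0 ≤ 2 + 3 * Real.log A)
    rw [← hJ] at this
    linarith
  have hJ3 : 4 * A ^ 2 ≤ (2:ℝ) ^ J := by
    have h1 : (2:ℝ) ^ (2 + 3 * Real.log A) ≤ (2:ℝ) ^ (J:ℝ) :=
      Real.rpow_le_rpow_of_exponent_le (by norm_num) hJ1
    rw [Real.rpow_natCast] at h1
    refine le_trans ?_ h1
    rw [Real.rpow_add (by norm_num)]
    have h2 : (2:ℝ) ^ (3 * Real.log A) = A ^ (3 * Real.log 2) := by
      rw [Real.rpow_def_of_pos (by norm_num), Real.rpow_def_of_pos hA0]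
      congr 1; ring
    rw [h2]
    have h3 : A ^ 2 ≤ A ^ (3 * Real.log 2) := by
      rw [← Real.rpow_natCast]
      apply Real.rpow_le_rpow_of_exponent_le (by linarith)
      have := Real.log_two_gt_d9
      push_cast
      linarith
    have h4 : (2:ℝ) ^ (2:ℝ) = 4 := by norm_num
    rw [h4]
    linarith
  -- the cover
  set U0 : Set T2 := {θ | |Phi a θ| ≤ κ / A} ×ˢ univ with hU0
  set U : ℕ → Set T2 := fun j => {θ | |Phi a θ| ≤ 2 ^ (j+1) * κ / A} ×ˢ {θ | |Phi a θ| ≤ A / 2 ^ j}
    with hU
  have hcover : P2 a κ ⊆ U0 ∪ ⋃ j ∈ Finset.range J, U j := by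
    intro p hp
    rw [P2, mem_ofPred_eq, abs_mul] at hp
    rcases le_or_gt |Phi a p.1| (κ / A) with h | h
    · left
      exact ⟨h, mem_univ _⟩
    · right
      have hκA : 0 < κ / A := by positivity
      have h1 : 1 ≤ |Phi a p.1| / (κ / A) := by
        rw [le_div_iff₀ hκA, one_mul]; exact h.le
      obtain ⟨j, hj1, hj2⟩ := exists_nat_pow_near h1 (by norm_num : (1:ℝ) < 2)
      rw [le_div_iff₀ hκA] at hj1
      rw [div_lt_iff₀ hκA] at hj2
      have hjJ : j < J := by
        by_contra hcon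
        push Not at hcon
        have h2 : (2:ℝ) ^ J ≤ 2 ^ j := pow_le_pow_right₀ (by norm_num) hcon
        have h3 := abs_Phi_le ha1 p.1
        rw [← hA] at h3
        have h4 : 2 ^ j * (κ / A) ≤ 9 * A := hj1.trans h3
        have h5 : 4 * A ^ 2 * (4 / A) ≤ 2 ^ j * (κ / A) := by
          have : 4 / A ≤ κ / A := by gcongr
          have h6 : (4 * A ^ 2 : ℝ) ≤ 2 ^ j := hJ3.trans h2
          gcongr
        have h6 : 4 * A ^ 2 * (4 / A) = 16 * A := by field_simp; ring
        rw [h6] at h5
        linarith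
      simp only [mem_iUnion, Finset.mem_range]
      refine ⟨j, hjJ, ?_, ?_⟩
      · rw [mem_ofPred_eq]
        have : 2 ^ (j+1) * κ / A = 2 ^ (j+1) * (κ / A) := by ring
        rw [this]; exact hj2.le
      · rw [mem_ofPred_eq]
        have hΦ : 0 < |Phi a p.1| := hκA.trans h
        have h2 : |Phi a p.2| * |Phi a p.1| < κ := by rw [mul_comm]; exact hp
        have h3 : |Phi a p.2| * (2 ^ j * (κ / A)) ≤ κ := by
          refine le_trans ?_ h2.le
          gcongr
        rw [le_div_iff₀ (by positivity)]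
        have h4 : |Phi a p.2| * (2 ^ j * (κ / A)) = (|Phi a p.2| * 2 ^ j) * κ / A := by ring
        rw [h4, div_le_iff₀ hA0] at h3
        have hκ0 : 0 < κ := by linarith
        nlinarith
  have hm0 : volume U0 ≤ ENNReal.ofReal (κ / (2 * A ^ 2)) := by
    rw [hU0, Measure.volume_eq_prod, Measure.prod_prod, UnitAddCircle.measure_univ, mul_one]
    refine (sublevel_Phi ha1 (by positivity)).trans ?_
    apply ENNReal.ofReal_le_ofReal
    rw [← hA]
    apply le_of_eq; field_simp
  have hmj : ∀ j, volume (U j) ≤ ENNReal.ofReal (κ / (2 * A ^ 2)) := by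
    intro j
    rw [hU]
    simp only
    rw [Measure.volume_eq_prod, Measure.prod_prod]
    calc _ ≤ ENNReal.ofReal (2 ^ (j+1) * κ / A / (2 * |a|)) *
          ENNReal.ofReal (A / 2 ^ j / (2 * |a|)) :=
          mul_le_mul' (sublevel_Phi ha1 (by positivity)) (sublevel_Phi ha1 (by positivity))
      _ = _ := by
          rw [← ENNReal.ofReal_mul (by positivity), ← hA]
          congr 1
          field_simp
          ring
  calc volume (P2 a κ) ≤ volume (U0 ∪ ⋃ j ∈ Finset.range J, U j) := measure_mono hcover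
    _ ≤ volume U0 + volume (⋃ j ∈ Finset.range J, U j) := measure_union_le _ _
    _ ≤ volume U0 + ∑ j ∈ Finset.range J, volume (U j) := by
        gcongr
        exact measure_biUnion_finset_le _ _
    _ ≤ ENNReal.ofReal (κ / (2 * A ^ 2)) +
        ∑ j ∈ Finset.range J, ENNReal.ofReal (κ / (2 * A ^ 2)) := by
        gcongr with j hj
        exact hmj j
    _ = ENNReal.ofReal ((1 + J) * (κ / (2 * A ^ 2))) := by
        rw [Finset.sum_const, Finset.card_range, nsmul_eq_mul, add_mul, one_mul,
          ENNReal.ofReal_add (by positivity) (by positivity), ENNReal.ofReal_mul (by positivity),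
          ENNReal.ofReal_natCast]
    _ ≤ _ := by
        apply ENNReal.ofReal_le_ofReal
        rw [mul_div_assoc', div_le_div_iff₀ (by positivity) (by positivity)]
        have h1 : (1 + (J:ℝ)) ≤ 8 * Real.log A := by linarith
        have hκ0 : 0 < κ := by linarith
        have h2 : 0 < A ^ 2 := by positivity
        calc (1 + (J:ℝ)) * κ * A ^ 2 ≤ (8 * Real.log A) * κ * A ^ 2 := by gcongr
          _ = _ := by ring

/-- the event that some consecutive pair is bad -/
def Bad1 (a κ : ℝ) (T : T2 → T2) (n : ℕ) : Set T2 :=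
  {p | ∃ k, k + 1 < n ∧ |Phi a (T^[k] p).1 * Phi a (T^[k+1] p).1| < κ}

lemma std_snd {a : ℝ} {T : T2 → T2} (h : IsStd a T) (p : T2) : (T p).2 = p.1 := by
  obtain ⟨x, y⟩ := p
  induction x using QuotientAddGroup.induction_on with
  | H x =>
    induction y using QuotientAddGroup.induction_on with
    | H y =>
      have := isStd_iff h x y
      exact congrArg Prod.snd this

lemma volume_Bad1 {a κ : ℝ} (ha : 3 ≤ |a|) (hκ : 4 ≤ κ) {T : T2 → T2} (hT : IsStd a T) (n : ℕ) :
    volume (Bad1 a κ T n) ≤ ENNReal.ofReal (n * (4 * κ * Real.log |a| / |a| ^ 2)) := by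
  have hsub : Bad1 a κ T n ⊆ ⋃ k ∈ Finset.range n, (T^[k+1]) ⁻¹' (P2 a κ) := by
    rintro p ⟨k, hk, hp⟩
    simp only [mem_iUnion, Finset.mem_range]
    refine ⟨k, by omega, ?_⟩
    rw [mem_preimage, P2, mem_ofPred_eq]
    have : (T^[k+1] p).2 = (T^[k] p).1 := by
      rw [Function.iterate_succ_apply', std_snd hT]
    rw [this, mul_comm]
    exact hp
  have hlog : 0 ≤ Real.log |a| := Real.log_nonneg (by linarith)
  have hκ0 : 0 < κ := by linarith
  calc volume (Bad1 a κ T n) ≤ _ := measure_mono hsub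
    _ ≤ ∑ k ∈ Finset.range n, volume ((T^[k+1]) ⁻¹' (P2 a κ)) := measure_biUnion_finset_le _ _
    _ = ∑ k ∈ Finset.range n, volume (P2 a κ) := by
        apply Finset.sum_congr rfl
        intro k _
        exact (hT.measurePreserving.iterate (k+1)).measure_preimage
          (measurableSet_P2 a κ).nullMeasurableSet
    _ ≤ ∑ k ∈ Finset.range n, ENNReal.ofReal (4 * κ * Real.log |a| / |a| ^ 2) := by
        gcongr with k hk
        exact volume_P2 ha hκ
    _ = _ := by
        rw [Finset.sum_const, Finset.card_range, nsmul_eq_mul, ENNReal.ofReal_mul (by positivity),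
          ENNReal.ofReal_natCast]

end Pool.Agent.Helper78.SM
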