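import Mathlib
import Pool.Agent.Helper78.SM.Pair

set_option autoImplicit false
open Real MeasureTheory Set
open scoped ENNReal

namespace Pool.Agent.Helper78.SM

/-- logarithmic tail -/
lemma tail {g : UnitAddCircle → ℝ} (hg : Measurable g) (hg0 : ∀ θ, 0 ≤ g θ) {C : ℝ} (hC : 0 ≤ C)
    (h : ∀ s : ℝ, 0 ≤ s → volume {θ | g θ ≤ s} ≤ ENNReal.ofReal (C * s)) (M : ℝ) :
    ∫⁻ θ, ENNReal.ofReal (max (-Real.log (g θ) - M) 0) ≤ ENNReal.ofReal (C * Real.exp (-M)) := by
  have hmeas : Measurable (fun θ => max (-Real.log (g θ) - M) 0) :=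
    (((Real.measurable_log.comp hg).neg).sub_const M).max measurable_const
  have hnn : 0 ≤ᵐ[volume] (fun θ => max (-Real.log (g θ) - M) 0) :=
    Filter.Eventually.of_forall (fun θ => le_max_right _ _)
  rw [lintegral_eq_lintegral_meas_lt volume hnn hmeas.aemeasurable]
  have h1 : ∀ t ∈ Ioi (0:ℝ), volume {θ | t < max (-Real.log (g θ) - M) 0} ≤
      ENNReal.ofReal (C * Real.exp (-M) * Real.exp (-t)) := by
    intro t ht
    rw [mem_Ioi] at ht
    have hs := h (Real.exp (-M - t)) (Real.exp_pos _).le
    refine (measure_mono ?_).trans (hs.trans (le_of_eq ?_))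
    · intro θ hθ
      rw [mem_ofPred_eq] at hθ ⊢
      have h2 : t < -Real.log (g θ) - M := by
        rcases lt_max_iff.1 hθ with h3 | h3
        · exact h3
        · linarith
      rcases (hg0 θ).eq_or_lt with h0 | h0
      · rw [← h0]; exact (Real.exp_pos _).le
      · rw [← Real.log_le_iff_le_exp h0]
        linarith
    · rw [sub_eq_add_neg, Real.exp_add, mul_assoc]
  calc _ ≤ ∫⁻ t in Ioi (0:ℝ), ENNReal.ofReal (C * Real.exp (-M) * Real.exp (-t)) :=
        setLIntegral_mono' measurableSet_Ioi h1
    _ = ENNReal.ofReal (∫ t in Ioi (0:ℝ), C * Real.exp (-M) * Real.exp (-t)) := by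
        rw [ofReal_integral_eq_lintegral_ofReal]
        · have := exp_neg_integrableOn_Ioi 0 (b := 1) one_pos
          simp only [neg_mul, one_mul] at this
          exact this.const_mul _
        · exact Filter.Eventually.of_forall (fun t => by positivity)
    _ = _ := by
        rw [integral_const_mul, integral_exp_neg_Ioi_zero, mul_one]

/-- the truncated logarithm of `|2 cos|` -/
noncomputable def uM (M : ℝ) (θ : UnitAddCircle) : ℝ := Real.log (max |2 * csn θ| (Real.exp (-M)))

lemma measurable_uM (M : ℝ) : Measurable (uM M) := by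
  unfold uM
  apply Real.measurable_log.comp
  exact (continuous_abs.measurable.comp (measurable_csn.const_mul 2)).max measurable_const

lemma uM_ge (M : ℝ) (θ : UnitAddCircle) : -M ≤ uM M θ := by
  unfold uM
  rw [← Real.log_exp (-M)]
  apply Real.log_le_log (Real.exp_pos _)
  rw [Real.log_exp]
  exact le_max_right _ _

lemma uM_le {M : ℝ} (hM : 0 ≤ M) (θ : UnitAddCircle) : uM M θ ≤ 1 := by
  unfold uM
  rw [← Real.log_exp 1]
  apply Real.log_le_log (lt_max_of_lt_right (Real.exp_pos _))
  have h2 : (2:ℝ) ≤ Real.exp 1 := by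
    have := Real.add_one_le_exp (1:ℝ); linarith
  apply max_le
  · rw [abs_mul, abs_two]
    have := abs_csn_le θ
    linarith
  · have : Real.exp (-M) ≤ Real.exp 1 := Real.exp_le_exp.2 (by linarith)
    exact this

lemma abs_uM_le {M : ℝ} (hM : 1 ≤ M) (θ : UnitAddCircle) : |uM M θ| ≤ M := by
  rw [abs_le]
  exact ⟨uM_ge M θ, (uM_le (by linarith) θ).trans hM⟩

lemma log_max_lip {M x y : ℝ} : |Real.log (max x (Real.exp (-M))) -
    Real.log (max y (Real.exp (-M)))| ≤ Real.exp M * |x - y| := by
  wlog hxy : y ≤ x generalizing x y with H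
  · have := H (le_of_not_ge hxy)
    rw [abs_sub_comm, abs_sub_comm x y]
    exact this
  set m := Real.exp (-M) with hm
  have hm0 : 0 < m := Real.exp_pos _
  have h1 : 0 < max y m := lt_max_of_lt_right hm0
  have h2 : max y m ≤ max x m := max_le_max_right _ hxy
  have h3 : max x m - max y m ≤ x - y := by
    have := abs_max_sub_max_le_abs x y m
    rw [abs_of_nonneg (by linarith), abs_of_nonneg (by linarith)] at this
    exact this
  have h4 : Real.log (max y m) ≤ Real.log (max x m) := Real.log_le_log h1 h2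
  rw [abs_of_nonneg (by linarith), abs_of_nonneg (by linarith)]
  have h5 : Real.log (max x m) - Real.log (max y m) ≤ (max x m - max y m) / max y m := by
    rw [← Real.log_div (by linarith [lt_of_lt_of_le h1 h2]) h1.ne']
    have h6 := Real.log_le_sub_one_of_pos (x := max x m / max y m) (by
      have := lt_of_lt_of_le h1 h2
      positivity)
    refine h6.trans (le_of_eq ?_)
    field_simp
  refine h5.trans ?_
  have h6 : m ≤ max y m := le_max_right _ _
  have h7 : Real.exp M = 1 / m := by rw [hm, Real.exp_neg]; simp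
  rw [h7, div_mul_eq_mul_div, one_mul]
  have h8 : 0 ≤ x - y := by linarith
  calc (max x m - max y m) / max y m ≤ (x - y) / max y m := by gcongr
    _ ≤ (x - y) / m := by gcongr

lemma csn_lip (θ η : UnitAddCircle) : |csn θ - csn η| ≤ 2 * π * dist θ η := by
  obtain ⟨x, rfl⟩ : ∃ x : ℝ, (x : UnitAddCircle) = θ := QuotientAddGroup.mk_surjective θ
  obtain ⟨y, rfl⟩ : ∃ y : ℝ, (y : UnitAddCircle) = η := QuotientAddGroup.mk_surjective η
  rw [dist_eq_norm, ← AddCircle.coe_sub, UnitAddCircle.norm_eq]
  set r := round (x - y) with hr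
  have h1 : Real.cos (2 * π * x) = Real.cos (2 * π * (x - r)) := by
    have : 2 * π * (x - r) = 2 * π * x - r * (2 * π) := by ring
    rw [this, Real.cos_sub_int_mul_two_pi]
  rw [csn_coe, csn_coe, h1]
  have h2 : |Real.cos (2 * π * (x - r)) - Real.cos (2 * π * y)| ≤ |2 * π * (x - r) - 2 * π * y| := by
    rw [Real.cos_sub_cos]
    rw [abs_mul, abs_mul, abs_neg, abs_two]
    have h3 := Real.abs_sin_le_one ((2 * π * (x - r) + 2 * π * y) / 2)
    have h4 : |Real.sin ((2 * π * (x - r) - 2 * π * y) / 2)| ≤ |(2 * π * (x - r) - 2 * π * y) / 2| :=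
      Real.abs_sin_le_abs
    rw [abs_div, abs_two] at h4
    have h5 := abs_nonneg (Real.sin ((2 * π * (x - r) + 2 * π * y) / 2))
    have h6 := abs_nonneg (Real.sin ((2 * π * (x - r) - 2 * π * y) / 2))
    nlinarith
  refine h2.trans (le_of_eq ?_)
  rw [show 2 * π * (x - r) - 2 * π * y = 2 * π * (x - y - r) by ring, abs_mul,
    abs_of_pos (by positivity)]

lemma uM_lip (M : ℝ) (θ η : UnitAddCircle) :
    |uM M θ - uM M η| ≤ 4 * π * Real.exp M * dist θ η := by
  unfold uM
  refine log_max_lip.trans ?_
  have h1 : |(|2 * csn θ| - |2 * csn η|)| ≤ 2 * (2 * π * dist θ η) := by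
    refine (abs_abs_sub_abs_le_abs_sub _ _).trans ?_
    rw [← mul_sub, abs_mul, abs_two]
    have := csn_lip θ η
    linarith
  calc Real.exp M * |(|2 * csn θ| - |2 * csn η|)| ≤ Real.exp M * (2 * (2 * π * dist θ η)) := by
        gcongr
    _ = _ := by ring

lemma cos_ne_ae : ∀ᵐ x : ℝ, Real.cos (2 * π * x) ≠ 0 := by
  have hc : (Set.range (fun k : ℤ => (2 * (k:ℝ) + 1) / 4)).Countable := Set.countable_range _
  filter_upwards [hc.ae_notMem volume] with x hx h0
  apply hx
  rw [Real.cos_eq_zero_iff] at h0
  obtain ⟨k, hk⟩ := h0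
  refine ⟨k, ?_⟩
  simp only
  have hpi := Real.pi_pos
  field_simp at hk ⊢
  linarith

lemma int_log_cos_two_pi : ∫ y in (0:ℝ)..(2 * π), Real.log (Real.cos y) = -(2 * π * Real.log 2) := by
  have hper : Function.Periodic (fun y => Real.log (Real.cos y)) π := by
    intro y
    simp only [Real.cos_add_pi, Real.log_neg_eq_log]
  have hper2 : Function.Periodic (fun y => Real.log (Real.sin y)) π := by
    intro y
    simp only [Real.sin_add_pi, Real.log_neg_eq_log]
  have h1 : ∫ y in (0:ℝ)..(2 * π), Real.log (Real.cos y) =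
      (∫ y in (0:ℝ)..π, Real.log (Real.cos y)) + ∫ y in π..(2 * π), Real.log (Real.cos y) := by
    rw [intervalIntegral.integral_add_adjacent_intervals]
    · exact intervalIntegrable_log_cos
    · exact intervalIntegrable_log_cos
  have h2 : ∫ y in π..(2 * π), Real.log (Real.cos y) = ∫ y in (0:ℝ)..π, Real.log (Real.cos y) := by
    have := hper.intervalIntegral_add_eq π 0
    rw [zero_add, ← two_mul] at this
    exact this
  have h3 : ∫ y in (0:ℝ)..π, Real.log (Real.cos y) = ∫ y in (0:ℝ)..π, Real.log (Real.sin y) := by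
    have e : ∀ y, Real.cos y = Real.sin (y + π / 2) := fun y => (Real.sin_add_pi_div_two y).symm
    simp only [e]
    rw [intervalIntegral.integral_comp_add_right (fun y => Real.log (Real.sin y))]
    have := hper2.intervalIntegral_add_eq (π / 2) 0
    rw [zero_add] at this ⊢
    rw [add_comm π (π / 2)]
    exact this
  rw [h1, h2, h3, integral_log_sin_zero_pi]
  ring

lemma intervalIntegrable_log_cos2 :
    IntervalIntegrable (fun x => Real.log (Real.cos (2 * π * x))) volume 0 1 := by
  have := (intervalIntegrable_log_cos (a := 0) (b := 2 * π)).comp_mul_left (c := 2 * π)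
  have hpi := Real.pi_pos
  rw [zero_div, div_self (by positivity)] at this
  exact this

lemma int_log_cos_one : ∫ x in (0:ℝ)..1, Real.log (Real.cos (2 * π * x)) = -Real.log 2 := by
  have h := intervalIntegral.integral_comp_mul_left (a := 0) (b := 1)
    (fun y => Real.log (Real.cos y)) (c := 2 * π) (by have := Real.pi_pos; positivity)
  rw [h, mul_zero, mul_one, int_log_cos_two_pi, smul_eq_mul]
  have hpi := Real.pi_pos
  field_simp

lemma log_abs_two_cos : (fun x : ℝ => Real.log |2 * Real.cos (2 * π * x)|) =ᵐ[volume]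
    fun x => Real.log 2 + Real.log (Real.cos (2 * π * x)) := by
  filter_upwards [cos_ne_ae] with x hx
  rw [Real.log_abs, Real.log_mul two_ne_zero hx]

lemma intervalIntegrable_two_cos :
    IntervalIntegrable (fun x => Real.log |2 * Real.cos (2 * π * x)|) volume 0 1 := by
  have h1 : IntervalIntegrable (fun x => Real.log 2 + Real.log (Real.cos (2 * π * x))) volume 0 1 :=
    intervalIntegrable_const.add intervalIntegrable_log_cos2
  exact h1.congr_ae (log_abs_two_cos.symm.restrict)

lemma int_two_cos : ∫ x in (0:ℝ)..1, Real.log |2 * Real.cos (2 * π * x)| = 0 := by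
  rw [intervalIntegral.integral_congr_ae (log_abs_two_cos.mono (fun x hx _ => hx)),
    intervalIntegral.integral_add intervalIntegrable_const intervalIntegrable_log_cos2,
    int_log_cos_one]
  simp

lemma sublevel_two_csn {s : ℝ} (hs : 0 ≤ s) :
    volume {θ : UnitAddCircle | |2 * csn θ| ≤ s} ≤ ENNReal.ofReal (2 * s) := by
  have h1 := sublevel (c := 0) (t := s / 2) (by norm_num) (by positivity)
  refine (measure_mono ?_).trans (h1.trans ?_)
  · intro θ hθ
    rw [mem_ofPred_eq] at hθ ⊢
    rw [abs_mul, abs_two] at hθ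
    rw [sub_zero]
    linarith
  · apply ENNReal.ofReal_le_ofReal
    linarith

/-- the mean of `uM` is close to `0` -/
lemma mean_uM {M : ℝ} (hM : 1 ≤ M) :
    |∫ θ : UnitAddCircle, uM M θ| ≤ 2 * Real.exp (-M) := by
  have hcirc : ∀ u : UnitAddCircle → ℝ, ∫ z : UnitAddCircle, u z = ∫ t in (0:ℝ)..1, u (t : UnitAddCircle) := by
    intro u
    have := UnitAddCircle.intervalIntegral_preimage 0 u
    rw [zero_add] at this
    exact this.symm
  have e1 : ∫ θ : UnitAddCircle, uM M θ = ∫ θ : UnitAddCircle, max (-Real.log |2 * csn θ| - M) 0 := by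
    rw [hcirc, hcirc]
    have h2 : ∫ x in (0:ℝ)..1, uM M (x : UnitAddCircle) =
        ∫ x in (0:ℝ)..1, (uM M (x : UnitAddCircle) - Real.log |2 * Real.cos (2 * π * x)|) := by
      rw [intervalIntegral.integral_sub, int_two_cos, sub_zero]
      · rw [intervalIntegrable_iff_integrableOn_Ioc_of_le (zero_le_one' ℝ)]
        have hme : Measurable (fun x : ℝ => uM M (x : UnitAddCircle)) :=
          (measurable_uM M).comp (AddCircle.continuous_mk' 1).measurable
        refine Measure.integrableOn_of_bounded (M := M) (by simp) hme.aestronglyMeasurable ?_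
        exact Filter.Eventually.of_forall (fun x => by
          rw [Real.norm_eq_abs]; exact abs_uM_le hM _)
      · exact intervalIntegrable_two_cos
    rw [h2]
    apply intervalIntegral.integral_congr_ae
    filter_upwards [cos_ne_ae] with x hx _
    have hc : 0 < |2 * Real.cos (2 * π * x)| := by
      rw [abs_pos]; exact mul_ne_zero two_ne_zero hx
    simp only [uM, csn_coe]
    rcases le_total |2 * Real.cos (2 * π * x)| (Real.exp (-M)) with h | h
    · rw [max_eq_right h, Real.log_exp, max_eq_left]
      · ring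
      · have := (Real.log_le_iff_le_exp hc).2 h
        linarith
    · rw [max_eq_left h, max_eq_right]
      · ring
      · have := (Real.le_log_iff_exp_le hc).2 h
        linarith
  have hm : Measurable (fun θ => |2 * csn θ|) := continuous_abs.measurable.comp (measurable_csn.const_mul 2)
  have h3 := tail hm (fun θ => abs_nonneg _) (C := 2) (by norm_num)
    (fun s hs => sublevel_two_csn hs) M
  have hnn : 0 ≤ ∫ θ : UnitAddCircle, max (-Real.log |2 * csn θ| - M) 0 :=
    integral_nonneg (fun θ => le_max_right _ _)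
  rw [e1, abs_of_nonneg hnn]
  have hnn2 : 0 ≤ᵐ[volume] (fun θ : UnitAddCircle => max (-Real.log |2 * csn θ| - M) 0) :=
    Filter.Eventually.of_forall (fun θ => le_max_right _ _)
  rw [integral_eq_lintegral_of_nonneg_ae hnn2]
  · exact ENNReal.toReal_le_of_le_ofReal (by positivity) h3
  · exact ((((Real.measurable_log.comp hm).neg).sub_const M).max measurable_const).aestronglyMeasurable

end Pool.Agent.Helper78.SM
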