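import Mathlib

set_option autoImplicit false
open Real

namespace Pool.Agent.Helper78.SM

/-- contraction backwards -/
lemma contract {f v : ℕ → ℝ} {κ : ℝ} (hκ : 4 ≤ κ) {N : ℕ}
    (hrec : ∀ i, v (i+2) = f i * v (i+1) - v i)
    (hpair : ∀ i, i + 1 < N → κ ≤ |f i * f (i+1)|)
    (hlast : 2 ≤ |f (N-1)|) (hbad : |v (N+1)| ≤ |v N|) :
    ∀ i, i < N → |f i| * |v (i+1)| ≤ 2 * |v i| := by
  have hκ0 : 0 < κ := by linarith
  have key : ∀ j, j < N → |f (N-1-j)| * |v (N-1-j+1)| ≤ 2 * |v (N-1-j)| := by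
    intro j
    induction j with
    | zero =>
      intro hN
      simp only [Nat.sub_zero]
      have h1 := hrec (N-1)
      rw [show N - 1 + 2 = N + 1 by omega, show N - 1 + 1 = N by omega] at h1
      rw [show N - 1 + 1 = N by omega]
      have h2 : |f (N-1)| * |v N| ≤ |v (N-1)| + |v (N+1)| := by
        rw [← abs_mul]
        have : f (N-1) * v N = v (N-1) + v (N+1) := by rw [h1]; ring
        rw [this]; exact abs_add_le _ _
      have h3 : |v N| ≤ |f (N-1)| * |v N| / 2 := by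
        have := abs_nonneg (v N)
        nlinarith
      linarith
    | succ j ih =>
      intro hj
      have ih' := ih (by omega)
      set i := N - 1 - (j+1) with hi
      have hi1 : N - 1 - j = i + 1 := by omega
      rw [hi1] at ih'
      have h1 := hrec i
      have h2 : |f i| * |v (i+1)| ≤ |v i| + |v (i+2)| := by
        rw [← abs_mul]
        have : f i * v (i+1) = v i + v (i+2) := by rw [h1]; ring
        rw [this]; exact abs_add_le _ _
      have hp := hpair i (by omega)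
      rw [abs_mul] at hp
      -- κ |v(i+2)| ≤ |f i||f(i+1)||v(i+2)| ≤ 2 |f i| |v(i+1)|
      have h3 : κ * |v (i+2)| ≤ 2 * (|f i| * |v (i+1)|) := by
        calc κ * |v (i+2)| ≤ (|f i| * |f (i+1)|) * |v (i+2)| := by gcongr
          _ = |f i| * (|f (i+1)| * |v (i+1+1)|) := by ring
          _ ≤ |f i| * (2 * |v (i+1)|) := by gcongr
          _ = _ := by ring
      have h4 : |v (i+2)| ≤ |f i| * |v (i+1)| / 2 := by
        have h5 := abs_nonneg (v (i+2))
        nlinarith
      linarith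
  intro i hi
  have := key (N-1-i) (by omega)
  rwa [show N - 1 - (N - 1 - i) = i by omega] at this

/-- forward growth from the good cone -/
lemma grow_fwd {f v : ℕ → ℝ} {κ : ℝ} (hκ : 4 ≤ κ) {N : ℕ}
    (hrec : ∀ i, v (i+2) = f i * v (i+1) - v i) (h0 : v 0 = 0)
    (hpair : ∀ i, i + 1 < N → κ ≤ |f i * f (i+1)|) :
    ∀ i, i < N → |f i| * |v (i+1)| ≤ 2 * |v (i+2)| := by
  have hκ0 : 0 < κ := by linarith
  intro i
  induction i with
  | zero =>
    intro _
    rw [hrec 0, h0, sub_zero, abs_mul]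
    have := mul_nonneg (abs_nonneg (f 0)) (abs_nonneg (v (0+1)))
    linarith
  | succ i ih =>
    intro hi
    have ih' := ih (by omega)
    have h1 := hrec (i+1)
    have h2 : |f (i+1)| * |v (i+2)| ≤ |v (i+1+2)| + |v (i+1)| := by
      rw [← abs_mul]
      have : f (i+1) * v (i+2) = v (i+1+2) + v (i+1) := by rw [h1]; ring
      rw [this]; exact abs_add_le _ _
    have hp := hpair i (by omega)
    rw [abs_mul] at hp
    have h3 : κ * |v (i+1)| ≤ 2 * (|f (i+1)| * |v (i+2)|) := by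
      calc κ * |v (i+1)| ≤ (|f i| * |f (i+1)|) * |v (i+1)| := by gcongr
        _ = |f (i+1)| * (|f i| * |v (i+1)|) := by ring
        _ ≤ |f (i+1)| * (2 * |v (i+2)|) := by gcongr
        _ = _ := by ring
    have h4 : |v (i+1)| ≤ |f (i+1)| * |v (i+2)| / 2 := by
      have h5 := abs_nonneg (v (i+1))
      nlinarith
    show |f (i+1)| * |v (i+2)| ≤ 2 * |v (i+1+2)|
    linarith

lemma prodbound {f v : ℕ → ℝ} {b : ℝ} (hb : 0 ≤ b) {m : ℕ}
    (h : ∀ i, 1 ≤ i → i ≤ m → |f i| * |v (i+1)| ≤ b * |v i|) :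
    ∀ i, i ≤ m → (∏ l ∈ Finset.range i, |f (l+1)|) * |v (i+1)| ≤ b ^ i * |v 1| := by
  intro i
  induction i with
  | zero => intro _; simp
  | succ i ih =>
    intro hi
    have ih' := ih (by omega)
    rw [Finset.prod_range_succ]
    have h1 := h (i+1) (by omega) hi
    have hQ : 0 ≤ ∏ l ∈ Finset.range i, |f (l+1)| := Finset.prod_nonneg (fun _ _ => abs_nonneg _)
    calc (∏ l ∈ Finset.range i, |f (l+1)|) * |f (i+1)| * |v (i+1+1)|
        = (∏ l ∈ Finset.range i, |f (l+1)|) * (|f (i+1)| * |v (i+1+1)|) := by ring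
      _ ≤ (∏ l ∈ Finset.range i, |f (l+1)|) * (b * |v (i+1)|) := by gcongr
      _ = b * ((∏ l ∈ Finset.range i, |f (l+1)|) * |v (i+1)|) := by ring
      _ ≤ b * (b ^ i * |v 1|) := by gcongr
      _ = _ := by ring

/-- cross Wronskian -/
lemma cross_wronskian {f f' v v' : ℕ → ℝ} (hrec : ∀ i, v (i+2) = f i * v (i+1) - v i)
    (hrec' : ∀ i, v' (i+2) = f' i * v' (i+1) - v' i) (h0 : v 0 = v' 0) (h1 : v 1 = v' 1) (m : ℕ) :
    v (m+1) * v' m - v m * v' (m+1) = ∑ i ∈ Finset.range m, (f i - f' i) * (v (i+1) * v' (i+1)) := by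
  induction m with
  | zero => simp [h0, h1, mul_comm]
  | succ m ih =>
    rw [Finset.sum_range_succ, ← ih]
    show v (m+2) * v' (m+1) - v (m+1) * v' (m+2) = _
    rw [hrec, hrec']
    ring

section
variable {φ ψ : ℝ → ℝ} {K : ℝ} {z z' v v' η : ℕ → ℝ} {N : ℕ} {κ c mder lo : ℝ}

lemma dist_bound (hK : 0 ≤ K) (H1 : ∀ s s', |ψ s - ψ s'| ≤ (|φ s| + K * |s - s'|) * |s - s'|)
    (hz0 : z 0 = z' 0) (hz : ∀ i, z (i+2) = ψ (z (i+1)) - z i + η i)
    (hz' : ∀ i, z' (i+2) = ψ (z' (i+1)) - z' i + η i) (hκ : 1 ≤ κ) {m : ℕ}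
    (hpair : ∀ i, i + 1 ≤ m → κ ≤ |φ (z (i+1)) * φ (z (i+2))|)
    (hC : ∀ i, i ≤ m → 2 * K * (2 ^ i * (∏ l ∈ Finset.range i, |φ (z (l+1))|) * |z 1 - z' 1|) ≤
      |φ (z (i+1))|) :
    ∀ i, i ≤ m + 1 → |z (i+1) - z' (i+1)| ≤
      2 ^ i * (∏ l ∈ Finset.range i, |φ (z (l+1))|) * |z 1 - z' 1| := by
  set P : ℕ → ℝ := fun i => ∏ l ∈ Finset.range i, |φ (z (l+1))| with hP
  have hP0 : ∀ i, 0 ≤ P i := fun i => Finset.prod_nonneg (fun _ _ => abs_nonneg _)
  have hPs : ∀ i, P (i+1) = P i * |φ (z (i+1))| := fun i => Finset.prod_range_succ _ _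
  have step : ∀ i, i ≤ m → |z (i+1) - z' (i+1)| ≤ 2 ^ i * P i * |z 1 - z' 1| →
      |z i - z' i| ≤ (if i = 0 then 0 else 2 ^ (i-1) * P (i-1) * |z 1 - z' 1|) →
      |z (i+2) - z' (i+2)| ≤ 2 ^ (i+1) * P (i+1) * |z 1 - z' 1| := by
    intro i hi h1 h2
    have hCi := hC i hi
    have e : z (i+2) - z' (i+2) = (ψ (z (i+1)) - ψ (z' (i+1))) - (z i - z' i) := by
      rw [hz, hz']; ring
    rw [e]
    have h3 := abs_sub (ψ (z (i+1)) - ψ (z' (i+1))) (z i - z' i)
    have h4 := H1 (z (i+1)) (z' (i+1))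
    set d := |z (i+1) - z' (i+1)| with hd
    set x := |φ (z (i+1))| with hx
    set b := 2 ^ i * P i * |z 1 - z' 1| with hb
    have hx0 : 0 ≤ x := abs_nonneg _
    have hd0 : 0 ≤ d := abs_nonneg _
    have hb0 : 0 ≤ b := by
      have := hP0 i
      have := abs_nonneg (z 1 - z' 1)
      positivity
    have h5 : K * d ≤ x / 2 := by
      have : K * d ≤ K * b := by gcongr
      linarith
    have h6 : (x + K * d) * d ≤ (3 / 2 * x) * b := by
      calc (x + K * d) * d ≤ (x + x / 2) * b := by gcongr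
        _ = _ := by ring
    have h7 : |z i - z' i| ≤ 1 / 2 * (x * b) := by
      rcases Nat.eq_zero_or_pos i with h0 | h0
      · rw [if_pos h0] at h2
        have : 0 ≤ x * b := by positivity
        linarith
      · rw [if_neg (by omega)] at h2
        refine h2.trans ?_
        obtain ⟨i', rfl⟩ : ∃ i', i = i' + 1 := ⟨i - 1, by omega⟩
        rw [Nat.add_sub_cancel]
        have hp := hpair i' (by omega)
        rw [abs_mul] at hp
        have e2 : 1 / 2 * (x * b) = (|φ (z (i'+1))| * x) * (2 ^ i' * P i' * |z 1 - z' 1|) := by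
          rw [hb, hPs]; ring
        rw [e2]
        have h8 : 0 ≤ 2 ^ i' * P i' * |z 1 - z' 1| := by
          have := hP0 i'
          have := abs_nonneg (z 1 - z' 1)
          positivity
        have h9 : 1 ≤ |φ (z (i'+1))| * x := hκ.trans hp
        nlinarith
    rw [hPs]
    have e3 : 2 ^ (i+1) * (P i * x) * |z 1 - z' 1| = 2 * (x * b) := by rw [hb]; ring
    rw [e3]
    linarith
  intro i
  induction i using Nat.strong_induction_on with
  | _ i ih =>
    intro hi
    match i, ih, hi with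
    | 0, _, _ => simp [P]
    | 1, ih, _ =>
      have := step 0 (by omega) (ih 0 (by omega) (by omega)) (by simp [hz0])
      exact this
    | (i+2), ih, hi =>
      have h1 := ih (i+1) (by omega) (by omega)
      have h2 := ih i (by omega) (by omega)
      have := step (i+1) (by omega) h1 (by
        rw [if_neg (by omega), Nat.add_sub_cancel]; exact h2)
      exact this

end

end Pool.Agent.Helper78.SM
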