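import Mathlib
import Pool.Agent.Helper78.SM.Seq

set_option autoImplicit false
open Real

namespace Pool.Agent.Helper78.SM

section
variable {φ ψ : ℝ → ℝ} {K : ℝ} {z z' v v' η : ℕ → ℝ} {N : ℕ} {κ mder lo : ℝ}

/-- the main one-dimensional estimate: two parameters for which the same direction is contracted
for `N` steps are very close -/
lemma key_bound (hK : 0 ≤ K)
    (H1 : ∀ s s', |ψ s - ψ s'| ≤ (|φ s| + K * |s - s'|) * |s - s'|)
    (H2 : ∀ s s', |φ s - φ s'| ≤ K * |s - s'|)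
    (hz0 : z 0 = z' 0) (hz : ∀ i, z (i+2) = ψ (z (i+1)) - z i + η i)
    (hz' : ∀ i, z' (i+2) = ψ (z' (i+1)) - z' i + η i)
    (hv : ∀ i, v (i+2) = φ (z (i+1)) * v (i+1) - v i)
    (hv' : ∀ i, v' (i+2) = φ (z' (i+1)) * v' (i+1) - v' i)
    (hv0 : v 0 = v' 0) (hv1 : v 1 = v' 1) (hv1ne : v 1 ≠ 0)
    (hκ : 1 ≤ κ) (hpair : ∀ i, i + 1 < N → κ ≤ |φ (z (i+1)) * φ (z (i+2))|)
    (hcon : ∀ i, i < N → |φ (z (i+1))| * |v (i+1)| ≤ 2 * |v i|)
    (hcon' : ∀ i, i < N → |φ (z' (i+1))| * |v' (i+1)| ≤ 2 * |v' i|)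
    (hlo : 0 < lo) (hl : ∀ i, i < N → lo ≤ |φ (z (i+1))|)
    (hl' : ∀ i, i < N → lo ≤ |φ (z' (i+1))|)
    (hmder : 0 < mder) (Hm : mder * |z 1 - z' 1| ≤ |φ (z 1) - φ (z' 1)|)
    (HS : ∀ i, 1 ≤ i → i < N → 2 * 32 ^ i * K * |φ (z 1)| ≤
      mder * ((∏ l ∈ Finset.range i, |φ (z (l+2))|) * |φ (z (i+1))|))
    {m0 : ℕ}
    (HC : ∀ m, m0 ≤ m → m + 1 < N → 2 * 16 ^ (m+1) * K * |φ (z 1)| ≤
      mder * lo * (∏ l ∈ Finset.range (m+1), |φ (z (l+2))|))
    (hbase : ∀ i, i ≤ m0 → 2 * K * (2 ^ i * (∏ l ∈ Finset.range i, |φ (z (l+1))|) * |z 1 - z' 1|) ≤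
      |φ (z (i+1))|) :
    ∀ m, m0 ≤ m → m + 1 < N →
      |z 1 - z' 1| * (mder * lo * (∏ l ∈ Finset.range m, |φ (z (l+2))|) ^ 2) ≤ 8 ^ (m+1) := by
  set c := |z 1 - z' 1| with hc
  have hc0 : 0 ≤ c := abs_nonneg _
  set P : ℕ → ℝ := fun i => ∏ l ∈ Finset.range i, |φ (z (l+1))| with hP
  set Q : ℕ → ℝ := fun i => ∏ l ∈ Finset.range i, |φ (z (l+2))| with hQ
  have hPQ : ∀ i, P (i+1) = |φ (z 1)| * Q i := by
    intro i
    rw [hP, hQ]; simp only
    rw [Finset.prod_range_succ', mul_comm]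
  have hQs : ∀ i, Q (i+1) = Q i * |φ (z (i+2))| := fun i => Finset.prod_range_succ _ _
  have hQpos : ∀ i, i < N → 0 < Q i := by
    intro i hi
    apply Finset.prod_pos
    intro l hl1
    rw [Finset.mem_range] at hl1
    exact lt_of_lt_of_le hlo (hl (l+1) (by omega))
  have hP0 : ∀ i, 0 ≤ P i := fun i => Finset.prod_nonneg (fun _ _ => abs_nonneg _)
  have hv1pos : 0 < |v 1| := abs_pos.2 hv1ne
  -- first claim
  have claim1 : ∀ m, m + 1 < N → (∀ i, i ≤ m → 2 * K * (2 ^ i * P i * c) ≤ |φ (z (i+1))|) →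
      c * (mder * lo * Q m ^ 2) ≤ 8 ^ (m+1) := by
    intro m hm hC
    have hd := dist_bound (κ := κ) hK H1 hz0 hz hz' hκ (m := m)
      (fun i hi => hpair i (by omega)) hC
    have hff : ∀ i, i ≤ m → |φ (z (i+1)) - φ (z' (i+1))| ≤ K * (2 ^ i * P i * c) := by
      intro i hi
      refine (H2 _ _).trans ?_
      have := hd i (by omega)
      gcongr
    have hfhalf : ∀ i, i ≤ m → |φ (z (i+1))| ≤ 2 * |φ (z' (i+1))| := by
      intro i hi
      have h1 := hff i hi
      have h2 := hC i hi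
      have h3 := abs_sub_abs_le_abs_sub (φ (z (i+1))) (φ (z' (i+1)))
      linarith
    have hvb := prodbound (f := fun i => φ (z (i+1))) (v := v) (b := 2) (by norm_num) (m := m)
      (fun i _ hi => hcon i (by omega))
    have hvb' := prodbound (f := fun i => φ (z (i+1))) (v := v') (b := 4) (by norm_num) (m := m)
      (fun i _ hi => by
        have h1 := hfhalf i hi
        have h2 := hcon' i (by omega)
        have h3 := abs_nonneg (v' (i+1))
        nlinarith)
    have hQe : ∀ i, (∏ l ∈ Finset.range i, |(fun i => φ (z (i+1))) (l+1)|) = Q i := fun i => rfl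
    -- terms
    have hterm : ∀ i, 1 ≤ i → i ≤ m →
        |(φ (z (i+1)) - φ (z' (i+1))) * (v (i+1) * v' (i+1))| ≤
          mder * c * |v 1| ^ 2 * (1 / 2 * (1 / 2) ^ i) := by
      intro i hi1 him
      have hQi : 0 < Q i := hQpos i (by omega)
      have h1 := hvb i him
      have h2 := hvb' i him
      rw [hQe, ← hv1] at h2
      rw [hQe] at h1
      have h3 := hff i him
      have hS := HS i hi1 (by omega)
      have e1 : Q i ^ 2 * |(φ (z (i+1)) - φ (z' (i+1))) * (v (i+1) * v' (i+1))| =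
          |φ (z (i+1)) - φ (z' (i+1))| * ((Q i * |v (i+1)|) * (Q i * |v' (i+1)|)) := by
        rw [abs_mul, abs_mul]; ring
      have h4 : Q i ^ 2 * |(φ (z (i+1)) - φ (z' (i+1))) * (v (i+1) * v' (i+1))| ≤
          K * (2 ^ i * P i * c) * ((2 ^ i * |v 1|) * (4 ^ i * |v 1|)) := by
        rw [e1]
        have := hP0 i
        gcongr
      obtain ⟨i', rfl⟩ : ∃ i', i = i' + 1 := ⟨i - 1, by omega⟩
      rw [hPQ] at h4
      have e2 : K * (2 ^ (i'+1) * (|φ (z 1)| * Q i') * c) * ((2 ^ (i'+1) * |v 1|) *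
          (4 ^ (i'+1) * |v 1|)) =
          (2 * 32 ^ (i'+1) * K * |φ (z 1)|) * (Q i' * c * |v 1| ^ 2 * (1 / 2 * (1 / 2) ^ (i'+1))) := by
        have h32 : (32:ℝ) ^ (i'+1) = 2 ^ (i'+1) * 2 ^ (i'+1) * 4 ^ (i'+1) * 2 ^ (i'+1) := by
          rw [← mul_pow, ← mul_pow, ← mul_pow]; norm_num
        have h12 : (1 / 2 : ℝ) ^ (i'+1) * 2 ^ (i'+1) = 1 := by
          rw [← mul_pow]; norm_num
        rw [h32]
        linear_combination (-(K * 2 ^ (i'+1) * (|φ (z 1)| * Q i') * c * 2 ^ (i'+1) * |v 1| *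
          4 ^ (i'+1) * |v 1|)) * h12
      rw [e2] at h4
      have h5 : (2 * 32 ^ (i'+1) * K * |φ (z 1)|) * (Q i' * c * |v 1| ^ 2 *
          (1 / 2 * (1 / 2) ^ (i'+1))) ≤
          (mder * (Q (i'+1) * |φ (z (i'+1+1))|)) * (Q i' * c * |v 1| ^ 2 *
          (1 / 2 * (1 / 2) ^ (i'+1))) := by
        apply mul_le_mul_of_nonneg_right hS
        have : 0 < Q i' := hQpos i' (by omega)
        positivity
      have e3 : (mder * (Q (i'+1) * |φ (z (i'+1+1))|)) * (Q i' * c * |v 1| ^ 2 *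
          (1 / 2 * (1 / 2) ^ (i'+1))) =
          Q (i'+1) ^ 2 * (mder * c * |v 1| ^ 2 * (1 / 2 * (1 / 2) ^ (i'+1))) := by
        have : Q (i'+1) = Q i' * |φ (z (i'+1+1))| := hQs i'
        rw [sq (Q (i'+1))]
        nth_rewrite 3 [this]
        ring
      rw [e3] at h5
      exact le_of_mul_le_mul_left (h4.trans h5) (by positivity)
    have hW := cross_wronskian (f := fun i => φ (z (i+1))) (f' := fun i => φ (z' (i+1)))
      hv hv' hv0 hv1 (m+1)
    rw [Finset.sum_range_succ'] at hW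
    have hsum : |∑ i ∈ Finset.range m, ((fun i => φ (z (i+1))) (i+1) - (fun i => φ (z' (i+1))) (i+1)) *
        (v (i+1+1) * v' (i+1+1))| ≤ mder * c * |v 1| ^ 2 * (1 / 2) := by
      refine (Finset.abs_sum_le_sum_abs _ _).trans ?_
      have h1 : ∀ i ∈ Finset.range m, |((fun i => φ (z (i+1))) (i+1) - (fun i => φ (z' (i+1))) (i+1)) *
        (v (i+1+1) * v' (i+1+1))| ≤ mder * c * |v 1| ^ 2 * (1 / 2 * (1 / 2) ^ (i+1)) := by
        intro i hi
        rw [Finset.mem_range] at hi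
        exact hterm (i+1) (by omega) (by omega)
      refine (Finset.sum_le_sum h1).trans ?_
      rw [← Finset.mul_sum, ← Finset.mul_sum]
      have h2 : ∑ i ∈ Finset.range m, (1 / 2 : ℝ) ^ (i+1) ≤ 1 := by
        simp only [pow_succ]
        rw [← Finset.sum_mul]
        have h3 := geom_sum_eq (x := (1/2:ℝ)) (by norm_num) m
        rw [h3]
        have h4 : 0 ≤ (1/2:ℝ) ^ m := by positivity
        have h5 : ((1/2:ℝ) ^ m - 1) / (1/2 - 1) * (1/2) = 1 - (1/2:ℝ) ^ m := by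
          rw [show (1/2 - 1 : ℝ) = -(1/2) by norm_num]
          field_simp
          ring
        rw [h5]
        linarith
      have h3 : 0 ≤ mder * c * |v 1| ^ 2 := by positivity
      calc mder * c * |v 1| ^ 2 * (1 / 2 * ∑ i ∈ Finset.range m, (1 / 2 : ℝ) ^ (i+1))
          ≤ mder * c * |v 1| ^ 2 * (1 / 2 * 1) := by gcongr
        _ = _ := by ring
    have hWlow : mder * c * |v 1| ^ 2 * (1 / 2) ≤ |v (m+1+1) * v' (m+1) - v (m+1) * v' (m+1+1)| := by
      rw [hW]
      set S := ∑ i ∈ Finset.range m, ((fun i => φ (z (i+1))) (i+1) - (fun i => φ (z' (i+1))) (i+1)) *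
        (v (i+1+1) * v' (i+1+1)) with hS
      set T0 := ((fun i => φ (z (i+1))) 0 - (fun i => φ (z' (i+1))) 0) * (v (0+1) * v' (0+1)) with hT0
      have h1 : mder * c * |v 1| ^ 2 ≤ |T0| := by
        have : |T0| = |φ (z 1) - φ (z' 1)| * |v 1| ^ 2 := by
          rw [hT0]
          simp only [zero_add]
          rw [abs_mul, abs_mul, ← hv1, sq]
        rw [this]
        gcongr
      have h2 : |T0| - |S| ≤ |S + T0| := by
        have := abs_sub_abs_le_abs_sub T0 (-S)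
        rw [abs_neg, sub_neg_eq_add, add_comm T0 S] at this
        exact this
      linarith
    have hup : lo * Q m ^ 2 * |v (m+1+1) * v' (m+1) - v (m+1) * v' (m+1+1)| ≤
        4 * 8 ^ m * |v 1| ^ 2 := by
      have h1 := hcon (m+1) hm
      have h2 := hcon' (m+1) hm
      have h3 := hl (m+1) hm
      have h4 := hl' (m+1) hm
      have h5 : lo * |v (m+1+1)| ≤ 2 * |v (m+1)| := by
        refine le_trans ?_ h1
        gcongr
      have h6 : lo * |v' (m+1+1)| ≤ 2 * |v' (m+1)| := by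
        refine le_trans ?_ h2
        gcongr
      have h7 := hvb m le_rfl
      have h8 := hvb' m le_rfl
      rw [hQe] at h7 h8
      rw [← hv1] at h8
      have hQm : 0 < Q m := hQpos m (by omega)
      have h9 := abs_sub (v (m+1+1) * v' (m+1)) (v (m+1) * v' (m+1+1))
      rw [abs_mul, abs_mul] at h9
      have h10 : lo * |v (m+1+1) * v' (m+1) - v (m+1) * v' (m+1+1)| ≤
          4 * (|v (m+1)| * |v' (m+1)|) := by
        calc lo * |v (m+1+1) * v' (m+1) - v (m+1) * v' (m+1+1)|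
            ≤ lo * (|v (m+1+1)| * |v' (m+1)| + |v (m+1)| * |v' (m+1+1)|) := by gcongr
          _ = (lo * |v (m+1+1)|) * |v' (m+1)| + |v (m+1)| * (lo * |v' (m+1+1)|) := by ring
          _ ≤ (2 * |v (m+1)|) * |v' (m+1)| + |v (m+1)| * (2 * |v' (m+1)|) := by gcongr
          _ = _ := by ring
      calc lo * Q m ^ 2 * |v (m+1+1) * v' (m+1) - v (m+1) * v' (m+1+1)|
          = Q m ^ 2 * (lo * |v (m+1+1) * v' (m+1) - v (m+1) * v' (m+1+1)|) := by ring
        _ ≤ Q m ^ 2 * (4 * (|v (m+1)| * |v' (m+1)|)) := by gcongr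
        _ = 4 * ((Q m * |v (m+1)|) * (Q m * |v' (m+1)|)) := by ring
        _ ≤ 4 * ((2 ^ m * |v 1|) * (4 ^ m * |v 1|)) := by gcongr
        _ = 4 * (2 ^ m * 4 ^ m) * |v 1| ^ 2 := by ring
        _ = 4 * 8 ^ m * |v 1| ^ 2 := by rw [← mul_pow]; norm_num
    have hQm : 0 < Q m := hQpos m (by omega)
    have hfin : |v 1| ^ 2 * (c * (mder * lo * Q m ^ 2)) ≤ |v 1| ^ 2 * 8 ^ (m+1) := by
      have h1 : lo * Q m ^ 2 * (mder * c * |v 1| ^ 2 * (1 / 2)) ≤ 4 * 8 ^ m * |v 1| ^ 2 := by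
        refine le_trans ?_ hup
        gcongr
      rw [pow_succ (8:ℝ) m]
      nlinarith
    exact le_of_mul_le_mul_left hfin (by positivity)
  -- closeness for all m
  have hCall : ∀ m, m0 ≤ m → m < N → ∀ i, i ≤ m → 2 * K * (2 ^ i * P i * c) ≤ |φ (z (i+1))| := by
    intro m hm
    induction m, hm using Nat.le_induction with
    | base => intro _; exact hbase
    | succ m hm ih =>
      intro hmN i hi
      have ihm := ih (by omega)
      rcases Nat.lt_or_ge m i with hlt | hge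
      · have him : i = m + 1 := by omega
        subst him
        have h1 := claim1 m hmN ihm
        have h2 := HC m hm hmN
        have hQm : 0 < Q m := hQpos m (by omega)
        have hpos : 0 < mder * lo * Q m := by positivity
        rw [hPQ]
        apply le_of_mul_le_mul_left _ hpos
        calc mder * lo * Q m * (2 * K * (2 ^ (m+1) * (|φ (z 1)| * Q m) * c))
            = (2 * K * 2 ^ (m+1) * |φ (z 1)|) * (c * (mder * lo * Q m ^ 2)) := by ring
          _ ≤ (2 * K * 2 ^ (m+1) * |φ (z 1)|) * 8 ^ (m+1) := by gcongr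
          _ = 2 * (2 ^ (m+1) * 8 ^ (m+1)) * K * |φ (z 1)| := by ring
          _ = 2 * 16 ^ (m+1) * K * |φ (z 1)| := by rw [← mul_pow]; norm_num
          _ ≤ mder * lo * Q (m+1) := h2
          _ = mder * lo * Q m * |φ (z (m+1+1))| := by rw [hQs]; ring
      · exact ihm i hge
  intro m hm hmN
  exact claim1 m hmN (hCall m hm (by omega))

end

end Pool.Agent.Helper78.SM
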