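import Mathlib
import Pool.Agent.Helper78.SM.Key

set_option autoImplicit false
open Real

namespace Pool.Agent.Helper78.SM

lemma chain {g : ℕ → ℝ} {lo : ℝ} {M : ℕ} (hlo1 : lo ≤ 1)
    (hl : ∀ l, l < M → 64 * lo ≤ |g l|) (hp : ∀ l, l + 1 < M → 4096 ≤ |g l * g (l+1)|) :
    ∀ j, j ≤ M → lo * 64 ^ j ≤ ∏ l ∈ Finset.range j, |g l| := by
  intro j
  induction j using Nat.strong_induction_on with
  | _ j ih =>
    intro hj
    match j, ih, hj with
    | 0, _, _ => simpa using hlo1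
    | 1, _, hj => simpa [mul_comm] using hl 0 (by omega)
    | (j+2), ih, hj =>
      have h1 := ih j (by omega) (by omega)
      have h2 := hp j (by omega)
      rw [abs_mul] at h2
      rw [Finset.prod_range_succ, Finset.prod_range_succ]
      calc lo * 64 ^ (j+2) = (lo * 64 ^ j) * 4096 := by ring
        _ ≤ (∏ l ∈ Finset.range j, |g l|) * (|g j| * |g (j+1)|) := by
            apply mul_le_mul h1 h2 (by norm_num)
            exact Finset.prod_nonneg (fun _ _ => abs_nonneg _)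
        _ = _ := by ring

section
variable {f : ℕ → ℝ} {b : ℝ} {N : ℕ}

lemma typ_lo (hb : 100 ≤ b) (hN : 2 ≤ N) (hup : ∀ i, |f i| ≤ 9 * b ^ 10)
    (t1 : ∀ i, i + 1 < N → 4096 ≤ |f i * f (i+1)|) : ∀ i, i < N → 400 / b ^ 10 ≤ |f i| := by
  intro i hi
  have hb0 : 0 < b := by linarith
  rw [div_le_iff₀ (by positivity)]
  rcases Nat.lt_or_ge (i+1) N with h | h
  · have h1 := t1 i h
    rw [abs_mul] at h1
    have h2 := hup (i+1)
    have h3 : |f i| * |f (i+1)| ≤ |f i| * (9 * b ^ 10) := by gcongr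
    linarith
  · have h1 := t1 (i-1) (by omega)
    rw [abs_mul, show i - 1 + 1 = i by omega] at h1
    have h2 := hup (i-1)
    have h3 : |f (i-1)| * |f i| ≤ (9 * b ^ 10) * |f i| := by gcongr
    linarith

/-- lower bound for the product `Q i` for `i ≤ 8` -/
lemma typ_Q_small (hb : 100 ≤ b) (t2 : ∀ i, i ≤ 8 → b ^ 9 ≤ |f i|) {i : ℕ} (hi : i ≤ 8) :
    b ^ (9 * i) ≤ ∏ l ∈ Finset.range i, |f (l+1)| := by
  have hb0 : 0 < b := by linarith
  induction i with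
  | zero => simp
  | succ i ih =>
    rw [Finset.prod_range_succ, show 9 * (i+1) = 9 * i + 9 by ring, pow_add]
    have := ih (by omega)
    have h2 := t2 (i+1) hi
    gcongr

/-- lower bound for `Q i` for `i ≥ 8` -/
lemma typ_Q_large (hb : 100 ≤ b) (hN : 12 ≤ N) (hup : ∀ i, |f i| ≤ 9 * b ^ 10)
    (t1 : ∀ i, i + 1 < N → 4096 ≤ |f i * f (i+1)|) (t2 : ∀ i, i ≤ 8 → b ^ 9 ≤ |f i|) {j : ℕ}
    (hj : 8 + j < N) :
    b ^ 62 * 64 ^ j ≤ ∏ l ∈ Finset.range (8 + j), |f (l+1)| := by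
  have hb0 : 0 < b := by linarith
  rw [Finset.prod_range_add]
  have h1 := typ_Q_small hb t2 (le_refl 8)
  have hlo := typ_lo hb (by omega) hup t1
  have hb10 : (100:ℝ) ^ 10 ≤ b ^ 10 := pow_le_pow_left₀ (by norm_num) hb 10
  have h2 := chain (g := fun x => f (8 + x + 1)) (lo := 1 / b ^ 10) (M := N - 9)
    (by rw [div_le_one (by positivity)]; linarith)
    (fun l hl => by
      refine le_trans ?_ (hlo (8 + l + 1) (by omega))
      rw [mul_one_div]; gcongr; norm_num)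
    (fun l hl => by
      have := t1 (8 + l + 1) (by omega)
      exact this) j (by omega)
  calc b ^ 62 * 64 ^ j = b ^ (9 * 8) * (1 / b ^ 10 * 64 ^ j) := by field_simp
    _ ≤ _ := by
      apply mul_le_mul h1 h2 (by positivity)
      exact Finset.prod_nonneg (fun _ _ => abs_nonneg _)

lemma typ_HS (hb : 100 ≤ b) (hN : 12 ≤ N) (hup : ∀ i, |f i| ≤ 9 * b ^ 10)
    (t1 : ∀ i, i + 1 < N → 4096 ≤ |f i * f (i+1)|) (t2 : ∀ i, i ≤ 8 → b ^ 9 ≤ |f i|) :
    ∀ i, 1 ≤ i → i < N → 2 * 32 ^ i * (40 * b ^ 10) * |f 0| ≤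
      b ^ 9 * ((∏ l ∈ Finset.range i, |f (l+1)|) * |f i|) := by
  intro i hi1 hiN
  have hb0 : 0 < b := by linarith
  have hf0 := hup 0
  have hL : 2 * 32 ^ i * (40 * b ^ 10) * |f 0| ≤ 720 * 32 ^ i * b ^ 20 := by
    calc 2 * 32 ^ i * (40 * b ^ 10) * |f 0| ≤ 2 * 32 ^ i * (40 * b ^ 10) * (9 * b ^ 10) := by gcongr
      _ = _ := by ring
  refine hL.trans ?_
  rcases Nat.lt_or_ge i 9 with h | h
  · have h1 := typ_Q_small hb t2 (show i ≤ 8 by omega)
    have h2 := t2 i (by omega)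
    have hb7 : (100:ℝ) ^ 7 ≤ b ^ 7 := pow_le_pow_left₀ (by norm_num) hb 7
    have h3 : (32:ℝ) ^ (i - 1) ≤ (b ^ 9) ^ (i - 1) := by
      apply pow_le_pow_left₀ (by norm_num)
      have : (100:ℝ) ^ 9 ≤ b ^ 9 := pow_le_pow_left₀ (by norm_num) hb 9
      linarith
    obtain ⟨i', rfl⟩ : ∃ i', i = i' + 1 := ⟨i - 1, by omega⟩
    rw [Nat.add_sub_cancel] at h3
    calc 720 * 32 ^ (i'+1) * b ^ 20 = b ^ 20 * 23040 * 32 ^ i' := by ring
      _ ≤ b ^ 20 * b ^ 7 * (b ^ 9) ^ i' := by gcongr; linarith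
      _ = b ^ 9 * (b ^ (9 * (i'+1)) * b ^ 9) := by rw [← pow_mul]; ring
      _ ≤ _ := by gcongr
  · obtain ⟨j, rfl⟩ : ∃ j, i = 8 + j := ⟨i - 8, by omega⟩
    have h1 := typ_Q_large hb hN hup t1 t2 hiN
    have h2 := typ_lo hb (by omega) hup t1 (8 + j) hiN
    have hb41 : (100:ℝ) ^ 41 ≤ b ^ 41 := pow_le_pow_left₀ (by norm_num) hb 41
    have h3 : (32:ℝ) ^ j ≤ 64 ^ j := pow_le_pow_left₀ (by norm_num) (by norm_num) j
    calc 720 * 32 ^ (8 + j) * b ^ 20 = b ^ 20 * (720 * 32 ^ 8) * 32 ^ j := by rw [pow_add]; ring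
      _ ≤ b ^ 20 * b ^ 41 * 64 ^ j := by
          gcongr
          refine le_trans ?_ hb41
          norm_num
      _ = b ^ 61 * 64 ^ j * 1 := by ring
      _ ≤ b ^ 61 * 64 ^ j * 400 := by gcongr; norm_num
      _ = b ^ 9 * (b ^ 62 * 64 ^ j * (400 / b ^ 10)) := by field_simp
      _ ≤ _ := by gcongr

lemma typ_HC (hb : 100 ≤ b) (hN : 12 ≤ N) (hup : ∀ i, |f i| ≤ 9 * b ^ 10)
    (t1 : ∀ i, i + 1 < N → 4096 ≤ |f i * f (i+1)|) (t2 : ∀ i, i ≤ 8 → b ^ 9 ≤ |f i|) :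
    ∀ m, 3 ≤ m → m + 1 < N → 2 * 16 ^ (m+1) * (40 * b ^ 10) * |f 0| ≤
      b ^ 9 * (400 / b ^ 10) * (∏ l ∈ Finset.range (m+1), |f (l+1)|) := by
  intro m hm hmN
  have hb0 : 0 < b := by linarith
  have hf0 := hup 0
  have hL : 2 * 16 ^ (m+1) * (40 * b ^ 10) * |f 0| ≤ 720 * 16 ^ (m+1) * b ^ 20 := by
    calc 2 * 16 ^ (m+1) * (40 * b ^ 10) * |f 0| ≤ 2 * 16 ^ (m+1) * (40 * b ^ 10) * (9 * b ^ 10) := by
          gcongr
      _ = _ := by ring
  refine hL.trans ?_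
  have hR : b ^ 9 * (400 / b ^ 10) = 400 / b := by field_simp
  rw [hR]
  have hmain : 2 * 16 ^ (m+1) * b ^ 21 ≤ ∏ l ∈ Finset.range (m+1), |f (l+1)| := by
    rcases Nat.lt_or_ge m 8 with h | h
    · have h1 := typ_Q_small hb t2 (show m + 1 ≤ 8 by omega)
      refine le_trans ?_ h1
      obtain ⟨j, rfl⟩ : ∃ j, m = 3 + j := ⟨m - 3, by omega⟩
      have hb15 : (100:ℝ) ^ 15 ≤ b ^ 15 := pow_le_pow_left₀ (by norm_num) hb 15
      have h3 : (16:ℝ) ^ j ≤ (b ^ 9) ^ j := by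
        apply pow_le_pow_left₀ (by norm_num)
        have : (100:ℝ) ^ 9 ≤ b ^ 9 := pow_le_pow_left₀ (by norm_num) hb 9
        linarith
      calc 2 * 16 ^ (3 + j + 1) * b ^ 21 = b ^ 21 * (2 * 16 ^ 4) * 16 ^ j := by ring
        _ ≤ b ^ 21 * b ^ 15 * (b ^ 9) ^ j := by
            gcongr
            refine le_trans ?_ hb15
            norm_num
        _ = b ^ (9 * (3 + j + 1)) := by rw [← pow_mul, ← pow_add, ← pow_add]; ring_nf
    · obtain ⟨j, hj⟩ : ∃ j, m + 1 = 8 + j := ⟨m - 7, by omega⟩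
      rw [hj]
      have h1 := typ_Q_large hb hN hup t1 t2 (show 8 + j < N by omega)
      refine le_trans ?_ h1
      have hb41 : (100:ℝ) ^ 41 ≤ b ^ 41 := pow_le_pow_left₀ (by norm_num) hb 41
      have h3 : (16:ℝ) ^ j ≤ 64 ^ j := pow_le_pow_left₀ (by norm_num) (by norm_num) j
      calc 2 * 16 ^ (8 + j) * b ^ 21 = b ^ 21 * (2 * 16 ^ 8) * 16 ^ j := by rw [pow_add]; ring
        _ ≤ b ^ 21 * b ^ 41 * 64 ^ j := by
            gcongr
            refine le_trans ?_ hb41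
            norm_num
        _ = _ := by ring
  rw [div_mul_eq_mul_div, le_div_iff₀ hb0]
  calc 720 * 16 ^ (m+1) * b ^ 20 * b = 360 * (2 * 16 ^ (m+1) * b ^ 21) := by ring
    _ ≤ 400 * (2 * 16 ^ (m+1) * b ^ 21) := by gcongr; norm_num
    _ ≤ _ := by gcongr

/-- lower bound for the total product from the count of small factors -/
lemma typ_P (hb : 100 ≤ b) (hN : 2 ≤ N) (hup : ∀ i, |f i| ≤ 9 * b ^ 10)
    (t1 : ∀ i, i + 1 < N → 4096 ≤ |f i * f (i+1)|)
    (t5 : 10 * ((Finset.range N).filter (fun i => |f i| < b ^ 5)).card ≤ N) :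
    b ^ (7 * N) ≤ (∏ l ∈ Finset.range N, |f l|) ^ 2 := by
  have hb0 : 0 < b := by linarith
  have hb1 : 1 ≤ b := by linarith
  set s := ((Finset.range N).filter (fun i => |f i| < b ^ 5)).card with hs
  have hlo := typ_lo hb hN hup t1
  -- P * b^(10 s) * b^(5 s) ≥ b^(5 N)
  have h1 : b ^ (5 * N) ≤ (∏ l ∈ Finset.range N, |f l|) * b ^ (15 * s) := by
    have h2 : ∀ l ∈ Finset.range N, b ^ 5 ≤ |f l| * (if |f l| < b ^ 5 then b ^ 15 else 1) := by
      intro l hl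
      rw [Finset.mem_range] at hl
      split_ifs with h
      · have h3 := hlo l hl
        rw [div_le_iff₀ (by positivity)] at h3
        calc b ^ 5 = 1 * b ^ 5 := (one_mul _).symm
          _ ≤ (|f l| * b ^ 10) * b ^ 5 := by
              gcongr; linarith
          _ = |f l| * b ^ 15 := by ring
      · push Not at h
        linarith
    have h3 := Finset.prod_le_prod (s := Finset.range N) (f := fun _ => b ^ 5)
      (g := fun l => |f l| * (if |f l| < b ^ 5 then b ^ 15 else 1)) (fun _ _ => by positivity) h2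
    rw [Finset.prod_const, Finset.card_range, Finset.prod_mul_distrib, Finset.prod_ite,
      Finset.prod_const, Finset.prod_const_one, mul_one] at h3
    rw [pow_mul, pow_mul]
    exact h3
  have hP0 : 0 ≤ ∏ l ∈ Finset.range N, |f l| := Finset.prod_nonneg (fun _ _ => abs_nonneg _)
  have h2 : b ^ (10 * N) ≤ (∏ l ∈ Finset.range N, |f l|) ^ 2 * b ^ (3 * N) := by
    calc b ^ (10 * N) = (b ^ (5 * N)) ^ 2 := by rw [← pow_mul]; ring_nf
      _ ≤ ((∏ l ∈ Finset.range N, |f l|) * b ^ (15 * s)) ^ 2 := by gcongr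
      _ = (∏ l ∈ Finset.range N, |f l|) ^ 2 * b ^ (30 * s) := by rw [mul_pow, ← pow_mul]; ring_nf
      _ ≤ (∏ l ∈ Finset.range N, |f l|) ^ 2 * b ^ (3 * N) := by
          have h9 : b ^ (30 * s) ≤ b ^ (3 * N) := pow_le_pow_right₀ hb1 (by omega)
          gcongr
  rw [show 10 * N = 7 * N + 3 * N by ring, pow_add] at h2
  exact le_of_mul_le_mul_right h2 (by positivity)

lemma typ_Q_fin (hb : 100 ≤ b) (hN : 12 ≤ N) (hup : ∀ i, |f i| ≤ 9 * b ^ 10)
    (t1 : ∀ i, i + 1 < N → 4096 ≤ |f i * f (i+1)|)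
    (t5 : 10 * ((Finset.range N).filter (fun i => |f i| < b ^ 5)).card ≤ N) :
    b ^ (7 * N) ≤ (∏ l ∈ Finset.range (N-2), |f (l+1)|) ^ 2 * (81 * b ^ 20) ^ 2 := by
  have h1 := typ_P hb (by omega) hup t1 t5
  have hb0 : 0 < b := by linarith
  have h2 : (∏ l ∈ Finset.range N, |f l|) =
      |f 0| * ((∏ l ∈ Finset.range (N-2), |f (l+1)|) * |f (N-1)|) := by
    obtain ⟨M, rfl⟩ : ∃ M, N = M + 2 := ⟨N - 2, by omega⟩
    rw [show M + 2 = (M + 1) + 1 by ring, Finset.prod_range_succ', Finset.prod_range_succ]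
    rw [show M + 1 + 1 - 2 = M by omega, show M + 1 + 1 - 1 = M + 1 by omega]
    ring
  rw [h2] at h1
  have hQ0 : 0 ≤ ∏ l ∈ Finset.range (N-2), |f (l+1)| := Finset.prod_nonneg (fun _ _ => abs_nonneg _)
  have h3 : |f 0| * ((∏ l ∈ Finset.range (N-2), |f (l+1)|) * |f (N-1)|) ≤
      (∏ l ∈ Finset.range (N-2), |f (l+1)|) * (81 * b ^ 20) := by
    have h4 := hup 0
    have h5 := hup (N-1)
    calc |f 0| * ((∏ l ∈ Finset.range (N-2), |f (l+1)|) * |f (N-1)|)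
        ≤ (9 * b ^ 10) * ((∏ l ∈ Finset.range (N-2), |f (l+1)|) * (9 * b ^ 10)) := by gcongr
      _ = _ := by ring
  refine h1.trans ?_
  rw [← mul_pow]
  gcongr

end

end Pool.Agent.Helper78.SM
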