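import Mathlib
import Pool.Agent.Helper78.SM.Num
import Pool.Agent.Helper78.SM.Deriv

set_option autoImplicit false
open Real MeasureTheory Set
open scoped ENNReal

namespace Pool.Agent.Helper78.SM

noncomputable def psi (a x : ℝ) : ℝ := 2 * x + a * Real.sin (2 * π * x)

noncomputable def dphi (a x : ℝ) : ℝ := -(4 * π ^ 2 * a * Real.sin (2 * π * x))

lemma hasDerivAt_psi (a x : ℝ) : HasDerivAt (psi a) (phi a x) x := by
  unfold psi phi
  have h1 : HasDerivAt (fun x : ℝ => 2 * π * x) (2 * π) x := by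
    simpa using (hasDerivAt_id x).const_mul (2 * π)
  have h3 : HasDerivAt (fun x : ℝ => 2 * x + a * Real.sin (2 * π * x))
      (2 * 1 + a * (Real.cos (2 * π * x) * (2 * π))) x :=
    ((hasDerivAt_id x).const_mul 2).add ((h1.sin).const_mul a)
  refine h3.congr_deriv ?_
  ring

lemma hasDerivAt_phi (a x : ℝ) : HasDerivAt (phi a) (dphi a x) x := by
  unfold phi dphi
  have h1 : HasDerivAt (fun x : ℝ => 2 * π * x) (2 * π) x := by
    simpa using (hasDerivAt_id x).const_mul (2 * π)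
  have h2 : HasDerivAt (fun x : ℝ => 2 + 2 * π * a * Real.cos (2 * π * x))
      (2 * π * a * (-Real.sin (2 * π * x) * (2 * π))) x :=
    ((h1.cos).const_mul (2 * π * a)).const_add 2
  refine h2.congr_deriv ?_
  ring

lemma hasDerivAt_dphi (a x : ℝ) :
    HasDerivAt (dphi a) (-(8 * π ^ 3 * a * Real.cos (2 * π * x))) x := by
  unfold dphi
  have h1 : HasDerivAt (fun x : ℝ => 2 * π * x) (2 * π) x := by
    simpa using (hasDerivAt_id x).const_mul (2 * π)
  have h2 : HasDerivAt (fun x : ℝ => -(4 * π ^ 2 * a * Real.sin (2 * π * x)))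
      (-(4 * π ^ 2 * a * (Real.cos (2 * π * x) * (2 * π)))) x :=
    ((h1.sin).const_mul (4 * π ^ 2 * a)).neg
  refine h2.congr_deriv ?_
  ring

lemma abs_dphi_le (a x : ℝ) : |dphi a x| ≤ 40 * |a| := by
  unfold dphi
  rw [abs_neg, abs_mul, abs_mul, abs_of_pos (by positivity : (0:ℝ) < 4 * π ^ 2)]
  have h1 := Real.abs_sin_le_one (2 * π * x)
  have h2 : π ^ 2 < 10 := by have := Real.pi_lt_d2; nlinarith [Real.pi_pos]
  calc 4 * π ^ 2 * |a| * |Real.sin (2 * π * x)| ≤ 4 * 10 * |a| * 1 := by gcongr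
    _ = _ := by ring

lemma H2 (a : ℝ) (s s' : ℝ) : |phi a s - phi a s'| ≤ 40 * |a| * |s - s'| := by
  have := Convex.norm_image_sub_le_of_norm_hasDerivWithin_le (f := phi a) (f' := dphi a)
    (C := 40 * |a|) (s := univ) (x := s') (y := s)
    (fun x _ => (hasDerivAt_phi a x).hasDerivWithinAt)
    (fun x _ => by rw [Real.norm_eq_abs]; exact abs_dphi_le a x) convex_univ (mem_univ _)
    (mem_univ _)
  rw [Real.norm_eq_abs, Real.norm_eq_abs] at this
  exact this

lemma dphi_lip (a : ℝ) (s s' : ℝ) : |dphi a s - dphi a s'| ≤ 250 * |a| * |s - s'| := by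
  have h3 : π ^ 3 < 31.25 := by
    have h1 := Real.pi_lt_d4
    have h2 : π ^ 2 < 9.8699 := by nlinarith [Real.pi_pos]
    have h0 := Real.pi_pos
    calc π ^ 3 = π ^ 2 * π := by ring
      _ < 9.8699 * 3.1416 := by gcongr
      _ < 31.25 := by norm_num
  have := Convex.norm_image_sub_le_of_norm_hasDerivWithin_le (f := dphi a)
    (f' := fun x => -(8 * π ^ 3 * a * Real.cos (2 * π * x)))
    (C := 250 * |a|) (s := univ) (x := s') (y := s)
    (fun x _ => (hasDerivAt_dphi a x).hasDerivWithinAt)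
    (fun x _ => by
      rw [Real.norm_eq_abs, abs_neg, abs_mul, abs_mul, abs_of_pos (by positivity : (0:ℝ) < 8 * π ^ 3)]
      have h1 := Real.abs_cos_le_one (2 * π * x)
      calc 8 * π ^ 3 * |a| * |Real.cos (2 * π * x)| ≤ 8 * 31.25 * |a| * 1 := by gcongr
        _ = _ := by ring) convex_univ (mem_univ _)
    (mem_univ _)
  rw [Real.norm_eq_abs, Real.norm_eq_abs] at this
  exact this

lemma H1 (a : ℝ) (s s' : ℝ) :
    |psi a s - psi a s'| ≤ (|phi a s| + 40 * |a| * |s - s'|) * |s - s'| := by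
  have := Convex.norm_image_sub_le_of_norm_hasDerivWithin_le (f := psi a) (f' := phi a)
    (C := |phi a s| + 40 * |a| * |s - s'|) (s := uIcc s' s) (x := s') (y := s)
    (fun x _ => (hasDerivAt_psi a x).hasDerivWithinAt)
    (fun x hx => by
      rw [Real.norm_eq_abs]
      have h1 := H2 a x s
      have h2 := abs_sub_abs_le_abs_sub (phi a x) (phi a s)
      have h3 : |x - s| ≤ |s - s'| := by
        rw [uIcc_comm] at hx
        have := abs_sub_left_of_mem_uIcc hx
        rw [abs_sub_comm x s, abs_sub_comm s s'] 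
        rw [abs_sub_comm x s] at this
        exact this
      have h4 : 40 * |a| * |x - s| ≤ 40 * |a| * |s - s'| := by gcongr
      linarith) (convex_uIcc _ _) left_mem_uIcc right_mem_uIcc
  rw [Real.norm_eq_abs, Real.norm_eq_abs] at this
  exact this

lemma Hm {a m : ℝ} {s s' : ℝ} (h1 : 2 * m ≤ |dphi a s|) (h2 : 250 * |a| * |s - s'| ≤ m) :
    m * |s - s'| ≤ |phi a s - phi a s'| := by
  rcases eq_or_ne s s' with rfl | hne
  · simp
  -- mean value theorem
  obtain ⟨ζ, hζ, hζ2⟩ : ∃ ζ ∈ uIcc s' s, phi a s - phi a s' = dphi a ζ * (s - s') := by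
    rcases lt_or_gt_of_ne hne with h | h
    · obtain ⟨ζ, hζ, hζ2⟩ := exists_hasDerivAt_eq_slope (phi a) (dphi a) h
        (fun x _ => (hasDerivAt_phi a x).continuousAt.continuousWithinAt)
        (fun x _ => hasDerivAt_phi a x)
      refine ⟨ζ, ?_, ?_⟩
      · rw [uIcc_of_ge h.le]; exact Ioo_subset_Icc_self hζ
      · rw [hζ2]
        have : s' - s ≠ 0 := sub_ne_zero.2 h.ne'
        field_simp
        ring
    · obtain ⟨ζ, hζ, hζ2⟩ := exists_hasDerivAt_eq_slope (phi a) (dphi a) h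
        (fun x _ => (hasDerivAt_phi a x).continuousAt.continuousWithinAt)
        (fun x _ => hasDerivAt_phi a x)
      refine ⟨ζ, ?_, ?_⟩
      · rw [uIcc_of_le h.le]; exact Ioo_subset_Icc_self hζ
      · rw [hζ2]
        have : s - s' ≠ 0 := sub_ne_zero.2 h.ne'
        field_simp
  rw [hζ2, abs_mul]
  have h3 := dphi_lip a s ζ
  have h4 : |s - ζ| ≤ |s - s'| := by
    rw [uIcc_comm] at hζ
    have := abs_sub_left_of_mem_uIcc hζ
    rw [abs_sub_comm s ζ, abs_sub_comm s s']
    exact this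
  have h5 : 250 * |a| * |s - ζ| ≤ 250 * |a| * |s - s'| := by gcongr
  have h6 := abs_sub_abs_le_abs_sub (dphi a s) (dphi a ζ)
  have h7 : m ≤ |dphi a ζ| := by linarith
  gcongr

lemma abs_phi_le {a : ℝ} (ha : 1 ≤ |a|) (x : ℝ) : |phi a x| ≤ 9 * |a| := by
  unfold phi
  have h1 := Real.abs_cos_le_one (2 * π * x)
  have hpi := Real.pi_lt_d2
  have hpi0 := Real.pi_pos
  calc |2 + 2 * π * a * Real.cos (2 * π * x)| ≤ |2| + |2 * π * a * Real.cos (2 * π * x)| :=
        abs_add_le _ _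
    _ = 2 + 2 * π * |a| * |Real.cos (2 * π * x)| := by
        rw [abs_mul, abs_mul, abs_of_pos (by positivity : (0:ℝ) < 2 * π), abs_two]
    _ ≤ 2 + 2 * π * |a| * 1 := by gcongr
    _ ≤ 9 * |a| := by nlinarith

/-- typical orbit segments (`f i` are the derivative coefficients, `s0` the second derivative) -/
structure Typ (b : ℝ) (N : ℕ) (f : ℕ → ℝ) (s0 : ℝ) : Prop where
  t1 : ∀ i, i + 1 < N → 4096 ≤ |f i * f (i+1)|
  t2 : ∀ i, i ≤ 8 → b ^ 9 ≤ |f i|
  t3 : 2 * b ^ 9 ≤ |s0|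
  t4 : 2 ≤ |f (N-1)|
  t5 : 10 * ((Finset.range N).filter (fun i => |f i| < b ^ 5)).card ≤ N

/-- two typical parameters at which the same direction is contracted are very close -/
lemma slice_close {a b : ℝ} (hb : 100 ≤ b) (hab : |a| = b ^ 10) {N : ℕ} (hN : 12 ≤ N)
    {z z' v v' η : ℕ → ℝ} (hz0 : z 0 = z' 0)
    (hz : ∀ i, z (i+2) = psi a (z (i+1)) - z i + η i)
    (hz' : ∀ i, z' (i+2) = psi a (z' (i+1)) - z' i + η i)
    (hv : ∀ i, v (i+2) = phi a (z (i+1)) * v (i+1) - v i)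
    (hv' : ∀ i, v' (i+2) = phi a (z' (i+1)) * v' (i+1) - v' i)
    (hv0 : v 0 = v' 0) (hv1 : v 1 = v' 1) (hvne : ¬ (v 0 = 0 ∧ v 1 = 0))
    (ht : Typ b N (fun i => phi a (z (i+1))) (dphi a (z 1)))
    (ht' : Typ b N (fun i => phi a (z' (i+1))) (dphi a (z' 1)))
    (hbad : |v (N+1)| ≤ |v N|) (hbad' : |v' (N+1)| ≤ |v' N|)
    (hclose : |z 1 - z' 1| * b ^ 80 ≤ 1) : |z 1 - z' 1| * b ^ (6 * N) ≤ b ^ 42 := by
  have hb0 : 0 < b := by linarith
  have hb1 : 1 ≤ b := by linarith
  have ha1 : 1 ≤ |a| := by rw [hab]; exact one_le_pow₀ hb1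
  have hup : ∀ x, |phi a x| ≤ 9 * b ^ 10 := by
    intro x; have := abs_phi_le ha1 x; rwa [hab] at this
  have hlo := typ_lo (f := fun i => phi a (z (i+1))) hb (by omega) (fun i => hup _) ht.t1
  have hlo' := typ_lo (f := fun i => phi a (z' (i+1))) hb (by omega) (fun i => hup _) ht'.t1
  have hcon := contract (f := fun i => phi a (z (i+1))) (κ := 4096) (by norm_num) (N := N) hv ht.t1
    ht.t4 hbad
  have hcon' := contract (f := fun i => phi a (z' (i+1))) (κ := 4096) (by norm_num) (N := N) hv'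
    ht'.t1 ht'.t4 hbad'
  have hlpos : (0:ℝ) < 400 / b ^ 10 := by positivity
  have hv1ne : v 1 ≠ 0 := by
    intro h1
    apply hvne
    refine ⟨?_, h1⟩
    have h2 := hcon 1 (by omega)
    have h3 := hlo 1 (by omega)
    rw [h1, abs_zero, mul_zero] at h2
    have h4 : |v (1+1)| = 0 := by
      have h5 := abs_nonneg (v (1+1))
      rcases h5.eq_or_lt with h6 | h6
      · exact h6.symm
      · have : 0 < |phi a (z (1+1))| * |v (1+1)| := mul_pos (lt_of_lt_of_le hlpos h3) h6
        linarith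
    have h6 : v (0+2) = 0 := abs_eq_zero.1 h4
    rw [hv 0, h1, mul_zero, zero_sub, neg_eq_zero] at h6
    exact h6
  set c := |z 1 - z' 1| with hc
  have hc0 : 0 ≤ c := abs_nonneg _
  have hcl : c ≤ 1 / b ^ 80 := by rw [le_div_iff₀ (by positivity)]; exact hclose
  have hpow : ∀ n : ℕ, (100:ℝ) ^ n ≤ b ^ n := fun n => pow_le_pow_left₀ (by norm_num) hb n
  have hHm : b ^ 9 * c ≤ |phi a (z 1) - phi a (z' 1)| := by
    apply Hm ht.t3
    rw [hab]
    calc 250 * b ^ 10 * c ≤ 250 * b ^ 10 * (1 / b ^ 80) := by gcongr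
      _ = 250 / b ^ 70 := by field_simp
      _ ≤ b ^ 9 := by
          rw [div_le_iff₀ (by positivity), ← pow_add]
          have h79 := hpow 79
          refine le_trans ?_ h79
          norm_num
  have hfi := key_bound (φ := phi a) (ψ := psi a) (K := 40 * b ^ 10) (N := N) (κ := 4096)
    (mder := b ^ 9) (lo := 400 / b ^ 10) (by positivity) (by rw [← hab]; exact H1 a)
    (by rw [← hab]; exact H2 a) hz0 hz hz' hv hv' hv0 hv1 hv1ne (by norm_num) ht.t1
    (fun i hi => hcon i hi) (fun i hi => hcon' i hi) hlpos (fun i hi => hlo i hi)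
    (fun i hi => hlo' i hi) (by positivity) hHm
    (typ_HS (f := fun i => phi a (z (i+1))) hb hN (fun i => hup _) ht.t1 ht.t2) (m0 := 3)
    (typ_HC (f := fun i => phi a (z (i+1))) hb hN (fun i => hup _) ht.t1 ht.t2)
    (by
      intro i hi
      have h1 := ht.t2 i (by omega)
      refine le_trans ?_ h1
      have h2 : (∏ l ∈ Finset.range i, |phi a (z (l+1))|) ≤ (9 * b ^ 10) ^ i := by
        calc (∏ l ∈ Finset.range i, |phi a (z (l+1))|) ≤ ∏ l ∈ Finset.range i, (9 * b ^ 10) := by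
              apply Finset.prod_le_prod
              · intro _ _; exact abs_nonneg _
              · intro _ _; exact hup _
          _ = _ := by rw [Finset.prod_const, Finset.card_range]
      have h3 : (9 * b ^ 10) ^ i ≤ (9 * b ^ 10) ^ 3 := by
        apply pow_le_pow_right₀ _ hi
        have : 1 ≤ b ^ 10 := one_le_pow₀ hb1
        linarith
      have h4 : (2:ℝ) ^ i ≤ 2 ^ 3 := pow_le_pow_right₀ (by norm_num) hi
      have hPn : 0 ≤ ∏ l ∈ Finset.range i, |phi a (z (l+1))| :=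
        Finset.prod_nonneg (fun _ _ => abs_nonneg _)
      calc 2 * (40 * b ^ 10) * (2 ^ i * (∏ l ∈ Finset.range i, |phi a (z (l+1))|) * c)
          ≤ 2 * (40 * b ^ 10) * (2 ^ 3 * (9 * b ^ 10) ^ 3 * (1 / b ^ 80)) := by
            gcongr
            exact h2.trans h3
        _ = 466560 / b ^ 40 := by field_simp; norm_num
        _ ≤ b ^ 9 := by
            rw [div_le_iff₀ (by positivity), ← pow_add]
            have h49 := hpow 49
            refine le_trans ?_ h49
            norm_num)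
    (N - 2) (by omega) (by omega)
  have hQ := typ_Q_fin (f := fun i => phi a (z (i+1))) hb hN (fun i => hup _) ht.t1 ht.t5
  set Q := ∏ l ∈ Finset.range (N-2), |phi a (z (l+2))| with hQd
  have hQ' : b ^ (7 * N) ≤ Q ^ 2 * (81 * b ^ 20) ^ 2 := hQ
  rw [show N - 2 + 1 = N - 1 by omega] at hfi
  -- c * (400 / b) * Q^2 ≤ 8^(N-1)
  have e1 : b ^ 9 * (400 / b ^ 10) * Q ^ 2 = 400 / b * Q ^ 2 := by field_simp
  rw [e1] at hfi
  have h8 : (8:ℝ) ^ (N-1) ≤ b ^ N := by
    calc (8:ℝ) ^ (N-1) ≤ b ^ (N-1) := pow_le_pow_left₀ (by norm_num) (by linarith) _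
      _ ≤ b ^ N := pow_le_pow_right₀ hb1 (by omega)
  have h9 : c * (400 * b ^ (7 * N)) ≤ b ^ N * (6561 * b ^ 41) := by
    calc c * (400 * b ^ (7 * N)) ≤ c * (400 * (Q ^ 2 * (81 * b ^ 20) ^ 2)) := by gcongr
      _ = (c * (400 / b * Q ^ 2)) * (6561 * b ^ 41) := by field_simp; ring
      _ ≤ 8 ^ (N-1) * (6561 * b ^ 41) := by gcongr
      _ ≤ _ := by gcongr
  have h10 : b ^ N * (400 * (c * b ^ (6 * N))) ≤ b ^ N * (400 * b ^ 42) := by
    calc b ^ N * (400 * (c * b ^ (6 * N))) = c * (400 * b ^ (7 * N)) := by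
          rw [show 7 * N = N + 6 * N by ring, pow_add]; ring
      _ ≤ b ^ N * (6561 * b ^ 41) := h9
      _ ≤ b ^ N * (400 * b ^ 42) := by
          have h12 : 6561 * b ^ 41 ≤ 400 * b ^ 42 := by
            have : (6561:ℝ) ≤ 400 * b := by linarith
            calc 6561 * b ^ 41 ≤ (400 * b) * b ^ 41 := by gcongr
              _ = _ := by ring
          exact mul_le_mul_of_nonneg_left h12 (by positivity)
  have h11 := le_of_mul_le_mul_left h10 (by positivity)
  linarith

end Pool.Agent.Helper78.SM
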