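import Mathlib
import Pool.Agent.Helper78.SM.LogT
import Pool.Agent.Helper53.SM.Final

set_option autoImplicit false
open Real MeasureTheory Set
open scoped ENNReal

namespace Pool.Agent.Helper78.SM

open Pool.Agent.Helper53.SM (T2 IsStd integrable_of_bdd comp_int mixing_final)

attribute [local instance] Pool.Agent.Helper53.SM.instProbU Pool.Agent.Helper53.SM.instProbT2

/-- Birkhoff sum -/
noncomputable def BS (T : T2 → T2) (w : T2 → ℝ) (n : ℕ) (p : T2) : ℝ :=
  ∑ k ∈ Finset.range n, w (T^[k] p)

section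
variable {T : T2 → T2} {w : T2 → ℝ}

lemma measurable_BS (hT : Continuous T) (hw : Measurable w) (n : ℕ) : Measurable (BS T w n) :=
  Finset.measurable_sum _ (fun k _ => hw.comp (hT.iterate k).measurable)

lemma BS_add (m n : ℕ) (p : T2) : BS T w (m + n) p = BS T w m p + BS T w n (T^[m] p) := by
  unfold BS
  rw [Finset.sum_range_add]
  congr 1
  apply Finset.sum_congr rfl
  intro k _
  rw [← Function.iterate_add_apply, add_comm]

lemma abs_BS_le {B : ℝ} (hw : ∀ p, |w p| ≤ B) (n : ℕ) (p : T2) : |BS T w n p| ≤ n * B := by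
  unfold BS
  refine (Finset.abs_sum_le_sum_abs _ _).trans ?_
  refine (Finset.sum_le_sum (fun k _ => hw (T^[k] p))).trans (le_of_eq ?_)
  simp

lemma int_abs_BS_add (hT : Continuous T) (hTm : MeasurePreserving T (volume : Measure T2) volume)
    (hw : Measurable w) {B : ℝ} (hB : ∀ p, |w p| ≤ B) (m n : ℕ) :
    ∫ p, |BS T w (m + n) p| ≤ (∫ p, |BS T w m p|) + ∫ p, |BS T w n p| := by
  have hi : ∀ n, Integrable (fun p => |BS T w n p|) := fun n =>
    (integrable_of_bdd (measurable_BS hT hw n) (abs_BS_le hB n)).abs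
  have h1 : ∫ p, |BS T w n p| = ∫ p, |BS T w n (T^[m] p)| :=
    (comp_int (hTm.iterate m) (g := fun p => |BS T w n p|)
      (continuous_abs.measurable.comp (measurable_BS hT hw n))).symm
  have hi2 : Integrable (fun p => |BS T w n (T^[m] p)|) := by
    have := (hTm.iterate m).integrable_comp_of_integrable (hi n)
    exact this
  rw [h1, ← integral_add (hi m) hi2]
  apply integral_mono (hi _) ((hi m).add hi2)
  intro p
  simp only [Pi.add_apply]
  rw [BS_add]
  exact abs_add_le _ _

lemma int_abs_BS_le (hT : Continuous T) (hTm : MeasurePreserving T (volume : Measure T2) volume)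
    (hw : Measurable w) {B : ℝ} (hB : ∀ p, |w p| ≤ B) {K : ℕ} (hK : 0 < K) (n : ℕ) :
    ∫ p, |BS T w n p| ≤ (n : ℝ) / K * (∫ p, |BS T w K p|) + K * B := by
  have hB0 : 0 ≤ B := (abs_nonneg _).trans (hB 0)
  have hmul : ∀ q : ℕ, ∫ p, |BS T w (q * K) p| ≤ q * ∫ p, |BS T w K p| := by
    intro q
    induction q with
    | zero => simp [BS]
    | succ q ih =>
      rw [Nat.succ_mul]
      refine (int_abs_BS_add hT hTm hw hB _ _).trans ?_
      push_cast
      linarith
  have hdm : n = (n / K) * K + n % K := by rw [mul_comm]; exact (Nat.div_add_mod n K).symm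
  have h1 : ∫ p, |BS T w (n % K) p| ≤ K * B := by
    have h2 : ∫ p, |BS T w (n % K) p| ≤ ∫ _p : T2, ((n % K : ℕ) : ℝ) * B := by
      apply integral_mono_of_nonneg (Filter.Eventually.of_forall (fun p => abs_nonneg _))
        (integrable_const _)
      exact Filter.Eventually.of_forall (fun p => abs_BS_le hB _ p)
    simp only [integral_const, probReal_univ, smul_eq_mul, one_mul] at h2
    refine h2.trans ?_
    have : (n % K : ℕ) ≤ K := (Nat.mod_lt _ hK).le
    gcongr
  have h0 : 0 ≤ ∫ p, |BS T w K p| := integral_nonneg (fun p => abs_nonneg _)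
  have h3 : ((n / K : ℕ) : ℝ) ≤ (n:ℝ) / K := Nat.cast_div_le
  calc ∫ p, |BS T w n p| = ∫ p, |BS T w ((n / K) * K + n % K) p| := by rw [← hdm]
    _ ≤ _ := int_abs_BS_add hT hTm hw hB _ _
    _ ≤ ((n / K : ℕ) : ℝ) * (∫ p, |BS T w K p|) + K * B := add_le_add (hmul _) h1
    _ ≤ _ := by gcongr

end

/-- variance bound -/
lemma var_bound {T : T2 → T2} (hT : Continuous T)
    (hTm : MeasurePreserving T (volume : Measure T2) volume) {f : T2 → ℝ}
    (hf : Measurable f) (hf1 : ∀ p, |f p| ≤ 1) {c : ℝ} (hc : c = ∫ p, f p) {K : ℕ} {E : ℝ}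
    (hE : 0 ≤ E)
    (hcor : ∀ m, 2 ≤ m → m < K → |(∫ p, f p * f (T^[m] p)) - (∫ p, f p) * ∫ p, f p| ≤ E) :
    (∫ p, |BS T (fun p => f p - c) K p|) ^ 2 ≤ 12 * K + K ^ 2 * E := by
  have hc1 : |c| ≤ 1 := by
    have := norm_integral_le_of_norm_le_const (μ := (volume : Measure T2)) (f := f) (C := 1)
      (Filter.Eventually.of_forall (fun p => by rw [Real.norm_eq_abs]; exact hf1 p))
    rw [hc]
    simpa using this
  have hiter : ∀ k : ℕ, MeasurePreserving (T^[k]) (volume : Measure T2) volume := fun k =>
    hTm.iterate k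
  set u : ℕ → T2 → ℝ := fun k p => f (T^[k] p) - c with hu
  have hfk : ∀ k, Measurable (fun p => f (T^[k] p)) := fun k =>
    hf.comp (hT.iterate _).measurable
  have hum : ∀ k, Measurable (u k) := fun k => (hfk k).sub measurable_const
  have hu2 : ∀ k p, |u k p| ≤ 2 := by
    intro k p
    have h1 := abs_le.1 (hf1 (T^[k] p))
    have h2 := abs_le.1 hc1
    rw [abs_le]; simp only [hu]
    constructor <;> linarith [h1.1, h1.2, h2.1, h2.2]
  set S : T2 → ℝ := BS T (fun p => f p - c) K with hS
  have hSm : Measurable S := measurable_BS hT (hf.sub measurable_const) K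
  have hSe : ∀ p, S p = ∑ k ∈ Finset.range K, u k p := fun p => rfl
  have hSb : ∀ p, |S p| ≤ K * 2 := abs_BS_le (fun p => hu2 0 p) K
  have hSi : Integrable S := integrable_of_bdd hSm hSb
  have hS2i : Integrable (fun p => S p ^ 2) := by
    refine integrable_of_bdd (hSm.pow_const 2) (C := (K * 2) ^ 2) ?_
    intro p
    rw [abs_pow]
    exact pow_le_pow_left₀ (abs_nonneg _) (hSb p) 2
  have hCS : (∫ p, |S p|) ^ 2 ≤ ∫ p, S p ^ 2 := by
    set m := ∫ p, |S p| with hm
    have h2 : 0 ≤ ∫ p, (|S p| - m) ^ 2 := integral_nonneg (fun p => sq_nonneg _)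
    have h3 : ∫ p, (|S p| - m) ^ 2 = (∫ p, S p ^ 2) - m ^ 2 := by
      have e : ∀ p, (|S p| - m) ^ 2 = S p ^ 2 - (2 * m) * |S p| + m ^ 2 := by
        intro p; rw [sub_sq, sq_abs]; ring
      simp only [e]
      have i1 : Integrable (fun p => S p ^ 2 - (2 * m) * |S p|) :=
        hS2i.sub (hSi.abs.const_mul _)
      rw [integral_add i1 (integrable_const _),
        integral_sub hS2i (hSi.abs.const_mul _), integral_const_mul]
      simp only [integral_const, probReal_univ, smul_eq_mul, one_mul]
      rw [← hm]; ring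
    linarith
  have huu : ∀ i j, Integrable (fun p => u i p * u j p) := by
    intro i j
    refine integrable_of_bdd ((hum i).mul (hum j)) (C := 4) ?_
    intro p
    rw [abs_mul]
    calc _ ≤ (2:ℝ) * 2 := mul_le_mul (hu2 _ _) (hu2 _ _) (abs_nonneg _) (by norm_num)
      _ = 4 := by norm_num
  have htriv : ∀ i j, ∫ p, u i p * u j p ≤ 4 := by
    intro i j
    have h1 : ∫ p, u i p * u j p ≤ ∫ _p : T2, (4:ℝ) := by
      apply integral_mono (huu i j) (integrable_const _)
      intro p
      have h2 : |u i p * u j p| ≤ 4 := by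
        rw [abs_mul]
        calc _ ≤ (2:ℝ) * 2 := mul_le_mul (hu2 _ _) (hu2 _ _) (abs_nonneg _) (by norm_num)
          _ = 4 := by norm_num
      exact (le_abs_self _).trans h2
    simpa using h1
  have hcorr : ∀ i j, j < K → i + 2 ≤ j → ∫ p, u i p * u j p ≤ E := by
    intro i j hj hij
    have hlt : i < j := by omega
    have h1 : ∫ p, u i p * u j p = ∫ p, (fun q => (f q - c) * (f (T^[j - i] q) - c))
        (T^[i] p) := by
      apply integral_congr_ae
      filter_upwards with p
      simp only [hu]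
      rw [← Function.iterate_add_apply, Nat.sub_add_cancel hlt.le]
    rw [h1, comp_int (hiter i) (g := fun q => (f q - c) * (f (T^[j - i] q) - c))
      ((hf.sub measurable_const).mul ((hfk (j - i)).sub measurable_const))]
    have hff : Integrable (fun q => f q * f (T^[j - i] q)) := by
      refine integrable_of_bdd (hf.mul (hfk _)) (C := 1) ?_
      intro p
      rw [abs_mul]
      calc _ ≤ (1:ℝ) * 1 := mul_le_mul (hf1 _) (hf1 _) (abs_nonneg _) (by norm_num)
        _ = 1 := by norm_num
    have hfi : Integrable f := integrable_of_bdd hf hf1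
    have hfi2 : Integrable (fun q => f (T^[j - i] q)) :=
      integrable_of_bdd (hfk _) (fun p => hf1 _)
    have h2 : ∫ q, (f q - c) * (f (T^[j - i] q) - c) =
        (∫ q, f q * f (T^[j - i] q)) - c * c := by
      have e : ∀ q, (f q - c) * (f (T^[j - i] q) - c) =
          f q * f (T^[j - i] q) - c * f q - c * f (T^[j - i] q) + c * c := by
        intro q; ring
      simp only [e]
      have i1 : Integrable (fun q => f q * f (T^[j - i] q) - c * f q) :=
        hff.sub (hfi.const_mul c)
      have i2 : Integrable (fun q => f q * f (T^[j - i] q) - c * f q -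
        c * f (T^[j - i] q)) := i1.sub (hfi2.const_mul c)
      rw [integral_add i2 (integrable_const _),
        integral_sub i1 (hfi2.const_mul c),
        integral_sub hff (hfi.const_mul c), integral_const_mul, integral_const_mul,
        comp_int (hiter _) hf]
      simp only [integral_const, probReal_univ, smul_eq_mul, one_mul]
      rw [← hc]; ring
    rw [h2, hc]
    exact (le_abs_self _).trans (hcor (j - i) (by omega) (by omega))
  have hpair : ∀ i j, i < K → j < K → ∫ p, u i p * u j p ≤
      (if j = i then 4 else 0) + (if j = i + 1 then 4 else 0) + (if j = i - 1 then 4 else 0) + E := by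
    intro i j hi hj
    have n1 : (0:ℝ) ≤ if j = i then 4 else 0 := by split_ifs <;> norm_num
    have n2 : (0:ℝ) ≤ if j = i + 1 then 4 else 0 := by split_ifs <;> norm_num
    have n3 : (0:ℝ) ≤ if j = i - 1 then 4 else 0 := by split_ifs <;> norm_num
    by_cases c1 : j = i
    · have := htriv i j
      rw [if_pos c1]
      linarith
    · by_cases c2 : j = i + 1
      · have := htriv i j
        rw [if_pos c2]
        linarith
      · by_cases c3 : j = i - 1
        · have := htriv i j
          rw [if_pos c3]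
          linarith
        · have h9 : ∫ p, u i p * u j p ≤ E := by
            rcases Nat.lt_or_ge i j with h | h
            · exact hcorr i j hj (by omega)
            · have e2 : ∫ p, u i p * u j p = ∫ p, u j p * u i p := by
                congr 1; funext p; ring
              rw [e2]
              exact hcorr j i hi (by omega)
          linarith
  have hS2 : ∫ p, S p ^ 2 ≤ 12 * K + K ^ 2 * E := by
    have e' : ∫ p, S p ^ 2 = ∫ p, ∑ i ∈ Finset.range K, ∑ j ∈ Finset.range K, u i p * u j p := by
      congr 1; funext p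
      rw [sq, hSe, Finset.sum_mul_sum]
    rw [e', integral_finsetSum _ (fun i _ => integrable_finsetSum _ (fun j _ => huu i j))]
    have h1 : ∀ i ∈ Finset.range K, ∫ p, ∑ j ∈ Finset.range K, u i p * u j p ≤ 12 + K * E := by
      intro i hi
      rw [integral_finsetSum _ (fun j _ => huu i j)]
      rw [Finset.mem_range] at hi
      calc ∑ j ∈ Finset.range K, ∫ p, u i p * u j p ≤ ∑ j ∈ Finset.range K,
          ((if j = i then 4 else 0) + (if j = i + 1 then 4 else 0) +
            (if j = i - 1 then 4 else 0) + E) := by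
            apply Finset.sum_le_sum
            intro j hj
            exact hpair i j hi (Finset.mem_range.1 hj)
        _ ≤ 12 + K * E := by
            have hite : ∀ l : ℕ, ∑ j ∈ Finset.range K, (if j = l then (4:ℝ) else 0) ≤ 4 := by
              intro l
              rw [Finset.sum_ite_eq']
              split_ifs <;> norm_num
            rw [Finset.sum_add_distrib, Finset.sum_add_distrib, Finset.sum_add_distrib,
              Finset.sum_const, Finset.card_range, nsmul_eq_mul]
            have := hite i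
            have := hite (i + 1)
            have := hite (i - 1)
            linarith
    refine (Finset.sum_le_sum h1).trans (le_of_eq ?_)
    rw [Finset.sum_const, Finset.card_range, nsmul_eq_mul]
    ring
  exact hCS.trans hS2

/-- law of large numbers in `L1` for the truncated logarithm -/
theorem lln {M δ : ℝ} (hM : 1 ≤ M) (hδ : 0 < δ) : ∃ (n₀ : ℕ) (a₀ : ℝ), ∀ a : ℝ, a₀ ≤ |a| →
    ∀ T : T2 → T2, IsStd a T → ∀ n : ℕ, n₀ ≤ n →
    ∫ p, |BS T (fun p => uM M p.1 - ∫ q : T2, uM M q.1) n p| ≤ δ * n := by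
  set δ' := δ / M with hδ'
  have hM0 : 0 < M := by linarith
  have hδ0 : 0 < δ' := by positivity
  obtain ⟨K, hK⟩ := exists_nat_gt (96 / δ' ^ 2)
  have hK0 : (0:ℝ) < K := lt_trans (by positivity) hK
  have hKpos : 0 < K := by exact_mod_cast hK0
  obtain ⟨n₀, hn₀⟩ := exists_nat_gt (4 * K / δ')
  set L := 4 * π * Real.exp M with hL
  have hL0 : 0 < L := by positivity
  -- the parameter
  have hev : ∀ᶠ A : ℝ in Filter.atTop, 150 * (K * A ^ (-(1:ℝ) / 3) + L * A ^ (-(2:ℝ) / 3)) ≤
      δ' ^ 2 / 8 := by
    have t1 : Filter.Tendsto (fun A : ℝ => A ^ (-(1:ℝ) / 3)) Filter.atTop (nhds 0) := by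
      have := tendsto_rpow_neg_atTop (y := 1 / 3) (by norm_num)
      refine this.congr (fun A => ?_)
      congr 1; norm_num
    have t2 : Filter.Tendsto (fun A : ℝ => A ^ (-(2:ℝ) / 3)) Filter.atTop (nhds 0) := by
      have := tendsto_rpow_neg_atTop (y := 2 / 3) (by norm_num)
      refine this.congr (fun A => ?_)
      congr 1; norm_num
    have t3 := ((t1.const_mul (K:ℝ)).add (t2.const_mul L)).const_mul 150
    simp only [mul_zero, add_zero] at t3
    exact (t3.eventually (gt_mem_nhds (by positivity : (0:ℝ) < δ' ^ 2 / 8))).mono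
      (fun A hA => hA.le)
  obtain ⟨a₁, ha₁⟩ := Filter.eventually_atTop.1 hev
  refine ⟨n₀, max a₁ 1, ?_⟩
  intro a ha T hT n hn
  have ha1 : 1 ≤ |a| := (le_max_right _ _).trans ha
  have haE := ha₁ |a| ((le_max_left _ _).trans ha)
  set f : T2 → ℝ := fun p => uM M p.1 / M with hf
  have hfm : Measurable f := ((measurable_uM M).comp measurable_fst).div_const M
  have hf1 : ∀ p, |f p| ≤ 1 := by
    intro p
    rw [hf]; simp only
    rw [abs_div, abs_of_pos hM0, div_le_one hM0]
    exact abs_uM_le hM _
  have hfL : ∀ p q, |f p - f q| ≤ L * dist p q := by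
    intro p q
    rw [hf]; simp only
    rw [← sub_div, abs_div, abs_of_pos hM0, div_le_iff₀ hM0]
    refine (uM_lip M p.1 q.1).trans ?_
    rw [← hL]
    have h1 : dist p.1 q.1 ≤ dist p q := by
      rw [Prod.dist_eq]; exact le_max_left _ _
    have h2 : 0 ≤ dist p q := dist_nonneg
    calc L * dist p.1 q.1 ≤ L * dist p q := by gcongr
      _ ≤ L * dist p q * M := by
          apply le_mul_of_one_le_right (by positivity) hM
  have hpow1 : |a| ^ (-(2:ℝ) / 3) ≤ 1 :=
    Real.rpow_le_one_of_one_le_of_nonpos ha1 (by norm_num)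
  have hcor : ∀ m, 2 ≤ m → m < K →
      |(∫ p, f p * f (T^[m] p)) - (∫ p, f p) * ∫ p, f p| ≤ δ' ^ 2 / 8 := by
    intro m hm hmK
    refine (mixing_final ha1 hT hf1 hf1 hL0.le hfL hfL (by omega : 1 ≤ m)).trans ?_
    refine le_trans ?_ haE
    have h1 : (m:ℝ) ≤ K := by exact_mod_cast hmK.le
    have h2 : (|a| ^ (-(2:ℝ) / 3)) ^ (m / 2) ≤ |a| ^ (-(2:ℝ) / 3) := by
      calc (|a| ^ (-(2:ℝ) / 3)) ^ (m / 2) ≤ (|a| ^ (-(2:ℝ) / 3)) ^ 1 := by
            apply pow_le_pow_of_le_one (by positivity) hpow1
            omega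
        _ = _ := pow_one _
    gcongr
  have hvar := var_bound hT.continuous hT.measurePreserving hfm hf1 rfl (K := K)
    (by positivity : 0 ≤ δ' ^ 2 / 8) hcor
  have hw2 : ∀ p, |f p - ∫ p, f p| ≤ 2 := by
    intro p
    have hc1 : |∫ p, f p| ≤ 1 := by
      have := norm_integral_le_of_norm_le_const (μ := (volume : Measure T2)) (f := f) (C := 1)
        (Filter.Eventually.of_forall (fun p => by rw [Real.norm_eq_abs]; exact hf1 p))
      simpa using this
    have := abs_sub (f p) (∫ p, f p)
    have := hf1 p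
    linarith
  have hblock := int_abs_BS_le hT.continuous hT.measurePreserving
    (w := fun p => f p - ∫ p, f p) (hfm.sub measurable_const) hw2 hKpos n
  set aK := ∫ p, |BS T (fun p => f p - ∫ p, f p) K p| with haK
  have haK0 : 0 ≤ aK := integral_nonneg (fun p => abs_nonneg _)
  have hKδ : 96 < K * δ' ^ 2 := by
    rwa [div_lt_iff₀ (by positivity)] at hK
  have haK1 : aK ≤ δ' / 2 * K := by
    apply le_of_sq_le_sq _ (by positivity)
    refine hvar.trans ?_
    nlinarith
  have hnn : 4 * K < n * δ' := by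
    have h1 : 4 * (K:ℝ) / δ' < n := hn₀.trans_le (by exact_mod_cast hn)
    rwa [div_lt_iff₀ hδ0] at h1
  have hn0 : (0:ℝ) ≤ n := Nat.cast_nonneg n
  have hfin : ∫ p, |BS T (fun p => f p - ∫ p, f p) n p| ≤ δ' * n := by
    refine hblock.trans ?_
    have h1 : (n:ℝ) / K * aK ≤ (n:ℝ) / K * (δ' / 2 * K) := by gcongr
    have h2 : (n:ℝ) / K * (δ' / 2 * K) = δ' / 2 * n := by field_simp
    rw [h2] at h1
    linarith
  have hrel : ∀ p, |BS T (fun p => uM M p.1 - ∫ q : T2, uM M q.1) n p| =
      M * |BS T (fun p => f p - ∫ p, f p) n p| := by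
    intro p
    rw [← abs_of_pos hM0, ← abs_mul, abs_of_pos hM0]
    congr 1
    unfold BS
    rw [Finset.mul_sum]
    apply Finset.sum_congr rfl
    intro k _
    have h1 : ∫ p, f p = (∫ q : T2, uM M q.1) / M := by
      rw [hf]; exact integral_div _ _
    simp only
    rw [h1, hf]
    simp only
    field_simp
  have e1 : ∫ p, |BS T (fun p => uM M p.1 - ∫ q : T2, uM M q.1) n p| =
      M * ∫ p, |BS T (fun p => f p - ∫ p, f p) n p| := by
    rw [← integral_const_mul]
    congr 1
    funext p
    exact hrel p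
  rw [e1]
  calc M * ∫ p, |BS T (fun p => f p - ∫ p, f p) n p| ≤ M * (δ' * n) := by gcongr
    _ = δ * n := by rw [hδ']; field_simp

end Pool.Agent.Helper78.SM
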