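import Mathlib
import Pool.Agent.Helper78.SM.LLN

set_option autoImplicit false
open Real MeasureTheory Set
open scoped ENNReal

namespace Pool.Agent.Helper78.SM

open Pool.Agent.Helper53.SM (T2 IsStd integrable_of_bdd comp_int measurable_mk)

attribute [local instance] Pool.Agent.Helper53.SM.instProbU Pool.Agent.Helper53.SM.instProbT2

/-- the standard map on the torus -/
noncomputable def std (a : ℝ) (p : T2) : T2 :=
  (p.1 + p.1 - p.2 + ((a * snn p.1 : ℝ) : UnitAddCircle), p.1)

lemma std_isStd (a : ℝ) : IsStd a (std a) := by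
  intro x y
  unfold std
  simp only [snn_coe]
  rw [← AddCircle.coe_add, ← AddCircle.coe_sub, ← AddCircle.coe_add]
  congr 2
  ring

/-- projection -/
def mk2 (p : ℝ × ℝ) : T2 := ((p.1 : UnitAddCircle), (p.2 : UnitAddCircle))

lemma mk2_F {a : ℝ} {T : T2 → T2} (hT : IsStd a T) (p : ℝ × ℝ) : T (mk2 p) = mk2 (F a p) := by
  unfold mk2 F
  rw [hT]

lemma mk2_iter {a : ℝ} {T : T2 → T2} (hT : IsStd a T) (k : ℕ) (p : ℝ × ℝ) :
    T^[k] (mk2 p) = mk2 ((F a)^[k] p) := by
  induction k with
  | zero => rfl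
  | succ k ih => rw [Function.iterate_succ_apply', Function.iterate_succ_apply', ih, mk2_F hT]

lemma mp_mk2 : MeasurePreserving mk2
    ((volume : Measure (ℝ × ℝ)).restrict (Ioc (0:ℝ) 1 ×ˢ Ioc (0:ℝ) 1)) (volume : Measure T2) := by
  have h := UnitAddCircle.measurePreserving_mk 0
  rw [zero_add] at h
  have h2 := h.prod h
  rw [Measure.prod_restrict] at h2
  exact h2

lemma volume_pre_le {B : Set T2} (hB : MeasurableSet B) {s : Set (ℝ × ℝ)}
    (hs : s ⊆ Ioc (0:ℝ) 1 ×ˢ Ioc (0:ℝ) 1) (hsB : ∀ p ∈ s, mk2 p ∈ B) : volume s ≤ volume B := by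
  rw [← mp_mk2.measure_preimage hB.nullMeasurableSet]
  rw [Measure.restrict_apply (mp_mk2.measurable hB)]
  apply measure_mono
  intro p hp
  exact ⟨hsB p hp, hs hp⟩

/-- normalised coefficient -/
noncomputable def gA (a : ℝ) (θ : UnitAddCircle) : ℝ := |Phi a θ| / (π * |a|)

lemma measurable_gA (a : ℝ) : Measurable (gA a) :=
  (continuous_abs.measurable.comp (measurable_Phi a)).div_const _

lemma sublevel_gA {a : ℝ} (ha : 1 ≤ |a|) {s : ℝ} (hs : 0 ≤ s) :
    volume {θ : UnitAddCircle | gA a θ ≤ s} ≤ ENNReal.ofReal (2 * s) := by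
  have hpi := Real.pi_pos
  have hpi2 := Real.pi_lt_d2
  have ha0 : 0 < |a| := by linarith
  refine (measure_mono (t := {θ : UnitAddCircle | |Phi a θ| ≤ s * (π * |a|)}) ?_).trans
    ((sublevel_Phi ha (by positivity)).trans ?_)
  · intro θ hθ
    rw [mem_ofPred_eq] at hθ ⊢
    unfold gA at hθ
    rwa [div_le_iff₀ (by positivity)] at hθ
  · apply ENNReal.ofReal_le_ofReal
    rw [div_le_iff₀ (by positivity)]
    nlinarith [mul_nonneg hs ha0.le]

lemma gA_sub_le {a : ℝ} (ha : 1 ≤ |a|) (θ : UnitAddCircle) :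
    |gA a θ - (|2 * csn θ|)| ≤ 2 / (π * |a|) := by
  have hpi := Real.pi_pos
  have ha0 : 0 < |a| := by linarith
  have hane : a ≠ 0 := abs_pos.1 ha0
  have e : gA a θ = |Phi a θ / (π * a)| := by
    unfold gA
    rw [abs_div, abs_mul, abs_of_pos hpi]
  rw [e]
  refine (abs_abs_sub_abs_le_abs_sub _ _).trans (le_of_eq ?_)
  have e2 : Phi a θ / (π * a) - 2 * csn θ = 2 / (π * a) := by
    unfold Phi; field_simp; ring
  rw [e2, abs_div, abs_mul, abs_of_pos hpi, abs_two]

/-- tail function -/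
noncomputable def tA (a M : ℝ) (θ : UnitAddCircle) : ℝ := max (-Real.log (gA a θ) - M) 0

lemma measurable_tA (a M : ℝ) : Measurable (tA a M) :=
  (((Real.measurable_log.comp (measurable_gA a)).neg).sub_const M).max measurable_const

lemma tA_nonneg (a M : ℝ) (θ : UnitAddCircle) : 0 ≤ tA a M θ := le_max_right _ _

lemma tail_gA {a : ℝ} (ha : 1 ≤ |a|) (M : ℝ) :
    ∫⁻ θ, ENNReal.ofReal (tA a M θ) ≤ ENNReal.ofReal (2 * Real.exp (-M)) :=
  tail (measurable_gA a) (fun θ => by unfold gA; positivity) (by norm_num)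
    (fun s hs => sublevel_gA ha hs) M

lemma log_Phi_ge {a M : ℝ} (ha : 1 ≤ |a|) {θ : UnitAddCircle} (hθ : Phi a θ ≠ 0) :
    Real.log (π * |a|) + uM M θ - Real.exp M / |a| - tA a M θ ≤ Real.log |Phi a θ| := by
  have hpi := Real.pi_pos
  have hpi3 := Real.pi_gt_three
  have ha0 : 0 < |a| := by linarith
  have hΦ : 0 < |Phi a θ| := abs_pos.2 hθ
  have hg : 0 < gA a θ := by unfold gA; positivity
  have e1 : Real.log |Phi a θ| = Real.log (π * |a|) + Real.log (gA a θ) := by
    rw [← Real.log_mul (by positivity) hg.ne']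
    congr 1
    unfold gA; field_simp
  have e2 : Real.log (max (gA a θ) (Real.exp (-M))) - tA a M θ ≤ Real.log (gA a θ) := by
    unfold tA
    rcases le_total (gA a θ) (Real.exp (-M)) with h | h
    · rw [max_eq_right h, Real.log_exp]
      have := le_max_left (-Real.log (gA a θ) - M) 0
      linarith
    · rw [max_eq_left h]
      have := le_max_right (-Real.log (gA a θ) - M) 0
      linarith
  have e3 : uM M θ - Real.exp M / |a| ≤ Real.log (max (gA a θ) (Real.exp (-M))) := by
    have h1 := log_max_lip (M := M) (x := |2 * csn θ|) (y := gA a θ)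
    have h2 := gA_sub_le ha θ
    rw [abs_sub_comm] at h2
    have h3 : 2 / (π * |a|) ≤ 1 / |a| := by
      rw [div_le_div_iff₀ (by positivity) ha0]
      nlinarith
    have h4 : Real.exp M * |(|2 * csn θ| - gA a θ)| ≤ Real.exp M * (1 / |a|) := by
      have := Real.exp_pos M
      gcongr
      exact h2.trans h3
    have h5 := le_abs_self (Real.log (max |2 * csn θ| (Real.exp (-M))) -
      Real.log (max (gA a θ) (Real.exp (-M))))
    have h6 : Real.exp M * (1 / |a|) = Real.exp M / |a| := by ring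
    unfold uM
    linarith
  rw [e1]
  linarith

lemma log_Phi_le {a M : ℝ} (ha : 1 ≤ |a|) (θ : UnitAddCircle) :
    Real.log (|Phi a θ| + 1) ≤ Real.log (π * |a|) + uM M θ + Real.exp M / |a| := by
  have hpi := Real.pi_pos
  have hpi3 := Real.pi_gt_three
  have ha0 : 0 < |a| := by linarith
  have hΦ : 0 ≤ |Phi a θ| := abs_nonneg _
  set z := gA a θ + 1 / (π * |a|) with hz
  have hg0 : 0 ≤ gA a θ := by unfold gA; positivity
  have hz0 : 0 < z := by positivity
  have e1 : Real.log (|Phi a θ| + 1) = Real.log (π * |a|) + Real.log z := by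
    rw [← Real.log_mul (by positivity) hz0.ne']
    congr 1
    rw [hz]; unfold gA; field_simp
  have e2 : Real.log z ≤ Real.log (max z (Real.exp (-M))) := Real.log_le_log hz0 (le_max_left _ _)
  have h1 := log_max_lip (M := M) (x := z) (y := |2 * csn θ|)
  have h2 : |z - (|2 * csn θ|)| ≤ 1 / |a| := by
    have h3 := gA_sub_le ha θ
    have h4 : z - |2 * csn θ| = (gA a θ - |2 * csn θ|) + 1 / (π * |a|) := by rw [hz]; ring
    rw [h4]
    refine (abs_add_le _ _).trans ?_
    rw [abs_of_nonneg (by positivity : 0 ≤ 1 / (π * |a|))]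
    have h5 : 2 / (π * |a|) + 1 / (π * |a|) ≤ 1 / |a| := by
      rw [← add_div, div_le_div_iff₀ (by positivity) ha0]
      nlinarith
    linarith
  have h4 : Real.exp M * |z - (|2 * csn θ|)| ≤ Real.exp M * (1 / |a|) := by
    have := Real.exp_pos M
    gcongr
  have h5 := le_abs_self (Real.log (max z (Real.exp (-M))) -
    Real.log (max |2 * csn θ| (Real.exp (-M))))
  have h6 : Real.exp M * (1 / |a|) = Real.exp M / |a| := by ring
  rw [e1]
  unfold uM
  linarith

/-- second bad event -/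
def Bad2 (a M η : ℝ) (T : T2 → T2) (n : ℕ) : Set T2 :=
  {p | η * n ≤ BS T (fun p => tA a M p.1) n p}

lemma volume_Bad2 {a M η : ℝ} (ha : 1 ≤ |a|) (hη : 0 < η) {T : T2 → T2} (hT : IsStd a T) {n : ℕ}
    (hn : 1 ≤ n) : volume (Bad2 a M η T n) ≤ ENNReal.ofReal (2 * Real.exp (-M) / η) := by
  have hn0 : (0:ℝ) < n := by exact_mod_cast hn
  have hmt : Measurable (fun p : T2 => tA a M p.1) := (measurable_tA a M).comp measurable_fst
  have hmB := measurable_BS hT.continuous hmt n
  have h1 : ∫⁻ p, ENNReal.ofReal (BS T (fun p => tA a M p.1) n p) ≤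
      ENNReal.ofReal (n * (2 * Real.exp (-M))) := by
    have e : ∀ p, ENNReal.ofReal (BS T (fun p => tA a M p.1) n p) =
        ∑ k ∈ Finset.range n, ENNReal.ofReal (tA a M (T^[k] p).1) := by
      intro p
      unfold BS
      rw [ENNReal.ofReal_sum_of_nonneg (fun k _ => tA_nonneg _ _ _)]
    simp only [e]
    rw [lintegral_finsetSum]
    · have h2 : ∀ k, ∫⁻ p, ENNReal.ofReal (tA a M (T^[k] p).1) ≤
          ENNReal.ofReal (2 * Real.exp (-M)) := by
        intro k
        have h3 : ∫⁻ p, ENNReal.ofReal (tA a M (T^[k] p).1) =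
            ∫⁻ p : T2, ENNReal.ofReal (tA a M p.1) :=
          (hT.measurePreserving.iterate k).lintegral_comp
            (f := fun p : T2 => ENNReal.ofReal (tA a M p.1)) hmt.ennreal_ofReal
        rw [h3]
        have h4 : ∫⁻ p : T2, ENNReal.ofReal (tA a M p.1) = ∫⁻ θ, ENNReal.ofReal (tA a M θ) := by
          rw [Measure.volume_eq_prod]
          rw [lintegral_prod _ hmt.ennreal_ofReal.aemeasurable]
          simp
        rw [h4]
        exact tail_gA ha M
      calc _ ≤ ∑ k ∈ Finset.range n, ENNReal.ofReal (2 * Real.exp (-M)) :=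
            Finset.sum_le_sum (fun k _ => h2 k)
        _ = _ := by
            rw [Finset.sum_const, Finset.card_range, nsmul_eq_mul,
              ENNReal.ofReal_mul (Nat.cast_nonneg n), ENNReal.ofReal_natCast]
    · intro k _
      exact (hmt.comp (hT.continuous.iterate k).measurable).ennreal_ofReal
  have h2 := meas_ge_le_lintegral_div (μ := (volume : Measure T2)) hmB.ennreal_ofReal.aemeasurable
    (ε := ENNReal.ofReal (η * n)) (by
      rw [Ne, ENNReal.ofReal_eq_zero, not_le]; positivity) ENNReal.ofReal_ne_top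
  refine (measure_mono ?_).trans (h2.trans ?_)
  · intro p hp
    rw [Bad2, mem_ofPred_eq] at hp
    rw [mem_ofPred_eq]
    exact ENNReal.ofReal_le_ofReal hp
  · rw [ENNReal.div_le_iff (by
      rw [Ne, ENNReal.ofReal_eq_zero, not_le]; positivity) ENNReal.ofReal_ne_top]
    refine h1.trans ?_
    rw [← ENNReal.ofReal_mul (by positivity)]
    apply ENNReal.ofReal_le_ofReal
    apply le_of_eq
    field_simp

lemma measurableSet_Bad2 {a M η : ℝ} {T : T2 → T2} (hT : IsStd a T) (n : ℕ) :
    MeasurableSet (Bad2 a M η T n) :=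
  measurableSet_le measurable_const
    (measurable_BS hT.continuous ((measurable_tA a M).comp measurable_fst) n)

/-- third bad event -/
def Bad3 (M η : ℝ) (T : T2 → T2) (n : ℕ) : Set T2 :=
  {p | η * n ≤ |BS T (fun p => uM M p.1 - ∫ q : T2, uM M q.1) n p|}

lemma measurable_w (M : ℝ) : Measurable (fun p : T2 => uM M p.1 - ∫ q : T2, uM M q.1) :=
  ((measurable_uM M).comp measurable_fst).sub measurable_const

lemma measurableSet_Bad3 {a M η : ℝ} {T : T2 → T2} (hT : IsStd a T) (n : ℕ) :
    MeasurableSet (Bad3 M η T n) :=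
  measurableSet_le measurable_const
    (continuous_abs.measurable.comp (measurable_BS hT.continuous (measurable_w M) n))

lemma mean_T2 (M : ℝ) : ∫ q : T2, uM M q.1 = ∫ θ : UnitAddCircle, uM M θ := by
  rw [Measure.volume_eq_prod, integral_fun_fst (μ := (volume : Measure UnitAddCircle))
    (ν := (volume : Measure UnitAddCircle)) (uM M)]
  simp

lemma volume_Bad3 {a M η δ : ℝ} (hM : 1 ≤ M) (hη : 0 < η) {T : T2 → T2} (hT : IsStd a T) {n : ℕ}
    (hn : 1 ≤ n) (h : ∫ p, |BS T (fun p => uM M p.1 - ∫ q : T2, uM M q.1) n p| ≤ δ * n) :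
    volume (Bad3 M η T n) ≤ ENNReal.ofReal (δ / η) := by
  have hn0 : (0:ℝ) < n := by exact_mod_cast hn
  have hw2 : ∀ p : T2, |uM M p.1 - ∫ q : T2, uM M q.1| ≤ M + M := by
    intro p
    have hc1 : |∫ q : T2, uM M q.1| ≤ M := by
      have := norm_integral_le_of_norm_le_const (μ := (volume : Measure T2))
        (f := fun q : T2 => uM M q.1) (C := M)
        (Filter.Eventually.of_forall (fun p => by rw [Real.norm_eq_abs]; exact abs_uM_le hM _))
      simpa using this
    have h1 := abs_sub (uM M p.1) (∫ q : T2, uM M q.1)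
    have h2 := abs_uM_le hM p.1
    linarith
  have hi : Integrable (fun p => |BS T (fun p => uM M p.1 - ∫ q : T2, uM M q.1) n p|) :=
    (integrable_of_bdd (measurable_BS hT.continuous (measurable_w M) n) (abs_BS_le hw2 n)).abs
  have h1 := mul_meas_ge_le_integral_of_nonneg (μ := (volume : Measure T2))
    (Filter.Eventually.of_forall (fun p => abs_nonneg _)) hi (η * n)
  have h2 : (volume : Measure T2).real (Bad3 M η T n) ≤ δ / η := by
    rw [le_div_iff₀ hη]
    have h3 : η * n * (volume : Measure T2).real (Bad3 M η T n) ≤ δ * n := h1.trans h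
    have h4 : n * ((volume : Measure T2).real (Bad3 M η T n) * η) ≤ n * δ := by linarith
    exact le_of_mul_le_mul_left h4 hn0
  rw [← ENNReal.ofReal_toReal (measure_ne_top (volume : Measure T2) (Bad3 M η T n))]
  exact ENNReal.ofReal_le_ofReal h2

theorem main (ε : ℝ) (hε : 0 < ε) : ∃ (a₀ c : ℝ) (n₀ : ℕ), 0 < c ∧ ∀ a : ℝ, a₀ ≤ |a| →
    ∀ n : ℕ, n₀ ≤ n → (n : ℝ) ≤ c * (|a| ^ 2 / Real.log |a|) →
    volume {p : ℝ × ℝ | p ∈ Ioc (0:ℝ) 1 ×ˢ Ioc (0:ℝ) 1 ∧
      ε < |Real.log ‖fderiv ℝ ((F a)^[n]) p‖ / n - Real.log (π * |a|)|} ≤ ENNReal.ofReal ε := by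
  obtain ⟨M, hM1, hM2, hM3⟩ : ∃ M : ℝ, 1 ≤ M ∧ 2 * Real.exp (-M) ≤ ε / 8 ∧
      2 * Real.exp (-M) ≤ (ε / 8) * (ε / 4) := by
    have ht : Filter.Tendsto (fun M : ℝ => 2 * Real.exp (-M)) Filter.atTop (nhds 0) := by
      have := Real.tendsto_exp_neg_atTop_nhds_zero.const_mul 2
      simpa using this
    have e1 := ht.eventually (gt_mem_nhds (by positivity : (0:ℝ) < ε / 8))
    have e2 := ht.eventually (gt_mem_nhds (by positivity : (0:ℝ) < (ε / 8) * (ε / 4)))
    obtain ⟨M, hM⟩ := ((e1.and e2).and (Filter.eventually_ge_atTop (1:ℝ))).exists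
    exact ⟨M, hM.2, hM.1.1.le, hM.1.2.le⟩
  obtain ⟨n₁, a₁, hlln⟩ := lln (M := M) (δ := (ε / 8) * (ε / 4)) hM1 (by positivity)
  set κ := max 4 (32 / ε) with hκ
  have hκ4 : 4 ≤ κ := le_max_left _ _
  have hκ0 : 0 < κ := by linarith
  have hκε : 4 / κ ≤ ε / 8 := by
    have h1 : 32 / ε ≤ κ := le_max_right _ _
    rw [div_le_div_iff₀ hκ0 (by norm_num)]
    rw [div_le_iff₀ hε] at h1
    linarith
  refine ⟨max (max a₁ 3) (Real.exp M * 8 / ε), ε / (16 * κ), max n₁ 2, by positivity, ?_⟩
  intro a ha n hn hnc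
  have ha1 : a₁ ≤ |a| := (le_max_left _ _).trans ((le_max_left _ _).trans ha)
  have ha3 : 3 ≤ |a| := (le_max_right _ _).trans ((le_max_left _ _).trans ha)
  have ha1' : 1 ≤ |a| := by linarith
  have ha0 : 0 < |a| := by linarith
  have haM : Real.exp M / |a| ≤ ε / 8 := by
    have h1 : Real.exp M * 8 / ε ≤ |a| := (le_max_right _ _).trans ha
    rw [div_le_iff₀ hε] at h1
    rw [div_le_div_iff₀ ha0 (by norm_num)]
    linarith
  have hn1 : n₁ ≤ n := (le_max_left _ _).trans hn
  have hn2 : 2 ≤ n := (le_max_right _ _).trans hn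
  have hn0 : (0:ℝ) < n := by exact_mod_cast (by omega : 0 < n)
  have hlog : 0 < Real.log |a| := Real.log_pos (by linarith)
  set T := std a with hTdef
  have hT : IsStd a T := std_isStd a
  set B : Set T2 := ((⋃ k ∈ Finset.range n, (T^[k+1]) ⁻¹' (P2 a κ)) ∪ Bad2 a M (ε / 8) T n) ∪
    Bad3 M (ε / 8) T n with hB
  have hB1m : MeasurableSet (⋃ k ∈ Finset.range n, (T^[k+1]) ⁻¹' (P2 a κ)) := by
    refine Finset.measurableSet_biUnion _ (fun k _ => ?_)
    exact (hT.continuous.iterate (k+1)).measurable (measurableSet_P2 a κ)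
  have hBm : MeasurableSet B := (hB1m.union (measurableSet_Bad2 hT n)).union (measurableSet_Bad3 hT n)
  have hB1 : volume (⋃ k ∈ Finset.range n, (T^[k+1]) ⁻¹' (P2 a κ)) ≤ ENNReal.ofReal (ε / 4) := by
    calc _ ≤ ∑ k ∈ Finset.range n, volume ((T^[k+1]) ⁻¹' (P2 a κ)) := measure_biUnion_finset_le _ _
      _ = ∑ k ∈ Finset.range n, volume (P2 a κ) := by
          apply Finset.sum_congr rfl
          intro k _
          exact (hT.measurePreserving.iterate (k+1)).measure_preimage
            (measurableSet_P2 a κ).nullMeasurableSet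
      _ ≤ ∑ k ∈ Finset.range n, ENNReal.ofReal (4 * κ * Real.log |a| / |a| ^ 2) := by
          gcongr with k hk
          exact volume_P2 ha3 hκ4
      _ = ENNReal.ofReal (n * (4 * κ * Real.log |a| / |a| ^ 2)) := by
          rw [Finset.sum_const, Finset.card_range, nsmul_eq_mul, ENNReal.ofReal_mul (by positivity),
            ENNReal.ofReal_natCast]
      _ ≤ _ := by
          apply ENNReal.ofReal_le_ofReal
          calc n * (4 * κ * Real.log |a| / |a| ^ 2) ≤
                (ε / (16 * κ) * (|a| ^ 2 / Real.log |a|)) * (4 * κ * Real.log |a| / |a| ^ 2) := by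
                gcongr
            _ = ε / 4 := by field_simp; ring
  have hB2 : volume (Bad2 a M (ε / 8) T n) ≤ ENNReal.ofReal (ε / 4) := by
    refine (volume_Bad2 ha1' (by positivity) hT (by omega)).trans ?_
    apply ENNReal.ofReal_le_ofReal
    rw [div_le_iff₀ (by positivity)]
    linarith
  have hB3 : volume (Bad3 M (ε / 8) T n) ≤ ENNReal.ofReal (ε / 4) := by
    refine (volume_Bad3 hM1 (by positivity) hT (by omega) (hlln a ha1 T hT n hn1)).trans ?_
    apply ENNReal.ofReal_le_ofReal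
    apply le_of_eq
    field_simp
  have hBv : volume B ≤ ENNReal.ofReal ε := by
    calc volume B ≤ volume ((⋃ k ∈ Finset.range n, (T^[k+1]) ⁻¹' (P2 a κ)) ∪
          Bad2 a M (ε / 8) T n) + volume (Bad3 M (ε / 8) T n) := measure_union_le _ _
      _ ≤ (volume (⋃ k ∈ Finset.range n, (T^[k+1]) ⁻¹' (P2 a κ)) +
          volume (Bad2 a M (ε / 8) T n)) + volume (Bad3 M (ε / 8) T n) := by
          gcongr; exact measure_union_le _ _
      _ ≤ (ENNReal.ofReal (ε / 4) + ENNReal.ofReal (ε / 4)) + ENNReal.ofReal (ε / 4) :=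
          add_le_add (add_le_add hB1 hB2) hB3
      _ = ENNReal.ofReal (ε / 4 + ε / 4 + ε / 4) := by
          rw [ENNReal.ofReal_add (by positivity) (by positivity),
            ENNReal.ofReal_add (by positivity) (by positivity)]
      _ ≤ _ := ENNReal.ofReal_le_ofReal (by linarith)
  refine (volume_pre_le hBm (fun p hp => hp.1) ?_).trans hBv
  rintro p ⟨-, hp⟩
  by_contra hnB
  rw [hB, mem_union, mem_union, not_or, not_or] at hnB
  obtain ⟨⟨hn1B, hn2B⟩, hn3B⟩ := hnB
  -- the orbit
  set x : ℕ → UnitAddCircle := fun k => (T^[k] (mk2 p)).1 with hx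
  have hxk : ∀ k, x k = (((F a)^[k] p).1 : UnitAddCircle) := by
    intro k
    rw [hx]; simp only
    rw [mk2_iter hT]
    rfl
  have hphi : ∀ k, phi a ((F a)^[k] p).1 = Phi a (x k) := by
    intro k
    rw [hxk, Phi_coe]
  have hpair : ∀ k, k + 1 < n → κ ≤ |Phi a (x k) * Phi a (x (k+1))| := by
    intro k hk
    by_contra hcon
    push Not at hcon
    apply hn1B
    simp only [mem_iUnion, Finset.mem_range]
    refine ⟨k, by omega, ?_⟩
    rw [mem_preimage, P2, mem_ofPred_eq]
    have : (T^[k+1] (mk2 p)).2 = (T^[k] (mk2 p)).1 := by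
      rw [Function.iterate_succ_apply', std_snd hT]
    rw [this, mul_comm]
    exact hcon
  have hne : ∀ k < n, Phi a (x k) ≠ 0 := by
    intro k hk h0
    rcases Nat.lt_or_ge (k + 1) n with h | h
    · have := hpair k h
      rw [h0, zero_mul, abs_zero] at this
      linarith
    · have h1 := hpair (k - 1) (by omega)
      rw [show k - 1 + 1 = k by omega, h0, mul_zero, abs_zero] at h1
      linarith
  have hfd : fderiv ℝ ((F a)^[n]) p = D a n p := (hasFDerivAt_iter a n p).fderiv
  rw [hfd] at hp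
  have hlow := norm_D_ge (a := a) hκ4 p (n := n) (by omega) (fun k hk => by
    rw [hphi, hphi]; exact hpair k hk)
  have hup := norm_D_le a n p
  simp only [hphi] at hlow hup
  have hq : 1 / 2 ≤ 1 - 2 / κ := by
    have : 2 / κ ≤ 1 / 2 := by
      rw [div_le_div_iff₀ hκ0 (by norm_num)]; linarith
    linarith
  have hprodpos : 0 < (∏ k ∈ Finset.range n, |Phi a (x k)|) * (1 - 2 / κ) ^ n := by
    apply mul_pos
    · apply Finset.prod_pos
      intro k hk
      exact abs_pos.2 (hne k (Finset.mem_range.1 hk))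
    · apply pow_pos; linarith
  have hDpos : 0 < ‖D a n p‖ := lt_of_lt_of_le hprodpos hlow
  have hloglow : ∑ k ∈ Finset.range n, Real.log |Phi a (x k)| + n * Real.log (1 - 2 / κ) ≤
      Real.log ‖D a n p‖ := by
    have h1 := Real.log_le_log hprodpos hlow
    rw [Real.log_mul, Real.log_prod, Real.log_pow] at h1
    · exact h1
    · intro k hk
      exact (abs_pos.2 (hne k (Finset.mem_range.1 hk))).ne'
    · exact (Finset.prod_pos (fun k hk => abs_pos.2 (hne k (Finset.mem_range.1 hk)))).ne'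
    · apply pow_ne_zero; linarith
  have hlogup : Real.log ‖D a n p‖ ≤ ∑ k ∈ Finset.range n, Real.log (|Phi a (x k)| + 1) := by
    have h1 := Real.log_le_log hDpos hup
    rw [Real.log_prod] at h1
    · exact h1
    · intro k hk
      positivity
  have hlogκ : -(ε / 8) ≤ Real.log (1 - 2 / κ) := by
    have h1 := Real.one_sub_inv_le_log_of_pos (x := 1 - 2 / κ) (by linarith)
    have h2 : (1 - 2 / κ)⁻¹ ≤ 1 + 4 / κ := by
      rw [inv_le_comm₀ (by linarith) (by positivity)]
      rw [inv_le_iff_one_le_mul₀ (by positivity)]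
      have h3 : (1 - 2 / κ) * (1 + 4 / κ) = 1 + 2 / κ - 8 / κ ^ 2 := by
        field_simp; ring
      rw [h3]
      have h4 : 8 / κ ^ 2 ≤ 2 / κ := by
        rw [div_le_div_iff₀ (by positivity) hκ0]
        nlinarith
      linarith
    linarith
  -- the sums
  set ū := ∫ q : T2, uM M q.1 with hu
  have hubar : |ū| ≤ ε / 8 := by
    rw [hu, mean_T2]
    exact (mean_uM hM1).trans hM2
  have hS3 : |BS T (fun p => uM M p.1 - ū) n (mk2 p)| < ε / 8 * n := by
    rw [Bad3, mem_ofPred_eq, not_le] at hn3B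
    exact hn3B
  have hS2 : BS T (fun p => tA a M p.1) n (mk2 p) < ε / 8 * n := by
    rw [Bad2, mem_ofPred_eq, not_le] at hn2B
    exact hn2B
  have hBS3 : BS T (fun p => uM M p.1 - ū) n (mk2 p) = (∑ k ∈ Finset.range n, uM M (x k)) - n * ū := by
    unfold BS
    rw [Finset.sum_sub_distrib, Finset.sum_const, Finset.card_range, nsmul_eq_mul]
  have hBS2 : BS T (fun p => tA a M p.1) n (mk2 p) = ∑ k ∈ Finset.range n, tA a M (x k) := rfl
  rw [hBS3] at hS3
  rw [hBS2] at hS2
  have hlow2 : n * Real.log (π * |a|) + (∑ k ∈ Finset.range n, uM M (x k)) -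
      n * (Real.exp M / |a|) - (∑ k ∈ Finset.range n, tA a M (x k)) ≤
      ∑ k ∈ Finset.range n, Real.log |Phi a (x k)| := by
    have h1 := Finset.sum_le_sum (s := Finset.range n) (fun k hk =>
      log_Phi_ge (M := M) ha1' (hne k (Finset.mem_range.1 hk)))
    rw [Finset.sum_sub_distrib, Finset.sum_sub_distrib, Finset.sum_add_distrib, Finset.sum_const,
      Finset.sum_const, Finset.card_range, nsmul_eq_mul, nsmul_eq_mul] at h1
    exact h1
  have hup2 : ∑ k ∈ Finset.range n, Real.log (|Phi a (x k)| + 1) ≤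
      n * Real.log (π * |a|) + (∑ k ∈ Finset.range n, uM M (x k)) + n * (Real.exp M / |a|) := by
    have h1 := Finset.sum_le_sum (s := Finset.range n) (fun k _ =>
      log_Phi_le (M := M) ha1' (x k))
    rw [Finset.sum_add_distrib, Finset.sum_add_distrib, Finset.sum_const,
      Finset.sum_const, Finset.card_range, nsmul_eq_mul, nsmul_eq_mul] at h1
    exact h1
  have habs3 := abs_lt.1 hS3
  have habsu := abs_le.1 hubar
  have hfinal : |Real.log ‖D a n p‖ / n - Real.log (π * |a|)| ≤ ε := by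
    have e : Real.log ‖D a n p‖ / n - Real.log (π * |a|) =
        (Real.log ‖D a n p‖ - n * Real.log (π * |a|)) / n := by field_simp
    rw [e, abs_div, abs_of_pos hn0, div_le_iff₀ hn0, abs_le]
    have k1 : (n:ℝ) * (Real.exp M / |a|) ≤ n * (ε / 8) := by gcongr
    have k2 : (n:ℝ) * (-(ε / 8)) ≤ n * Real.log (1 - 2 / κ) := by gcongr
    have k3 : (n:ℝ) * ū ≤ n * (ε / 8) := by gcongr; exact habsu.2
    have k4 : (n:ℝ) * (-(ε / 8)) ≤ n * ū := by gcongr; exact habsu.1
    constructor
    · nlinarith [habs3.1, habs3.2]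
    · nlinarith [habs3.1, habs3.2]
  linarith

end Pool.Agent.Helper78.SM
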