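import Mathlib
import Pool.Agent.Helper78.SM.SliceA
import Pool.Agent.Helper78.SM.Fin

set_option autoImplicit false
open Real MeasureTheory Set
open scoped ENNReal

namespace Pool.Agent.Helper78.SM

open Pool.Agent.Helper53.SM (T2 IsStd)

attribute [local instance] Pool.Agent.Helper53.SM.instProbU Pool.Agent.Helper53.SM.instProbT2

/-- one random step -/
noncomputable def Sw (a w : ℝ) (q : ℝ × ℝ) : ℝ × ℝ := F a (q.1 + w, q.2)

/-- random composition -/
noncomputable def X (a : ℝ) (ω : ℕ → ℝ) : ℕ → ℝ × ℝ → ℝ × ℝ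
  | 0, p => p
  | k + 1, p => Sw a (ω k) (X a ω k p)

noncomputable def zc (a : ℝ) (ω : ℕ → ℝ) (k : ℕ) (p : ℝ × ℝ) : ℝ := (X a ω k p).1 + ω k

lemma X_succ (a : ℝ) (ω : ℕ → ℝ) (k : ℕ) (p : ℝ × ℝ) :
    X a ω (k+1) p = (psi a (zc a ω k p) - (X a ω k p).2, zc a ω k p) := by
  show F a ((X a ω k p).1 + ω k, (X a ω k p).2) = _
  unfold F psi zc
  simp only [Prod.mk.injEq, and_true]
  ring

lemma X_succ_snd (a : ℝ) (ω : ℕ → ℝ) (k : ℕ) (p : ℝ × ℝ) :
    (X a ω (k+1) p).2 = zc a ω k p := by rw [X_succ]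

lemma zc_succ (a : ℝ) (ω : ℕ → ℝ) (k : ℕ) (p : ℝ × ℝ) :
    zc a ω (k+1) p = psi a (zc a ω k p) - (X a ω k p).2 + ω (k+1) := by
  rw [zc, X_succ]

/-- the vector sequence -/
noncomputable def vv (a : ℝ) (ω : ℕ → ℝ) (p : ℝ × ℝ) : ℕ → ℝ
  | 0 => 0
  | 1 => 1
  | i + 2 => phi a (zc a ω i p) * vv a ω p (i+1) - vv a ω p i

lemma vv_rec (a : ℝ) (ω : ℕ → ℝ) (p : ℝ × ℝ) (i : ℕ) :
    vv a ω p (i+2) = phi a (zc a ω i p) * vv a ω p (i+1) - vv a ω p i := by
  rw [vv]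

/-- the derivative -/
noncomputable def DX (a : ℝ) (ω : ℕ → ℝ) : ℕ → ℝ × ℝ → (ℝ × ℝ →L[ℝ] ℝ × ℝ)
  | 0, _ => ContinuousLinearMap.id ℝ (ℝ × ℝ)
  | k + 1, p => (L (phi a (zc a ω k p))).comp (DX a ω k p)

lemma hasFDerivAt_Sw (a w : ℝ) (q : ℝ × ℝ) :
    HasFDerivAt (Sw a w) (L (phi a (q.1 + w))) q := by
  have h1 : HasFDerivAt (fun q : ℝ × ℝ => (q.1 + w, q.2)) (ContinuousLinearMap.id ℝ (ℝ × ℝ)) q := by
    have h2 : HasFDerivAt (fun q : ℝ × ℝ => q.1 + w) (ContinuousLinearMap.fst ℝ ℝ ℝ) q :=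
      hasFDerivAt_fst.add_const w
    have h3 : HasFDerivAt (fun q : ℝ × ℝ => q.2) (ContinuousLinearMap.snd ℝ ℝ ℝ) q := hasFDerivAt_snd
    refine (h2.prodMk h3).congr_fderiv ?_
    ext <;> simp
  have h4 := (hasFDerivAt_F a (q.1 + w, q.2)).comp q h1
  rw [ContinuousLinearMap.comp_id] at h4
  exact h4

lemma hasFDerivAt_X (a : ℝ) (ω : ℕ → ℝ) (k : ℕ) (p : ℝ × ℝ) :
    HasFDerivAt (X a ω k) (DX a ω k p) p := by
  induction k with
  | zero => exact hasFDerivAt_id p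
  | succ k ih => exact (hasFDerivAt_Sw a (ω k) (X a ω k p)).comp p ih

lemma DX_apply (a : ℝ) (ω : ℕ → ℝ) (k : ℕ) (p : ℝ × ℝ) :
    DX a ω k p (1, 0) = (vv a ω p (k+1), vv a ω p k) := by
  induction k with
  | zero => simp [DX, vv]
  | succ k ih =>
    rw [DX, ContinuousLinearMap.comp_apply, ih, L_apply, vv_rec]

lemma norm_DX_le (a : ℝ) (ω : ℕ → ℝ) (n : ℕ) (p : ℝ × ℝ) :
    ‖DX a ω n p‖ ≤ ∏ k ∈ Finset.range n, (|phi a (zc a ω k p)| + 1) := by
  induction n with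
  | zero => simpa [DX] using ContinuousLinearMap.norm_id_le (𝕜 := ℝ) (E := ℝ × ℝ)
  | succ n ih =>
    rw [Finset.prod_range_succ, mul_comm]
    calc ‖DX a ω (n+1) p‖ ≤ ‖L (phi a (zc a ω n p))‖ * ‖DX a ω n p‖ :=
          ContinuousLinearMap.opNorm_comp_le _ _
      _ ≤ _ := by
          gcongr
          exact norm_L_le _

/-- the size of the vector -/
noncomputable def VV (a : ℝ) (ω : ℕ → ℝ) (p : ℝ × ℝ) (k : ℕ) : ℝ :=
  max |vv a ω p (k+1)| |vv a ω p k|

lemma VV_le_norm (a : ℝ) (ω : ℕ → ℝ) (n : ℕ) (p : ℝ × ℝ) : VV a ω p n ≤ ‖DX a ω n p‖ := by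
  have h2 := (DX a ω n p).le_opNorm (1, 0)
  have h3 : ‖((1:ℝ), (0:ℝ))‖ = 1 := by simp [Prod.norm_def]
  rw [h3, mul_one, DX_apply, Prod.norm_def] at h2
  exact h2

lemma VV_step_bad (a : ℝ) (ω : ℕ → ℝ) (p : ℝ × ℝ) (k : ℕ) :
    VV a ω p k ≤ (|phi a (zc a ω k p)| + 1) * VV a ω p (k+1) := by
  unfold VV
  have h1 : |vv a ω p (k+1)| ≤ max |vv a ω p (k+1+1)| |vv a ω p (k+1)| := le_max_right _ _
  have h2 : |vv a ω p (k+2)| ≤ max |vv a ω p (k+1+1)| |vv a ω p (k+1)| := le_max_left _ _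
  set M := max |vv a ω p (k+1+1)| |vv a ω p (k+1)| with hM
  have hM0 : 0 ≤ M := (abs_nonneg _).trans h1
  set f := phi a (zc a ω k p) with hf
  have hf0 := abs_nonneg f
  apply max_le
  · nlinarith
  · have e : vv a ω p k = f * vv a ω p (k+1) - vv a ω p (k+2) := by rw [vv_rec]; ring
    rw [e]
    calc |f * vv a ω p (k+1) - vv a ω p (k+2)| ≤ |f * vv a ω p (k+1)| + |vv a ω p (k+2)| := abs_sub _ _
      _ = |f| * |vv a ω p (k+1)| + |vv a ω p (k+2)| := by rw [abs_mul]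
      _ ≤ |f| * M + M := by gcongr
      _ = _ := by ring

lemma VV_pos (a : ℝ) (ω : ℕ → ℝ) (p : ℝ × ℝ) (k : ℕ) : 0 < VV a ω p k := by
  induction k with
  | zero => simp [VV, vv]
  | succ k ih =>
    have h1 := VV_step_bad a ω p k
    by_contra hcon
    push Not at hcon
    have h2 : 0 ≤ |phi a (zc a ω k p)| := abs_nonneg _
    have : (|phi a (zc a ω k p)| + 1) * VV a ω p (k+1) ≤ 0 :=
      mul_nonpos_of_nonneg_of_nonpos (by linarith) hcon
    linarith

lemma VV_step_good {a : ℝ} {ω : ℕ → ℝ} {p : ℝ × ℝ} {k : ℕ}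
    (h : |vv a ω p k| ≤ |vv a ω p (k+1)|) :
    max (|phi a (zc a ω k p)| - 1) 1 * VV a ω p k ≤ VV a ω p (k+1) := by
  unfold VV
  rw [max_eq_left h]
  set f := phi a (zc a ω k p) with hf
  have h0 := abs_nonneg (vv a ω p (k+1))
  rw [max_mul_of_nonneg _ _ h0, one_mul]
  apply max_le_max
  · show (|f| - 1) * |vv a ω p (k+1)| ≤ |vv a ω p (k+2)|
    rw [vv_rec]
    have h1 := abs_sub_abs_le_abs_sub (f * vv a ω p (k+1)) (vv a ω p k)
    rw [abs_mul] at h1
    linarith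
  · exact le_rfl

/-- gain function -/
noncomputable def gg (t : ℝ) : ℝ := Real.log (max (|t| - 1) 1)

lemma gg_nonneg (t : ℝ) : 0 ≤ gg t := Real.log_nonneg (le_max_right _ _)

open Classical in
/-- pathwise lower bound -/
lemma log_DX_ge {a : ℝ} (ha : 1 ≤ |a|) (ω : ℕ → ℝ) (p : ℝ × ℝ) (n : ℕ) :
    ∑ k ∈ Finset.range n, (gg (phi a (zc a ω k p)) -
      (if |vv a ω p (k+1)| < |vv a ω p k| then 2 * Real.log (10 * |a|) else 0)) ≤
      Real.log ‖DX a ω n p‖ := by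
  have h1 : ∑ k ∈ Finset.range n, (gg (phi a (zc a ω k p)) -
      (if |vv a ω p (k+1)| < |vv a ω p k| then 2 * Real.log (10 * |a|) else 0)) ≤
      ∑ k ∈ Finset.range n, (Real.log (VV a ω p (k+1)) - Real.log (VV a ω p k)) := by
    apply Finset.sum_le_sum
    intro k _
    have hV := VV_pos a ω p k
    have hV1 := VV_pos a ω p (k+1)
    set f := phi a (zc a ω k p) with hf
    have hfup : |f| ≤ 9 * |a| := abs_phi_le ha _
    split_ifs with hbad
    · have h2 := VV_step_bad a ω p k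
      rw [← hf] at h2
      have h3 : Real.log (VV a ω p k) ≤ Real.log (|f| + 1) + Real.log (VV a ω p (k+1)) := by
        rw [← Real.log_mul (by positivity) hV1.ne']
        exact Real.log_le_log hV h2
      have h4 : Real.log (|f| + 1) ≤ Real.log (10 * |a|) :=
        Real.log_le_log (by positivity) (by linarith)
      have h5 : gg f ≤ Real.log (10 * |a|) := by
        unfold gg
        apply Real.log_le_log (lt_max_of_lt_right one_pos)
        apply max_le <;> linarith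
      linarith
    · push Not at hbad
      have h2 := VV_step_good (a := a) (ω := ω) (p := p) (k := k) hbad
      rw [← hf] at h2
      have h3 : gg f + Real.log (VV a ω p k) ≤ Real.log (VV a ω p (k+1)) := by
        unfold gg
        rw [← Real.log_mul (ne_of_gt (lt_max_of_lt_right one_pos)) hV.ne']
        exact Real.log_le_log (mul_pos (lt_max_of_lt_right one_pos) hV) h2
      linarith
  refine h1.trans ?_
  rw [Finset.sum_range_sub (fun k => Real.log (VV a ω p k))]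
  have h0 : VV a ω p 0 = 1 := by simp [VV, vv]
  rw [h0, Real.log_one, sub_zero]
  exact Real.log_le_log (VV_pos _ _ _ _) (VV_le_norm _ _ _ _)

lemma DX_norm_pos (a : ℝ) (ω : ℕ → ℝ) (n : ℕ) (p : ℝ × ℝ) : 0 < ‖DX a ω n p‖ :=
  lt_of_lt_of_le (VV_pos a ω p n) (VV_le_norm a ω n p)

/-- translation in the first coordinate -/
def shift (w : ℝ) (q : T2) : T2 := (q.1 + (w : UnitAddCircle), q.2)

lemma mp_shift (w : ℝ) : MeasurePreserving (shift w) (volume : Measure T2) volume := by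
  have h1 : MeasurePreserving (fun x : UnitAddCircle => x + (w : UnitAddCircle)) volume volume :=
    measurePreserving_add_right volume _
  exact h1.prod (MeasurePreserving.id volume)

/-- torus orbit -/
noncomputable def tau (a : ℝ) (ω : ℕ → ℝ) : ℕ → T2 → T2
  | 0, q => shift (ω 0) q
  | k + 1, q => shift (ω (k+1)) (std a (tau a ω k q))

lemma mp_tau (a : ℝ) (ω : ℕ → ℝ) (k : ℕ) :
    MeasurePreserving (tau a ω k) (volume : Measure T2) volume := by
  induction k with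
  | zero => exact mp_shift _
  | succ k ih => exact (mp_shift _).comp (((std_isStd a).measurePreserving).comp ih)

lemma tau_mk2 (a : ℝ) (ω : ℕ → ℝ) (k : ℕ) (p : ℝ × ℝ) :
    tau a ω k (mk2 p) = mk2 (zc a ω k p, (X a ω k p).2) := by
  induction k with
  | zero => simp [tau, shift, mk2, zc, X]
  | succ k ih =>
    rw [tau, ih, mk2_F (std_isStd a), zc_succ, X_succ_snd]
    unfold F shift mk2 psi
    simp only [Prod.mk.injEq, and_true]
    rw [← AddCircle.coe_add]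
    congr 1
    ring

/-- the square -/
def sq : Set (ℝ × ℝ) := Ioc (0:ℝ) 1 ×ˢ Ioc (0:ℝ) 1

lemma vol_tau {a : ℝ} (ω : ℕ → ℝ) (k : ℕ) {B : Set T2} (hB : MeasurableSet B)
    {s : Set (ℝ × ℝ)} (hs : s ⊆ sq)
    (hsB : ∀ p ∈ s, mk2 (zc a ω k p, (X a ω k p).2) ∈ B) : volume s ≤ volume B := by
  rw [← (mp_tau a ω k).measure_preimage hB.nullMeasurableSet]
  apply volume_pre_le ((mp_tau a ω k).measurable hB) hs
  intro p hp
  rw [mem_preimage, tau_mk2]
  exact hsB p hp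

end Pool.Agent.Helper78.SM
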