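import Mathlib
import Pool.Agent.Helper78.SM.Orbit

set_option autoImplicit false
open Real MeasureTheory Set
open scoped ENNReal

namespace Pool.Agent.Helper78.SM

open Pool.Agent.Helper53.SM (T2 IsStd)

attribute [local instance] Pool.Agent.Helper53.SM.instProbU Pool.Agent.Helper53.SM.instProbT2

lemma continuous_psi (a : ℝ) : Continuous (psi a) := by unfold psi; fun_prop
lemma continuous_phi (a : ℝ) : Continuous (phi a) := by unfold phi; fun_prop
lemma continuous_dphi (a : ℝ) : Continuous (dphi a) := by unfold dphi; fun_prop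

lemma cont_X (a : ℝ) (k : ℕ) : Continuous (fun q : (ℕ → ℝ) × (ℝ × ℝ) => X a q.1 k q.2) := by
  induction k with
  | zero => exact continuous_snd
  | succ k ih =>
    have h1 : Continuous (fun q : (ℕ → ℝ) × (ℝ × ℝ) => zc a q.1 k q.2) := by
      unfold zc
      exact (continuous_fst.comp ih).add ((continuous_apply k).comp continuous_fst)
    simp only [X_succ]
    exact (((continuous_psi a).comp h1).sub (continuous_snd.comp ih)).prodMk h1

lemma cont_zc (a : ℝ) (k : ℕ) : Continuous (fun q : (ℕ → ℝ) × (ℝ × ℝ) => zc a q.1 k q.2) := by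
  unfold zc
  exact (continuous_fst.comp (cont_X a k)).add ((continuous_apply k).comp continuous_fst)

lemma cont_phiz (a : ℝ) (k : ℕ) :
    Continuous (fun q : (ℕ → ℝ) × (ℝ × ℝ) => phi a (zc a q.1 k q.2)) :=
  (continuous_phi a).comp (cont_zc a k)

lemma cont_vv (a : ℝ) (k : ℕ) : Continuous (fun q : (ℕ → ℝ) × (ℝ × ℝ) => vv a q.1 q.2 k) := by
  induction k using Nat.strong_induction_on with
  | _ k ih =>
    match k, ih with
    | 0, _ => simp only [vv]; exact continuous_const
    | 1, _ => simp only [vv]; exact continuous_const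
    | (k+2), ih =>
      simp only [vv_rec]
      exact ((cont_phiz a k).mul (ih (k+1) (by omega))).sub (ih k (by omega))

lemma meas_phiz (a : ℝ) (ω : ℕ → ℝ) (k : ℕ) : Measurable (fun p : ℝ × ℝ => phi a (zc a ω k p)) := by
  have h1 : Continuous (fun p : ℝ × ℝ => (ω, p)) := continuous_const.prodMk continuous_id
  exact ((cont_phiz a k).comp h1).measurable

lemma vol_pair {a : ℝ} (ha : 3 ≤ |a|) (ω : ℕ → ℝ) (k : ℕ) :
    volume {p : ℝ × ℝ | p ∈ sq ∧ |phi a (zc a ω k p) * phi a (zc a ω (k+1) p)| < 4096} ≤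
      ENNReal.ofReal (4 * 4096 * Real.log |a| / |a| ^ 2) := by
  refine (vol_tau (a := a) ω (k+1) (measurableSet_P2 a 4096) (fun p hp => hp.1) ?_).trans
    (volume_P2 ha (by norm_num))
  intro p hp
  rw [P2, mem_ofPred_eq, X_succ_snd]
  show |Phi a ((zc a ω (k+1) p : ℝ) : UnitAddCircle) * Phi a ((zc a ω k p : ℝ) : UnitAddCircle)| < 4096
  rw [Phi_coe, Phi_coe, mul_comm]
  exact hp.2

lemma vol_small {a s : ℝ} (ha : 1 ≤ |a|) (hs : 0 ≤ s) (ω : ℕ → ℝ) (k : ℕ) :
    volume {p : ℝ × ℝ | p ∈ sq ∧ |phi a (zc a ω k p)| < s} ≤ ENNReal.ofReal (s / (2 * |a|)) := by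
  have hm : MeasurableSet ({θ : UnitAddCircle | |Phi a θ| ≤ s} ×ˢ (univ : Set UnitAddCircle)) := by
    apply MeasurableSet.prod _ MeasurableSet.univ
    exact measurableSet_le (continuous_abs.measurable.comp (measurable_Phi a)) measurable_const
  have h1 := vol_tau (a := a) ω k hm (s := {p : ℝ × ℝ | p ∈ sq ∧ |phi a (zc a ω k p)| < s})
    (fun p hp => hp.1) (by
      intro p hp
      refine ⟨?_, mem_univ _⟩
      show |Phi a ((zc a ω k p : ℝ) : UnitAddCircle)| ≤ s
      rw [Phi_coe]
      exact hp.2.le)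
  refine h1.trans ?_
  rw [Measure.volume_eq_prod, Measure.prod_prod, UnitAddCircle.measure_univ, mul_one]
  exact sublevel_Phi ha hs

lemma snn_eq (θ : UnitAddCircle) : snn θ = csn (θ - ((1/4 : ℝ) : UnitAddCircle)) := by
  obtain ⟨x, rfl⟩ : ∃ x : ℝ, (x : UnitAddCircle) = θ := QuotientAddGroup.mk_surjective θ
  rw [← AddCircle.coe_sub, csn_coe, snn_coe]
  rw [show 2 * π * (x - 1/4) = 2 * π * x - π / 2 by ring, Real.cos_sub_pi_div_two]

lemma sublevel_snn {t : ℝ} (ht : 0 ≤ t) :
    volume {θ : UnitAddCircle | |snn θ| ≤ t} ≤ ENNReal.ofReal (5 / 2 * t) := by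
  have h1 := sublevel (c := 0) (t := t) (by norm_num) ht
  have h2 : MeasurePreserving (fun θ : UnitAddCircle => θ - ((1/4 : ℝ) : UnitAddCircle))
      volume volume := measurePreserving_sub_right volume _
  have h3 : MeasurableSet {θ : UnitAddCircle | |csn θ - 0| ≤ t} :=
    measurableSet_le (continuous_abs.measurable.comp (measurable_csn.sub_const 0)) measurable_const
  have h4 := h2.measure_preimage h3.nullMeasurableSet
  have e : (fun θ : UnitAddCircle => θ - ((1/4 : ℝ) : UnitAddCircle)) ⁻¹'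
      {θ : UnitAddCircle | |csn θ - 0| ≤ t} = {θ : UnitAddCircle | |snn θ| ≤ t} := by
    ext θ
    rw [mem_preimage, mem_ofPred_eq, mem_ofPred_eq, snn_eq, sub_zero]
  rw [e] at h4
  rw [h4]
  exact h1

lemma continuous_snn : Continuous snn := by
  unfold snn
  have h : Continuous (fun z : Circle => (z : ℂ)) := by fun_prop
  exact Complex.continuous_im.comp (h.comp AddCircle.continuous_toCircle)

lemma vol_dphi {a b : ℝ} (hb : 100 ≤ b) (hab : |a| = b ^ 10) (ω : ℕ → ℝ) (k : ℕ) :
    volume {p : ℝ × ℝ | p ∈ sq ∧ |dphi a (zc a ω k p)| < 2 * b ^ 9} ≤ ENNReal.ofReal (1 / b) := by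
  have hb0 : 0 < b := by linarith
  have hm : MeasurableSet ({θ : UnitAddCircle | |snn θ| ≤ 1 / (18 * b)} ×ˢ
      (univ : Set UnitAddCircle)) := by
    apply MeasurableSet.prod _ MeasurableSet.univ
    exact measurableSet_le (continuous_abs.comp continuous_snn).measurable measurable_const
  have h1 := vol_tau (a := a) ω k hm
    (s := {p : ℝ × ℝ | p ∈ sq ∧ |dphi a (zc a ω k p)| < 2 * b ^ 9})
    (fun p hp => hp.1) (by
      intro p hp
      refine ⟨?_, mem_univ _⟩
      show |snn ((zc a ω k p : ℝ) : UnitAddCircle)| ≤ 1 / (18 * b)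
      rw [snn_coe]
      have h2 := hp.2
      unfold dphi at h2
      rw [abs_neg, abs_mul, abs_mul, hab, abs_of_pos (by positivity : (0:ℝ) < 4 * π ^ 2)] at h2
      have hpi := Real.pi_gt_three
      have h3 : 36 * b ^ 10 * |Real.sin (2 * π * zc a ω k p)| ≤ 2 * b ^ 9 := by
        refine le_trans ?_ h2.le
        have : 36 ≤ 4 * π ^ 2 := by nlinarith
        gcongr
      rw [le_div_iff₀ (by positivity)]
      have h4 : 2 * b ^ 9 * (|Real.sin (2 * π * zc a ω k p)| * (18 * b)) ≤ 2 * b ^ 9 * 1 := by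
        calc 2 * b ^ 9 * (|Real.sin (2 * π * zc a ω k p)| * (18 * b))
            = 36 * b ^ 10 * |Real.sin (2 * π * zc a ω k p)| := by ring
          _ ≤ 2 * b ^ 9 := h3
          _ = _ := by ring
      exact le_of_mul_le_mul_left h4 (by positivity))
  refine h1.trans ?_
  rw [Measure.volume_eq_prod, Measure.prod_prod, UnitAddCircle.measure_univ, mul_one]
  refine (sublevel_snn (by positivity)).trans ?_
  apply ENNReal.ofReal_le_ofReal
  rw [mul_one_div, div_le_div_iff₀ (by positivity) hb0]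
  nlinarith

open Classical in
lemma vol_count {a b : ℝ} (hb : 100 ≤ b) (hab : |a| = b ^ 10) (ω : ℕ → ℝ) (j : ℕ) {N : ℕ}
    (hN : 0 < N) :
    volume {p : ℝ × ℝ | p ∈ sq ∧
      N < 10 * ((Finset.range N).filter (fun i => |phi a (zc a ω (j+i) p)| < b ^ 5)).card} ≤
      ENNReal.ofReal (1 / b) := by
  have hb0 : 0 < b := by linarith
  have ha1 : 1 ≤ |a| := by rw [hab]; exact one_le_pow₀ (by linarith)
  set S : ℕ → Set (ℝ × ℝ) := fun i => {p | |phi a (zc a ω (j+i) p)| < b ^ 5} with hS
  have hSm : ∀ i, MeasurableSet (S i) := fun i =>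
    measurableSet_lt (continuous_abs.measurable.comp (meas_phiz a ω (j+i))) measurable_const
  set μ := (volume : Measure (ℝ × ℝ)).restrict sq with hμ
  have hsq : MeasurableSet sq := measurableSet_Ioc.prod measurableSet_Ioc
  set g : ℝ × ℝ → ℝ≥0∞ := fun p => ∑ i ∈ Finset.range N, (S i).indicator 1 p with hg
  have hgm : Measurable g := Finset.measurable_sum _ (fun i _ =>
    measurable_one.indicator (hSm i))
  have hint : ∫⁻ p, g p ∂μ ≤ N * ENNReal.ofReal (1 / (2 * b ^ 5)) := by
    rw [hg]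
    rw [lintegral_finsetSum]
    · calc ∑ i ∈ Finset.range N, ∫⁻ p, (S i).indicator 1 p ∂μ
          ≤ ∑ i ∈ Finset.range N, ENNReal.ofReal (1 / (2 * b ^ 5)) := by
            apply Finset.sum_le_sum
            intro i _
            rw [lintegral_indicator_one (hSm i), hμ, Measure.restrict_apply (hSm i)]
            have h1 := vol_small (s := b ^ 5) ha1 (by positivity) ω (j+i)
            have e : S i ∩ sq = {p : ℝ × ℝ | p ∈ sq ∧ |phi a (zc a ω (j+i) p)| < b ^ 5} := by
              ext p; rw [mem_inter_iff, and_comm]; rfl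
            rw [e]
            refine h1.trans ?_
            apply ENNReal.ofReal_le_ofReal
            rw [hab, div_le_div_iff₀ (by positivity) (by positivity)]
            apply le_of_eq; ring
        _ = _ := by rw [Finset.sum_const, Finset.card_range, nsmul_eq_mul]
    · intro i _
      exact measurable_one.indicator (hSm i)
  have hMar := meas_ge_le_lintegral_div (μ := μ) hgm.aemeasurable (ε := (N:ℝ≥0∞) / 10)
    (by
      rw [Ne, ENNReal.div_eq_zero_iff]
      push Not
      exact ⟨by exact_mod_cast hN.ne', by norm_num⟩)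
    (by
      rw [Ne, ENNReal.div_eq_top]
      push Not
      exact ⟨fun _ => by norm_num, fun h => absurd h (ENNReal.natCast_ne_top N)⟩)
  have hsub : {p : ℝ × ℝ | p ∈ sq ∧
      N < 10 * ((Finset.range N).filter (fun i => |phi a (zc a ω (j+i) p)| < b ^ 5)).card} ⊆
      {p | (N:ℝ≥0∞) / 10 ≤ g p} ∩ sq := by
    intro p hp
    refine ⟨?_, hp.1⟩
    rw [mem_ofPred_eq]
    have e : g p = (((Finset.range N).filter
        (fun i => |phi a (zc a ω (j+i) p)| < b ^ 5)).card : ℝ≥0∞) := by
      rw [hg]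
      simp only
      rw [Finset.card_filter]
      push_cast
      apply Finset.sum_congr rfl
      intro i _
      rw [indicator_apply]
      rfl
    rw [e]
    apply ENNReal.div_le_of_le_mul
    have h2 := hp.2.le
    have h3 : ((N : ℕ) : ℝ≥0∞) ≤ ((10 * ((Finset.range N).filter
        (fun i => |phi a (zc a ω (j+i) p)| < b ^ 5)).card : ℕ) : ℝ≥0∞) := by exact_mod_cast h2
    push_cast at h3
    rw [mul_comm] at h3
    exact h3
  calc _ ≤ volume ({p | (N:ℝ≥0∞) / 10 ≤ g p} ∩ sq) := measure_mono hsub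
    _ = μ {p | (N:ℝ≥0∞) / 10 ≤ g p} := by
        rw [hμ, Measure.restrict_apply' hsq]
    _ ≤ (∫⁻ p, g p ∂μ) / ((N:ℝ≥0∞) / 10) := hMar
    _ ≤ (N * ENNReal.ofReal (1 / (2 * b ^ 5))) / ((N:ℝ≥0∞) / 10) := by gcongr
    _ ≤ ENNReal.ofReal (1 / b) := by
        apply ENNReal.div_le_of_le_mul
        have e2 : ((N:ℝ≥0∞) / 10) = ENNReal.ofReal ((N:ℝ) / 10) := by
          rw [ENNReal.ofReal_div_of_pos (by norm_num), ENNReal.ofReal_natCast]
          norm_num
        rw [e2, ← ENNReal.ofReal_mul (by positivity), ← ENNReal.ofReal_natCast N,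
          ← ENNReal.ofReal_mul (Nat.cast_nonneg N)]
        apply ENNReal.ofReal_le_ofReal
        have hN0 : (0:ℝ) < N := by exact_mod_cast hN
        have hb4 : (100:ℝ) ^ 4 ≤ b ^ 4 := pow_le_pow_left₀ (by norm_num) hb 4
        rw [mul_one_div, one_div_mul_eq_div, div_div, div_le_div_iff₀ (by positivity) (by positivity)]
        have : (N:ℝ) * (10 * b) ≤ N * (2 * b ^ 5) := by
          have : 10 * b ≤ 2 * b ^ 5 := by
            calc 10 * b ≤ 2 * b ^ 4 * b := by
                  have : (10:ℝ) ≤ 2 * b ^ 4 := by linarith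
                  gcongr
              _ = _ := by ring
          gcongr
        linarith

/-- atypical points -/
def At (a b : ℝ) (N : ℕ) (ω : ℕ → ℝ) (j : ℕ) : Set (ℝ × ℝ) :=
  {p | p ∈ sq ∧ ¬ Typ b N (fun i => phi a (zc a ω (j+i) p)) (dphi a (zc a ω j p))}

lemma vol_At {a b : ℝ} (hb : 100 ≤ b) (hab : |a| = b ^ 10) {N : ℕ} (hN : 1 ≤ N) (ω : ℕ → ℝ) (j : ℕ) :
    volume (At a b N ω j) ≤
      ENNReal.ofReal (N * (4 * 4096 * Real.log |a| / |a| ^ 2) + 7 / b) := by
  classical
  have hb0 : 0 < b := by linarith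
  have ha1 : 1 ≤ |a| := by rw [hab]; exact one_le_pow₀ (by linarith)
  have hpow : ∀ n : ℕ, (100:ℝ) ^ n ≤ b ^ n := fun n => pow_le_pow_left₀ (by norm_num) hb n
  have ha3 : 3 ≤ |a| := by
    rw [hab]; have := hpow 10; norm_num at this; linarith
  have hlog : 0 ≤ Real.log |a| := Real.log_nonneg ha1
  set U1 := ⋃ i ∈ Finset.range N, {p : ℝ × ℝ | p ∈ sq ∧
    |phi a (zc a ω (j+i) p) * phi a (zc a ω (j+i+1) p)| < 4096} with hU1
  set U2 := ⋃ i ∈ Finset.range 9, {p : ℝ × ℝ | p ∈ sq ∧ |phi a (zc a ω (j+i) p)| < b ^ 9} with hU2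
  set U3 := {p : ℝ × ℝ | p ∈ sq ∧ |dphi a (zc a ω j p)| < 2 * b ^ 9} with hU3
  set U4 := {p : ℝ × ℝ | p ∈ sq ∧ |phi a (zc a ω (j+(N-1)) p)| < 2} with hU4
  set U5 := {p : ℝ × ℝ | p ∈ sq ∧
      N < 10 * ((Finset.range N).filter (fun i => |phi a (zc a ω (j+i) p)| < b ^ 5)).card} with hU5
  have hsub : At a b N ω j ⊆ (((U1 ∪ U2) ∪ U3) ∪ U4) ∪ U5 := by
    rintro p ⟨hp, hnt⟩
    by_contra hcon
    rw [mem_union, mem_union, mem_union, mem_union, not_or, not_or, not_or, not_or] at hcon
    obtain ⟨⟨⟨⟨h1, h2⟩, h3⟩, h4⟩, h5⟩ := hcon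
    apply hnt
    refine ⟨?_, ?_, ?_, ?_, ?_⟩
    · intro i hi
      by_contra hc
      push Not at hc
      apply h1
      simp only [hU1, mem_iUnion, Finset.mem_range]
      exact ⟨i, by omega, hp, hc⟩
    · intro i hi
      by_contra hc
      push Not at hc
      apply h2
      simp only [hU2, mem_iUnion, Finset.mem_range]
      exact ⟨i, by omega, hp, hc⟩
    · by_contra hc
      push Not at hc
      exact h3 ⟨hp, hc⟩
    · by_contra hc
      push Not at hc
      exact h4 ⟨hp, hc⟩
    · by_contra hc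
      push Not at hc
      apply h5
      refine ⟨hp, ?_⟩
      convert hc
  have v1 : volume U1 ≤ ENNReal.ofReal (N * (4 * 4096 * Real.log |a| / |a| ^ 2)) := by
    calc volume U1 ≤ ∑ i ∈ Finset.range N, volume {p : ℝ × ℝ | p ∈ sq ∧
          |phi a (zc a ω (j+i) p) * phi a (zc a ω (j+i+1) p)| < 4096} := measure_biUnion_finset_le _ _
      _ ≤ ∑ i ∈ Finset.range N, ENNReal.ofReal (4 * 4096 * Real.log |a| / |a| ^ 2) := by
          gcongr with i hi
          exact vol_pair ha3 ω (j+i)
      _ = _ := by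
          rw [Finset.sum_const, Finset.card_range, nsmul_eq_mul,
            ENNReal.ofReal_mul (Nat.cast_nonneg N), ENNReal.ofReal_natCast]
  have v2 : volume U2 ≤ ENNReal.ofReal (9 / 2 / b) := by
    calc volume U2 ≤ ∑ i ∈ Finset.range 9, volume {p : ℝ × ℝ | p ∈ sq ∧
          |phi a (zc a ω (j+i) p)| < b ^ 9} := measure_biUnion_finset_le _ _
      _ ≤ ∑ i ∈ Finset.range 9, ENNReal.ofReal (1 / (2 * b)) := by
          gcongr with i hi
          refine (vol_small ha1 (by positivity) ω (j+i)).trans ?_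
          apply ENNReal.ofReal_le_ofReal
          rw [hab, div_le_div_iff₀ (by positivity) (by positivity)]
          apply le_of_eq; ring
      _ = _ := by
          rw [Finset.sum_const, Finset.card_range, nsmul_eq_mul]
          rw [show ((9:ℕ) : ℝ≥0∞) = ENNReal.ofReal 9 by norm_num, ← ENNReal.ofReal_mul (by norm_num)]
          congr 1; field_simp
  have v3 : volume U3 ≤ ENNReal.ofReal (1 / b) := vol_dphi hb hab ω j
  have v4 : volume U4 ≤ ENNReal.ofReal (1 / 4 / b) := by
    refine (vol_small ha1 (by norm_num) ω (j+(N-1))).trans ?_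
    apply ENNReal.ofReal_le_ofReal
    rw [hab]
    have h9 := hpow 9
    rw [div_div, div_le_div_iff₀ (by positivity) (by positivity)]
    have : b ^ 10 = b ^ 9 * b := by ring
    rw [this]
    have h10 : (4:ℝ) ≤ b ^ 9 := by norm_num at h9; linarith
    nlinarith
  have v5 : volume U5 ≤ ENNReal.ofReal (1 / b) := vol_count hb hab ω j hN
  calc volume (At a b N ω j) ≤ volume ((((U1 ∪ U2) ∪ U3) ∪ U4) ∪ U5) := measure_mono hsub
    _ ≤ (((volume U1 + volume U2) + volume U3) + volume U4) + volume U5 := by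
        refine (measure_union_le _ _).trans ?_
        gcongr
        refine (measure_union_le _ _).trans ?_
        gcongr
        refine (measure_union_le _ _).trans ?_
        gcongr
        exact measure_union_le _ _
    _ ≤ (((ENNReal.ofReal (N * (4 * 4096 * Real.log |a| / |a| ^ 2)) + ENNReal.ofReal (9 / 2 / b)) +
        ENNReal.ofReal (1 / b)) + ENNReal.ofReal (1 / 4 / b)) + ENNReal.ofReal (1 / b) := by
        gcongr
    _ = ENNReal.ofReal ((((N * (4 * 4096 * Real.log |a| / |a| ^ 2) + 9 / 2 / b) + 1 / b) +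
        1 / 4 / b) + 1 / b) := by
        have hh : 0 ≤ N * (4 * 4096 * Real.log |a| / |a| ^ 2) := by positivity
        rw [ENNReal.ofReal_add (by positivity) (by positivity),
          ENNReal.ofReal_add (by positivity) (by positivity),
          ENNReal.ofReal_add (by positivity) (by positivity),
          ENNReal.ofReal_add (by positivity) (by positivity)]
    _ ≤ _ := by
        apply ENNReal.ofReal_le_ofReal
        have : 9 / 2 / b + 1 / b + 1 / 4 / b + 1 / b ≤ 7 / b := by
          rw [← add_div, ← add_div, ← add_div]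
          gcongr; norm_num
        linarith

end Pool.Agent.Helper78.SM
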