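import Mathlib
import Pool.Agent.Helper78.SM.Atyp

set_option autoImplicit false
open Real MeasureTheory Set
open scoped ENNReal

namespace Pool.Agent.Helper78.SM

lemma cover_vol {ε M D : ℝ} (hM : 0 < M) {B : Set ℝ}
    (hB : B ⊆ Icc (-ε) ε) (h : ∀ t ∈ B, ∀ t' ∈ B, |t - t'| * M ≤ 1 → |t - t'| ≤ D) :
    volume B ≤ ((⌊2 * ε * M⌋₊ + 1 : ℕ) : ℝ≥0∞) * ENNReal.ofReal D := by
  set I : ℕ → Set ℝ := fun m => {t | ⌊(t + ε) * M⌋₊ = m} with hI
  have hcov : B ⊆ ⋃ m ∈ Finset.range (⌊2 * ε * M⌋₊ + 1), (B ∩ I m) := by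
    intro t ht
    simp only [mem_iUnion, Finset.mem_range]
    refine ⟨⌊(t + ε) * M⌋₊, ?_, ht, rfl⟩
    have h1 := (hB ht).2
    have h2 : ⌊(t + ε) * M⌋₊ ≤ ⌊2 * ε * M⌋₊ := by
      apply Nat.floor_le_floor
      gcongr
      linarith
    omega
  have hpiece : ∀ m, volume (B ∩ I m) ≤ ENNReal.ofReal D := by
    intro m
    refine (Real.volume_le_diam _).trans ?_
    apply Metric.ediam_le
    intro t ht t' ht'
    rw [edist_dist]
    apply ENNReal.ofReal_le_ofReal
    rw [Real.dist_eq]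
    apply h t ht.1 t' ht'.1
    have h1 : 0 ≤ (t + ε) * M := by
      have := (hB ht.1).1
      have : 0 ≤ t + ε := by linarith
      positivity
    have h2 : 0 ≤ (t' + ε) * M := by
      have := (hB ht'.1).1
      have : 0 ≤ t' + ε := by linarith
      positivity
    have h3 : ⌊(t + ε) * M⌋₊ = m := ht.2
    have h4 : ⌊(t' + ε) * M⌋₊ = m := ht'.2
    have h5 := Nat.floor_le h1
    have h6 := Nat.lt_floor_add_one ((t + ε) * M)
    have h7 := Nat.floor_le h2
    have h8 := Nat.lt_floor_add_one ((t' + ε) * M)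
    rw [h3] at h5 h6
    rw [h4] at h7 h8
    have e : |t - t'| * M = |(t + ε) * M - (t' + ε) * M| := by
      rw [← sub_mul, abs_mul, abs_of_pos hM]; congr 2; ring
    rw [e, abs_le]
    constructor <;> linarith
  calc volume B ≤ volume (⋃ m ∈ Finset.range (⌊2 * ε * M⌋₊ + 1), (B ∩ I m)) := measure_mono hcov
    _ ≤ ∑ m ∈ Finset.range (⌊2 * ε * M⌋₊ + 1), volume (B ∩ I m) := measure_biUnion_finset_le _ _
    _ ≤ ∑ m ∈ Finset.range (⌊2 * ε * M⌋₊ + 1), ENNReal.ofReal D := by
        gcongr with m hm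
        exact hpiece m
    _ = _ := by rw [Finset.sum_const, Finset.card_range, nsmul_eq_mul]

lemma X_congr {a : ℝ} {ω ω' : ℕ → ℝ} {k : ℕ} (h : ∀ i, i < k → ω i = ω' i) (p : ℝ × ℝ) :
    X a ω k p = X a ω' k p := by
  induction k with
  | zero => rfl
  | succ k ih =>
    rw [X, X, ih (fun i hi => h i (by omega)), h k (by omega)]

lemma zc_congr {a : ℝ} {ω ω' : ℕ → ℝ} {k : ℕ} (h : ∀ i, i ≤ k → ω i = ω' i) (p : ℝ × ℝ) :
    zc a ω k p = zc a ω' k p := by
  rw [zc, zc, X_congr (fun i hi => h i (by omega)), h k le_rfl]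

lemma vv_congr {a : ℝ} {ω ω' : ℕ → ℝ} {k : ℕ} (h : ∀ i, i < k → ω i = ω' i) (p : ℝ × ℝ) :
    ∀ m, m ≤ k + 1 → vv a ω p m = vv a ω' p m := by
  intro m
  induction m using Nat.strong_induction_on with
  | _ m ih =>
    intro hm
    match m, ih, hm with
    | 0, _, _ => simp [vv]
    | 1, _, _ => simp [vv]
    | (i+2), ih, hm =>
      rw [vv_rec, vv_rec, ih (i+1) (by omega) (by omega), ih i (by omega) (by omega),
        zc_congr (fun l hl => h l (by omega))]

/-- the set of bad values of the `j`-th noise -/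
def BadSlice (a b ε : ℝ) (N : ℕ) (ω : ℕ → ℝ) (j : ℕ) (p : ℝ × ℝ) : Set ℝ :=
  {t | t ∈ Icc (-ε) ε ∧
    Typ b N (fun i => phi a (zc a (Function.update ω j t) (j+i) p))
      (dphi a (zc a (Function.update ω j t) j p)) ∧
    |vv a (Function.update ω j t) p (j+N+1)| < |vv a (Function.update ω j t) p (j+N)|}

lemma vol_BadSlice {a b ε : ℝ} (hb : 100 ≤ b) (hab : |a| = b ^ 10) {N : ℕ}
    (hN : 12 ≤ N) (ω : ℕ → ℝ) (j : ℕ) (p : ℝ × ℝ) :
    volume (BadSlice a b ε N ω j p) ≤ ((⌊2 * ε * b ^ 80⌋₊ + 1 : ℕ) : ℝ≥0∞) *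
      ENNReal.ofReal (b ^ 42 / b ^ (6 * N)) := by
  have hb0 : 0 < b := by linarith
  apply cover_vol (by positivity) (fun t ht => ht.1)
  intro t ht t' ht' hclose
  set ω1 := Function.update ω j t with hω1
  set ω2 := Function.update ω j t' with hω2
  have hagree : ∀ i, i < j → ω1 i = ω2 i := by
    intro i hi
    rw [hω1, hω2, Function.update_of_ne (by omega), Function.update_of_ne (by omega)]
  have hX : X a ω1 j p = X a ω2 j p := X_congr hagree p
  set z : ℕ → ℝ := fun i => Nat.casesOn i ((X a ω1 j p).2) (fun i => zc a ω1 (j+i) p) with hz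
  set z' : ℕ → ℝ := fun i => Nat.casesOn i ((X a ω2 j p).2) (fun i => zc a ω2 (j+i) p) with hz'
  have hzz : ∀ i, z (i+1) = zc a ω1 (j+i) p := fun i => rfl
  have hzz' : ∀ i, z' (i+1) = zc a ω2 (j+i) p := fun i => rfl
  have hzX : ∀ i, z i = (X a ω1 (j+i) p).2 := by
    intro i
    cases i with
    | zero => rfl
    | succ i => rw [← add_assoc, X_succ_snd]
  have hzX' : ∀ i, z' i = (X a ω2 (j+i) p).2 := by
    intro i
    cases i with
    | zero => rfl
    | succ i => rw [← add_assoc, X_succ_snd]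
  have hd : |z 1 - z' 1| = |t - t'| := by
    show |zc a ω1 (j+0) p - zc a ω2 (j+0) p| = _
    rw [add_zero, zc, zc, hX, hω1, hω2, Function.update_self, Function.update_self]
    congr 1; ring
  have key := slice_close hb hab hN (z := z) (z' := z') (v := fun i => vv a ω1 p (j+i))
    (v' := fun i => vv a ω2 p (j+i)) (η := fun i => ω (j+i+1))
    (by show (X a ω1 j p).2 = (X a ω2 j p).2; rw [hX])
    (by
      intro i
      rw [hzz, hzz, hzX, show j + (i+1) = j + i + 1 by ring, zc_succ]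
      congr 1
      rw [hω1, Function.update_of_ne (by omega)])
    (by
      intro i
      rw [hzz', hzz', hzX', show j + (i+1) = j + i + 1 by ring, zc_succ]
      congr 1
      rw [hω2, Function.update_of_ne (by omega)])
    (by
      intro i
      rw [hzz]
      exact vv_rec a ω1 p (j+i))
    (by
      intro i
      rw [hzz']
      exact vv_rec a ω2 p (j+i))
    (vv_congr hagree p (j+0) (by omega))
    (vv_congr hagree p (j+1) (by omega))
    (by
      rintro ⟨h0, h1⟩
      have := VV_pos a ω1 p j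
      unfold VV at this
      simp only [add_zero] at h0
      rw [h0, h1, abs_zero, max_self] at this
      exact lt_irrefl _ this)
    ht.2.1 ht'.2.1 ht.2.2.le ht'.2.2.le (by rw [hd]; exact hclose)
  rw [hd] at key
  rw [le_div_iff₀ (by positivity)]
  exact key

/-- extension of a finite noise sequence -/
def ext {n : ℕ} (ω : Fin n → ℝ) (k : ℕ) : ℝ := if h : k < n then ω ⟨k, h⟩ else 0

lemma continuous_ext {n : ℕ} : Continuous (ext (n := n)) := by
  apply continuous_pi
  intro k
  unfold ext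
  by_cases h : k < n
  · simp only [h, dif_pos]; exact continuous_apply _
  · simp only [h, dif_neg, not_false_eq_true]; exact continuous_const

lemma ext_insertNth {n : ℕ} (j : Fin (n+1)) (t : ℝ) (c : Fin n → ℝ) :
    ext (j.insertNth t c) = Function.update (ext (j.insertNth 0 c)) j t := by
  funext k
  by_cases hk : k = (j : ℕ)
  · subst hk
    rw [Function.update_self]
    unfold ext
    rw [dif_pos j.isLt]
    exact Fin.insertNth_apply_same _ _ _
  · rw [Function.update_of_ne hk]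
    unfold ext
    split_ifs with h
    · have hne : (⟨k, h⟩ : Fin (n+1)) ≠ j := by
        intro he; apply hk; rw [← he]
      obtain ⟨i, hi⟩ := Fin.exists_succAbove_eq hne
      rw [← hi, Fin.insertNth_apply_succAbove, Fin.insertNth_apply_succAbove]
    · rfl

lemma slice_le {n : ℕ} (ν : Measure ℝ) [IsProbabilityMeasure ν] (j : Fin (n+1))
    {E : Set (Fin (n+1) → ℝ)} (hE : MeasurableSet E) {β : ℝ≥0∞}
    (h : ∀ c : Fin n → ℝ, ν {t | j.insertNth t c ∈ E} ≤ β) :
    Measure.pi (fun _ : Fin (n+1) => ν) E ≤ β := by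
  have mp := measurePreserving_piFinSuccAbove (fun _ : Fin (n+1) => ν) j
  set e := MeasurableEquiv.piFinSuccAbove (fun _ : Fin (n+1) => ℝ) j with he
  have hE' : MeasurableSet (e.symm ⁻¹' E) := e.symm.measurable hE
  have h1 : Measure.pi (fun _ : Fin (n+1) => ν) E =
      (ν.prod (Measure.pi (fun _ : Fin n => ν))) (e.symm ⁻¹' E) := by
    rw [← mp.measure_preimage hE'.nullMeasurableSet]
    congr 1
    ext x
    simp [he]
  rw [h1, Measure.prod_apply_symm hE']
  calc ∫⁻ c, ν ((fun t => (t, c)) ⁻¹' (e.symm ⁻¹' E)) ∂(Measure.pi (fun _ : Fin n => ν))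
      ≤ ∫⁻ _c, β ∂(Measure.pi (fun _ : Fin n => ν)) := by
        apply lintegral_mono
        intro c
        exact h c
    _ = β := by simp

end Pool.Agent.Helper78.SM
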