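import Mathlib
import Pool.Agent.Helper78.SM.SliceB

set_option autoImplicit false
open Real MeasureTheory Set
open scoped ENNReal

namespace Pool.Agent.Helper78.SM

attribute [local instance] Pool.Agent.Helper53.SM.instProbU Pool.Agent.Helper53.SM.instProbT2

lemma measurableSet_sq : MeasurableSet sq := measurableSet_Ioc.prod measurableSet_Ioc

lemma volume_sq : volume sq = 1 := by
  unfold sq
  rw [Measure.volume_eq_prod, Measure.prod_prod]
  simp

lemma prob_sq : IsProbabilityMeasure ((volume : Measure (ℝ × ℝ)).restrict sq) :=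
  ⟨by rw [Measure.restrict_apply MeasurableSet.univ, univ_inter, volume_sq]⟩

/-- the uniform law on `[-ε, ε]` -/
noncomputable def nu (ε : ℝ) : Measure ℝ := ProbabilityTheory.cond volume (Icc (-ε) ε)

lemma volume_Icc_eps (ε : ℝ) : (volume : Measure ℝ) (Icc (-ε) ε) = ENNReal.ofReal (2 * ε) := by
  rw [Real.volume_Icc]; congr 1; ring

lemma prob_nu {ε : ℝ} (hε : 0 < ε) : IsProbabilityMeasure (nu ε) := by
  unfold nu
  apply ProbabilityTheory.cond_isProbabilityMeasure_of_finite
  · rw [volume_Icc_eps, Ne, ENNReal.ofReal_eq_zero, not_le]; linarith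
  · rw [volume_Icc_eps]; exact ENNReal.ofReal_ne_top

lemma cont_zce (a : ℝ) {n : ℕ} (k : ℕ) :
    Continuous (fun q : (Fin n → ℝ) × (ℝ × ℝ) => zc a (ext q.1) k q.2) :=
  (cont_zc a k).comp ((continuous_ext.comp continuous_fst).prodMk continuous_snd)

lemma cont_phize (a : ℝ) {n : ℕ} (k : ℕ) :
    Continuous (fun q : (Fin n → ℝ) × (ℝ × ℝ) => phi a (zc a (ext q.1) k q.2)) :=
  (continuous_phi a).comp (cont_zce a k)

lemma cont_vve (a : ℝ) {n : ℕ} (k : ℕ) :
    Continuous (fun q : (Fin n → ℝ) × (ℝ × ℝ) => vv a (ext q.1) q.2 k) :=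
  (cont_vv a k).comp ((continuous_ext.comp continuous_fst).prodMk continuous_snd)

/-- typical set in the product -/
def TypSet (a b : ℝ) (n N j : ℕ) : Set ((Fin n → ℝ) × (ℝ × ℝ)) :=
  {q | Typ b N (fun i => phi a (zc a (ext q.1) (j+i) q.2)) (dphi a (zc a (ext q.1) j q.2))}

lemma measurableSet_TypSet (a b : ℝ) (n N j : ℕ) : MeasurableSet (TypSet a b n N j) := by
  classical
  have e : TypSet a b n N j =
      (((⋂ i : ℕ, ⋂ _ : i + 1 < N, {q : (Fin n → ℝ) × (ℝ × ℝ) |
        4096 ≤ |phi a (zc a (ext q.1) (j+i) q.2) * phi a (zc a (ext q.1) (j+(i+1)) q.2)|}) ∩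
      (⋂ i : ℕ, ⋂ _ : i ≤ 8, {q : (Fin n → ℝ) × (ℝ × ℝ) |
        b ^ 9 ≤ |phi a (zc a (ext q.1) (j+i) q.2)|})) ∩
      ({q : (Fin n → ℝ) × (ℝ × ℝ) | 2 * b ^ 9 ≤ |dphi a (zc a (ext q.1) j q.2)|} ∩
      {q : (Fin n → ℝ) × (ℝ × ℝ) | 2 ≤ |phi a (zc a (ext q.1) (j+(N-1)) q.2)|})) ∩
      {q : (Fin n → ℝ) × (ℝ × ℝ) | (∑ i ∈ Finset.range N,
        if |phi a (zc a (ext q.1) (j+i) q.2)| < b ^ 5 then 10 else 0) ≤ N} := by
    ext q
    simp only [TypSet, mem_inter_iff, mem_iInter, mem_ofPred_eq]
    have ec : (∑ i ∈ Finset.range N,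
        if |phi a (zc a (ext q.1) (j+i) q.2)| < b ^ 5 then 10 else 0) =
        10 * ((Finset.range N).filter (fun i => |phi a (zc a (ext q.1) (j+i) q.2)| < b ^ 5)).card := by
      rw [Finset.card_filter, Finset.mul_sum]
      apply Finset.sum_congr rfl
      intro i _
      split_ifs <;> simp
    rw [ec]
    constructor
    · intro h
      refine ⟨⟨⟨h.t1, h.t2⟩, h.t3, h.t4⟩, ?_⟩
      convert h.t5
    · rintro ⟨⟨⟨h1, h2⟩, h3, h4⟩, h5⟩
      refine ⟨h1, h2, h3, h4, ?_⟩
      convert h5
  rw [e]
  have hc := fun k => (cont_phize a (n := n) k).measurable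
  refine MeasurableSet.inter (MeasurableSet.inter (MeasurableSet.inter ?_ ?_)
    (MeasurableSet.inter ?_ ?_)) ?_
  · refine MeasurableSet.iInter (fun i => MeasurableSet.iInter (fun _ => ?_))
    exact measurableSet_le measurable_const
      (continuous_abs.measurable.comp ((hc (j+i)).mul (hc (j+(i+1)))))
  · refine MeasurableSet.iInter (fun i => MeasurableSet.iInter (fun _ => ?_))
    exact measurableSet_le measurable_const (continuous_abs.measurable.comp (hc (j+i)))
  · exact measurableSet_le measurable_const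
      (continuous_abs.comp ((continuous_dphi a).comp (cont_zce a j))).measurable
  · exact measurableSet_le measurable_const (continuous_abs.measurable.comp (hc (j+(N-1))))
  · refine measurableSet_le ?_ measurable_const
    refine Finset.measurable_sum _ (fun i _ => ?_)
    refine Measurable.ite ?_ measurable_const measurable_const
    exact measurableSet_lt (continuous_abs.measurable.comp (hc (j+i))) measurable_const

/-- bad event in the product -/
def BadK (a : ℝ) (n k : ℕ) : Set ((Fin n → ℝ) × (ℝ × ℝ)) :=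
  {q | |vv a (ext q.1) q.2 (k+1)| < |vv a (ext q.1) q.2 k|}

lemma measurableSet_BadK (a : ℝ) (n k : ℕ) : MeasurableSet (BadK a n k) :=
  measurableSet_lt (continuous_abs.comp (cont_vve a (k+1))).measurable
    (continuous_abs.comp (cont_vve a k)).measurable

/-- early times -/
lemma bad_early {a b : ℝ} (hb : 100 ≤ b) (hab : |a| = b ^ 10) (ω : ℕ → ℝ) (k : ℕ) :
    volume {p : ℝ × ℝ | p ∈ sq ∧ |vv a ω p (k+1)| < |vv a ω p k|} ≤
      ENNReal.ofReal (k * (4 * 4096 * Real.log |a| / |a| ^ 2) + 1 / b) := by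
  have hb0 : 0 < b := by linarith
  have ha1 : 1 ≤ |a| := by rw [hab]; exact one_le_pow₀ (by linarith)
  have hpow : ∀ n : ℕ, (100:ℝ) ^ n ≤ b ^ n := fun n => pow_le_pow_left₀ (by norm_num) hb n
  have ha3 : 3 ≤ |a| := by
    rw [hab]; have := hpow 10; norm_num at this; linarith
  have hlog : 0 ≤ Real.log |a| := Real.log_nonneg ha1
  rcases Nat.eq_zero_or_pos k with rfl | hk
  · have : {p : ℝ × ℝ | p ∈ sq ∧ |vv a ω p (0+1)| < |vv a ω p 0|} = ∅ := by
      ext p
      simp only [mem_ofPred_eq, mem_empty_iff_false, iff_false, not_and, not_lt]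
      intro _
      simp [vv]
    rw [this, measure_empty]
    exact zero_le
  · set U1 := ⋃ i ∈ Finset.range k, {p : ℝ × ℝ | p ∈ sq ∧
      |phi a (zc a ω i p) * phi a (zc a ω (i+1) p)| < 4096} with hU1
    set U4 := {p : ℝ × ℝ | p ∈ sq ∧ |phi a (zc a ω (k-1) p)| < 2} with hU4
    have hsub : {p : ℝ × ℝ | p ∈ sq ∧ |vv a ω p (k+1)| < |vv a ω p k|} ⊆ U1 ∪ U4 := by
      rintro p ⟨hp, hbad⟩
      by_contra hcon
      rw [mem_union, not_or] at hcon
      obtain ⟨h1, h4⟩ := hcon
      have hpair : ∀ i, i + 1 < k → 4096 ≤ |phi a (zc a ω i p) * phi a (zc a ω (i+1) p)| := by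
        intro i hi
        by_contra hc
        push Not at hc
        apply h1
        simp only [hU1, mem_iUnion, Finset.mem_range]
        exact ⟨i, by omega, hp, hc⟩
      have h5 : 2 ≤ |phi a (zc a ω (k-1) p)| := by
        by_contra hc
        push Not at hc
        exact h4 ⟨hp, hc⟩
      have h6 := grow_fwd (f := fun i => phi a (zc a ω i p)) (v := vv a ω p) (κ := 4096)
        (by norm_num) (N := k) (vv_rec a ω p) (by simp [vv]) hpair (k-1) (by omega)
      rw [show k - 1 + 1 = k by omega, show k - 1 + 2 = k + 1 by omega] at h6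
      have h7 := abs_nonneg (vv a ω p k)
      nlinarith
    have v1 : volume U1 ≤ ENNReal.ofReal (k * (4 * 4096 * Real.log |a| / |a| ^ 2)) := by
      calc volume U1 ≤ ∑ i ∈ Finset.range k, volume {p : ℝ × ℝ | p ∈ sq ∧
            |phi a (zc a ω i p) * phi a (zc a ω (i+1) p)| < 4096} := measure_biUnion_finset_le _ _
        _ ≤ ∑ i ∈ Finset.range k, ENNReal.ofReal (4 * 4096 * Real.log |a| / |a| ^ 2) := by
            gcongr with i hi
            exact vol_pair ha3 ω i
        _ = _ := by
            rw [Finset.sum_const, Finset.card_range, nsmul_eq_mul,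
              ENNReal.ofReal_mul (Nat.cast_nonneg k), ENNReal.ofReal_natCast]
    have v4 : volume U4 ≤ ENNReal.ofReal (1 / b) := by
      refine (vol_small ha1 (by norm_num) ω (k-1)).trans ?_
      apply ENNReal.ofReal_le_ofReal
      rw [hab]
      have h9 := hpow 9
      rw [div_le_div_iff₀ (by positivity) (by positivity)]
      have : b ^ 10 = b ^ 9 * b := by ring
      rw [this]
      have h10 : (1:ℝ) ≤ b ^ 9 := by norm_num at h9; linarith
      nlinarith
    calc _ ≤ volume (U1 ∪ U4) := measure_mono hsub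
      _ ≤ volume U1 + volume U4 := measure_union_le _ _
      _ ≤ _ := by
        rw [ENNReal.ofReal_add (by positivity) (by positivity)]
        gcongr

/-- probability of a bad event -/
lemma prob_BadK {a b ε : ℝ} (hb : 100 ≤ b) (hab : |a| = b ^ 10) (hε : 0 < ε) {N : ℕ} (hN : 12 ≤ N)
    (hβ : (2 * ε * b ^ 80 + 1) * (b ^ 42 / b ^ (6 * N)) ≤ 1 / b * (2 * ε)) {n k : ℕ} (hk : k < n) :
    ((Measure.pi (fun _ : Fin n => nu ε)).prod ((volume : Measure (ℝ × ℝ)).restrict sq))
      (BadK a n k) ≤ ENNReal.ofReal (N * (4 * 4096 * Real.log |a| / |a| ^ 2) + 8 / b) := by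
  have hb0 : 0 < b := by linarith
  have ha1 : 1 ≤ |a| := by rw [hab]; exact one_le_pow₀ (by linarith)
  have hlog : 0 ≤ Real.log |a| := Real.log_nonneg ha1
  haveI := prob_nu hε
  haveI := prob_sq
  have hBm := measurableSet_BadK a n k
  rcases Nat.lt_or_ge k N with hkN | hkN
  · rw [Measure.prod_apply hBm]
    calc _ ≤ ∫⁻ _ω, ENNReal.ofReal (N * (4 * 4096 * Real.log |a| / |a| ^ 2) + 8 / b)
          ∂(Measure.pi (fun _ : Fin n => nu ε)) := by
          apply lintegral_mono
          intro ω
          simp only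
          rw [Measure.restrict_apply' measurableSet_sq]
          have h1 := bad_early hb hab (ext ω) k
          have e : Prod.mk ω ⁻¹' BadK a n k ∩ sq =
              {p : ℝ × ℝ | p ∈ sq ∧ |vv a (ext ω) p (k+1)| < |vv a (ext ω) p k|} := by
            ext p; rw [mem_inter_iff, and_comm]; rfl
          rw [e]
          refine h1.trans ?_
          apply ENNReal.ofReal_le_ofReal
          have h2 : (k:ℝ) ≤ N := by exact_mod_cast hkN.le
          have h3 : 1 / b ≤ 8 / b := by gcongr; norm_num
          have h4 : (k:ℝ) * (4 * 4096 * Real.log |a| / |a| ^ 2) ≤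
            N * (4 * 4096 * Real.log |a| / |a| ^ 2) := by gcongr
          linarith
      _ = _ := by simp
  · obtain ⟨j, rfl⟩ : ∃ j, k = j + N := ⟨k - N, by omega⟩
    obtain ⟨n', rfl⟩ : ∃ n', n = n' + 1 := ⟨n - 1, by omega⟩
    have hTm := measurableSet_TypSet a b (n'+1) N j
    set μ := (Measure.pi (fun _ : Fin (n'+1) => nu ε)).prod ((volume : Measure (ℝ × ℝ)).restrict sq)
      with hμ
    have h1 : μ (TypSet a b (n'+1) N j)ᶜ ≤
        ENNReal.ofReal (N * (4 * 4096 * Real.log |a| / |a| ^ 2) + 7 / b) := by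
      rw [hμ, Measure.prod_apply hTm.compl]
      calc _ ≤ ∫⁻ _ω, ENNReal.ofReal (N * (4 * 4096 * Real.log |a| / |a| ^ 2) + 7 / b)
            ∂(Measure.pi (fun _ : Fin (n'+1) => nu ε)) := by
            apply lintegral_mono
            intro ω
            simp only
            rw [Measure.restrict_apply' measurableSet_sq]
            have h1 := vol_At hb hab (by omega : 1 ≤ N) (ext ω) j
            have e : Prod.mk ω ⁻¹' (TypSet a b (n'+1) N j)ᶜ ∩ sq = At a b N (ext ω) j := by
              ext p; rw [mem_inter_iff, and_comm]; rfl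
            rw [e]
            exact h1
        _ = _ := by simp
    have h2 : μ (TypSet a b (n'+1) N j ∩ BadK a (n'+1) (j+N)) ≤ ENNReal.ofReal (1 / b) := by
      rw [hμ, Measure.prod_apply_symm (hTm.inter hBm)]
      calc _ ≤ ∫⁻ _p, ENNReal.ofReal (1 / b) ∂((volume : Measure (ℝ × ℝ)).restrict sq) := by
            apply lintegral_mono
            intro p
            simp only
            have hEm : MeasurableSet ((fun ω => (ω, p)) ⁻¹'
                (TypSet a b (n'+1) N j ∩ BadK a (n'+1) (j+N))) :=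
              (hTm.inter hBm).preimage (measurable_id.prodMk measurable_const)
            apply slice_le (nu ε) (⟨j, by omega⟩ : Fin (n'+1)) hEm
            intro c
            rw [nu, ProbabilityTheory.cond_apply measurableSet_Icc]
            have hsub : Icc (-ε) ε ∩ {t | (⟨j, by omega⟩ : Fin (n'+1)).insertNth t c ∈
                (fun ω => (ω, p)) ⁻¹' (TypSet a b (n'+1) N j ∩ BadK a (n'+1) (j+N))} ⊆
                BadSlice a b ε N (ext ((⟨j, by omega⟩ : Fin (n'+1)).insertNth 0 c)) j p := by
              rintro t ⟨ht1, ht2, ht3⟩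
              refine ⟨ht1, ?_, ?_⟩
              · have h5 : Typ b N (fun i => phi a (zc a (ext ((⟨j, by omega⟩ :
                    Fin (n'+1)).insertNth t c)) (j+i) p)) (dphi a (zc a (ext ((⟨j, by omega⟩ :
                    Fin (n'+1)).insertNth t c)) j p)) := ht2
                rw [ext_insertNth] at h5
                exact h5
              · have h5 : |vv a (ext ((⟨j, by omega⟩ : Fin (n'+1)).insertNth t c)) p (j+N+1)| <
                    |vv a (ext ((⟨j, by omega⟩ : Fin (n'+1)).insertNth t c)) p (j+N)| := ht3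
                rw [ext_insertNth] at h5
                exact h5
            have h6 := (measure_mono (μ := volume) hsub).trans
              (vol_BadSlice hb hab hN (ext ((⟨j, by omega⟩ : Fin (n'+1)).insertNth 0 c)) j p)
            rw [volume_Icc_eps]
            have hεpos : 0 < ENNReal.ofReal (2 * ε) := ENNReal.ofReal_pos.2 (by linarith)
            rw [ENNReal.inv_mul_le_iff hεpos.ne' ENNReal.ofReal_ne_top]
            refine h6.trans ?_
            rw [← ENNReal.ofReal_natCast, ← ENNReal.ofReal_mul (by positivity),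
              ← ENNReal.ofReal_mul (by positivity)]
            apply ENNReal.ofReal_le_ofReal
            refine le_trans ?_ (hβ.trans (le_of_eq (by ring)))
            have h7 := Nat.floor_le (by positivity : 0 ≤ 2 * ε * b ^ 80)
            push_cast
            gcongr
        _ = _ := by simp
    have hsub : BadK a (n'+1) (j+N) ⊆ (TypSet a b (n'+1) N j)ᶜ ∪
        (TypSet a b (n'+1) N j ∩ BadK a (n'+1) (j+N)) := by
      intro q hq
      by_cases h : q ∈ TypSet a b (n'+1) N j
      · right; exact ⟨h, hq⟩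
      · left; exact h
    calc μ (BadK a (n'+1) (j+N)) ≤ _ := measure_mono hsub
      _ ≤ _ := measure_union_le _ _
      _ ≤ ENNReal.ofReal (N * (4 * 4096 * Real.log |a| / |a| ^ 2) + 7 / b) +
          ENNReal.ofReal (1 / b) := add_le_add h1 h2
      _ = _ := by
          rw [← ENNReal.ofReal_add (by positivity) (by positivity)]
          congr 1; ring

end Pool.Agent.Helper78.SM
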