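import Mathlib
import Pool.Agent.Helper78.SM.ProbBad

set_option autoImplicit false
open Real MeasureTheory Set
open scoped ENNReal

namespace Pool.Agent.Helper78.SM

open Pool.Agent.Helper53.SM (T2 IsStd integrable_of_bdd comp_int)

attribute [local instance] Pool.Agent.Helper53.SM.instProbU Pool.Agent.Helper53.SM.instProbT2

lemma measurable_gg : Measurable gg := by
  unfold gg
  exact Real.measurable_log.comp
    ((continuous_abs.measurable.sub_const 1).max measurable_const)

/-- integral over the square of a function of the orbit coefficient -/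
lemma int_sq {a : ℝ} (ω : ℕ → ℝ) (k : ℕ) {g : ℝ → ℝ} (hg : Measurable g) :
    ∫ p in sq, g (phi a (zc a ω k p)) = ∫ θ : UnitAddCircle, g (Phi a θ) := by
  have hgm : Measurable (fun q : T2 => g (Phi a q.1)) :=
    hg.comp ((measurable_Phi a).comp measurable_fst)
  have h1 : ∀ p : ℝ × ℝ, g (phi a (zc a ω k p)) = g (Phi a (tau a ω k (mk2 p)).1) := by
    intro p
    rw [tau_mk2]
    show g (phi a (zc a ω k p)) = g (Phi a ((zc a ω k p : ℝ) : UnitAddCircle))
    rw [Phi_coe]
  simp only [h1]
  have h2 := integral_map (μ := (volume : Measure (ℝ × ℝ)).restrict sq) (φ := mk2)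
    mp_mk2.measurable.aemeasurable
    (f := fun q : T2 => g (Phi a (tau a ω k q).1))
    (hgm.comp (mp_tau a ω k).measurable).aestronglyMeasurable
  have h3 : Measure.map mk2 ((volume : Measure (ℝ × ℝ)).restrict sq) = (volume : Measure T2) :=
    mp_mk2.map_eq
  rw [h3] at h2
  rw [← h2, comp_int (mp_tau a ω k) (g := fun q : T2 => g (Phi a q.1)) hgm]
  rw [Measure.volume_eq_prod, integral_fun_fst (μ := (volume : Measure UnitAddCircle))
    (ν := (volume : Measure UnitAddCircle)) (fun θ => g (Phi a θ))]
  simp

lemma Phi_ne_ae {a : ℝ} (ha : 1 ≤ |a|) : ∀ᵐ θ : UnitAddCircle, Phi a θ ≠ 0 := by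
  rw [ae_iff]
  have h := sublevel_Phi (a := a) (s := 0) ha le_rfl
  rw [zero_div, ENNReal.ofReal_zero] at h
  refine measure_mono_null ?_ (le_antisymm h zero_le)
  intro θ hθ
  rw [mem_ofPred_eq, not_not] at hθ
  rw [mem_ofPred_eq, hθ, abs_zero]

lemma integrable_tA {a M : ℝ} (ha : 1 ≤ |a|) : Integrable (tA a M) := by
  refine ⟨(measurable_tA a M).aestronglyMeasurable, ?_⟩
  rw [hasFiniteIntegral_iff_ofReal (Filter.Eventually.of_forall (fun θ => tA_nonneg a M θ))]
  exact lt_of_le_of_lt (tail_gA ha M) ENNReal.ofReal_lt_top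

lemma int_tA {a M : ℝ} (ha : 1 ≤ |a|) : ∫ θ, tA a M θ ≤ 2 * Real.exp (-M) := by
  rw [integral_eq_lintegral_of_nonneg_ae (Filter.Eventually.of_forall (fun θ => tA_nonneg a M θ))
    (measurable_tA a M).aestronglyMeasurable]
  exact ENNReal.toReal_le_of_le_ofReal (by positivity) (tail_gA ha M)

lemma integrable_uM {M : ℝ} (hM : 1 ≤ M) : Integrable (uM M) := by
  refine Integrable.of_bound (measurable_uM M).aestronglyMeasurable M ?_
  exact Filter.Eventually.of_forall (fun θ => by rw [Real.norm_eq_abs]; exact abs_uM_le hM θ)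

lemma abs_gg_le {a : ℝ} (ha : 1 ≤ |a|) (θ : UnitAddCircle) :
    |gg (Phi a θ)| ≤ Real.log (10 * |a|) := by
  rw [abs_of_nonneg (gg_nonneg _)]
  unfold gg
  have := abs_Phi_le ha θ
  apply Real.log_le_log (lt_max_of_lt_right one_pos)
  apply max_le <;> linarith

lemma abs_log_le {a : ℝ} (ha : 1 ≤ |a|) (θ : UnitAddCircle) :
    |Real.log (|Phi a θ| + 1)| ≤ Real.log (10 * |a|) := by
  have := abs_Phi_le ha θ
  have h0 := abs_nonneg (Phi a θ)
  rw [abs_of_nonneg (Real.log_nonneg (by linarith))]
  apply Real.log_le_log (by linarith)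
  linarith

/-- lower bound for the mean gain -/
lemma mean_gg {a M s : ℝ} (ha : 1 ≤ |a|) (hM : 1 ≤ M) (hs : 2 ≤ s) :
    Real.log (π * |a|) - 4 * Real.exp (-M) - Real.exp M / |a| - s / (2 * |a|) - 2 / s ≤
      ∫ θ : UnitAddCircle, gg (Phi a θ) := by
  have ha0 : 0 < |a| := by linarith
  have hs0 : 0 < s := by linarith
  set S : Set UnitAddCircle := {θ | |Phi a θ| ≤ s} with hS
  have hSm : MeasurableSet S :=
    measurableSet_le (continuous_abs.measurable.comp (measurable_Phi a)) measurable_const
  have hpt : ∀ᵐ θ : UnitAddCircle, (Real.log (π * |a|) - Real.exp M / |a| - 2 / s) + uM M θ -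
      tA a M θ - S.indicator 1 θ ≤ gg (Phi a θ) := by
    filter_upwards [Phi_ne_ae ha] with θ hθ
    have h1 := log_Phi_ge (M := M) ha hθ
    have hΦ : 0 < |Phi a θ| := abs_pos.2 hθ
    have h2 : Real.log |Phi a θ| - 2 / s - S.indicator 1 θ ≤ gg (Phi a θ) := by
      have h2s : 0 < 2 / s := by positivity
      have hlog2 : Real.log 2 ≤ 1 := by have := Real.log_two_lt_d9; linarith
      by_cases hin : |Phi a θ| ≤ s
      · rw [indicator_of_mem (show θ ∈ S from hin)]
        rcases le_or_gt 2 |Phi a θ| with h | h
        · have h3 : Real.log |Phi a θ| ≤ Real.log 2 + gg (Phi a θ) := by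
            unfold gg
            rw [← Real.log_mul two_ne_zero (ne_of_gt (lt_max_of_lt_right one_pos))]
            apply Real.log_le_log hΦ
            have := le_max_left (|Phi a θ| - 1) 1
            linarith
          simp only [Pi.one_apply]
          linarith
        · have h3 : Real.log |Phi a θ| ≤ Real.log 2 := Real.log_le_log hΦ h.le
          have := gg_nonneg (Phi a θ)
          simp only [Pi.one_apply]
          linarith
      · rw [indicator_of_notMem (show θ ∉ S from hin)]
        push Not at hin
        have h3 : Real.log (|Phi a θ| - 1) ≤ gg (Phi a θ) := by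
          unfold gg
          exact Real.log_le_log (by linarith) (le_max_left _ _)
        have h4 : Real.log |Phi a θ| - 2 / s ≤ Real.log (|Phi a θ| - 1) := by
          have h5 : Real.log (|Phi a θ| - 1) = Real.log |Phi a θ| + Real.log (1 - 1 / |Phi a θ|) := by
            have h6 : 1 - 1 / |Phi a θ| = (|Phi a θ| - 1) / |Phi a θ| := by field_simp
            rw [h6, Real.log_div (by linarith) hΦ.ne']; ring
          rw [h5]
          have h7 : 1 / |Phi a θ| ≤ 1 / s := by gcongr
          have h8 : 1 / s ≤ 1 / 2 := by gcongr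
          have h9 := Real.one_sub_inv_le_log_of_pos (x := 1 - 1 / |Phi a θ|) (by linarith)
          have h10 : (1 - 1 / |Phi a θ|)⁻¹ ≤ 1 + 2 / s := by
            set t := 1 / |Phi a θ| with ht
            have ht0 : 0 ≤ t := by positivity
            have h11 : (1 - t)⁻¹ ≤ 1 + 2 * t := by
              rw [inv_le_comm₀ (by linarith) (by linarith)]
              rw [inv_le_iff_one_le_mul₀ (by linarith)]
              nlinarith
            have h12 : 2 / s = 2 * (1 / s) := by ring
            rw [h12]
            linarith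
          linarith
        linarith
    linarith
  have hi1 : Integrable (S.indicator (1 : UnitAddCircle → ℝ)) :=
    (integrable_const (1:ℝ)).indicator hSm
  have hi2 : Integrable (fun θ : UnitAddCircle => (Real.log (π * |a|) - Real.exp M / |a| - 2 / s) +
      uM M θ) := (integrable_const _).add (integrable_uM hM)
  have hi3 : Integrable (fun θ : UnitAddCircle => (Real.log (π * |a|) - Real.exp M / |a| - 2 / s) +
      uM M θ - tA a M θ) := hi2.sub (integrable_tA ha)
  have hi4 : Integrable (fun θ : UnitAddCircle => (Real.log (π * |a|) - Real.exp M / |a| - 2 / s) +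
      uM M θ - tA a M θ - S.indicator 1 θ) := hi3.sub hi1
  have hig : Integrable (fun θ : UnitAddCircle => gg (Phi a θ)) := by
    refine Integrable.of_bound (measurable_gg.comp (measurable_Phi a)).aestronglyMeasurable
      (Real.log (10 * |a|)) ?_
    exact Filter.Eventually.of_forall (fun θ => by rw [Real.norm_eq_abs]; exact abs_gg_le ha θ)
  have hmono := integral_mono_ae hi4 hig hpt
  rw [integral_sub hi3 hi1, integral_sub hi2 (integrable_tA ha),
    integral_add (integrable_const _) (integrable_uM hM), integral_indicator_one hSm] at hmono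
  simp only [integral_const, probReal_univ, smul_eq_mul, one_mul] at hmono
  have h1 := int_tA (a := a) (M := M) ha
  have h2 := abs_le.1 (mean_uM hM)
  have h3 : (volume : Measure UnitAddCircle).real S ≤ s / (2 * |a|) := by
    exact ENNReal.toReal_le_of_le_ofReal (by positivity) (sublevel_Phi ha hs0.le)
  linarith [h2.1]

/-- upper bound for the mean logarithm -/
lemma mean_log {a M : ℝ} (ha : 1 ≤ |a|) (hM : 1 ≤ M) :
    ∫ θ : UnitAddCircle, Real.log (|Phi a θ| + 1) ≤
      Real.log (π * |a|) + 2 * Real.exp (-M) + Real.exp M / |a| := by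
  have hi2 : Integrable (fun θ : UnitAddCircle => (Real.log (π * |a|) + uM M θ) +
      Real.exp M / |a|) := ((integrable_const _).add (integrable_uM hM)).add (integrable_const _)
  have hig : Integrable (fun θ : UnitAddCircle => Real.log (|Phi a θ| + 1)) := by
    refine Integrable.of_bound (Real.measurable_log.comp
      ((continuous_abs.measurable.comp (measurable_Phi a)).add_const 1)).aestronglyMeasurable
      (Real.log (10 * |a|)) ?_
    exact Filter.Eventually.of_forall (fun θ => by rw [Real.norm_eq_abs]; exact abs_log_le ha θ)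
  have hi3 : Integrable (fun θ : UnitAddCircle => Real.log (π * |a|) + uM M θ) :=
    (integrable_const _).add (integrable_uM hM)
  have hmono := integral_mono hig hi2 (fun θ => log_Phi_le (M := M) ha θ)
  rw [integral_add hi3 (integrable_const _),
    integral_add (integrable_const _) (integrable_uM hM)] at hmono
  simp only [integral_const, probReal_univ, smul_eq_mul, one_mul] at hmono
  have h2 := abs_le.1 (mean_uM hM)
  linarith [h2.2]

/-- the derivative is jointly continuous -/
lemma cont_L : Continuous L := by
  have e : L = fun t : ℝ => t • ((ContinuousLinearMap.fst ℝ ℝ ℝ).prod (0 : ℝ × ℝ →L[ℝ] ℝ)) +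
      ((-ContinuousLinearMap.snd ℝ ℝ ℝ).prod (ContinuousLinearMap.fst ℝ ℝ ℝ)) := by
    funext t
    unfold L
    ext <;> simp
  rw [e]
  exact (continuous_id.smul continuous_const).add continuous_const

lemma cont_DX (a : ℝ) {n : ℕ} (k : ℕ) :
    Continuous (fun q : (Fin n → ℝ) × (ℝ × ℝ) => DX a (ext q.1) k q.2) := by
  induction k with
  | zero => simp only [DX]; exact continuous_const
  | succ k ih =>
    simp only [DX]
    exact (cont_L.comp (cont_phize a k)).clm_comp ih

end Pool.Agent.Helper78.SM
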