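import Mathlib
import Pool.Agent.Helper78.SM.Expect

set_option autoImplicit false
open Real MeasureTheory Set
open scoped ENNReal

namespace Pool.Agent.Helper78.SM

attribute [local instance] Pool.Agent.Helper53.SM.instProbU Pool.Agent.Helper53.SM.instProbT2

/-- the product measure -/
noncomputable def mu (ε : ℝ) (n : ℕ) : Measure ((Fin n → ℝ) × (ℝ × ℝ)) :=
  (Measure.pi (fun _ : Fin n => nu ε)).prod ((volume : Measure (ℝ × ℝ)).restrict sq)

lemma prob_mu {ε : ℝ} (hε : 0 < ε) (n : ℕ) : IsProbabilityMeasure (mu ε n) := by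
  have := prob_nu hε
  have := prob_sq
  unfold mu
  infer_instance

lemma int_mu {a ε : ℝ} (hε : 0 < ε) (n k : ℕ) {g : ℝ → ℝ} (hg : Measurable g) {C : ℝ}
    (hC : ∀ q : (Fin n → ℝ) × (ℝ × ℝ), |g (phi a (zc a (ext q.1) k q.2))| ≤ C) :
    Integrable (fun q : (Fin n → ℝ) × (ℝ × ℝ) => g (phi a (zc a (ext q.1) k q.2))) (mu ε n) ∧
    ∫ q, g (phi a (zc a (ext q.1) k q.2)) ∂(mu ε n) = ∫ θ : UnitAddCircle, g (Phi a θ) := by
  have := prob_nu hε
  have := prob_sq
  have := prob_mu hε n
  have hint : Integrable (fun q : (Fin n → ℝ) × (ℝ × ℝ) => g (phi a (zc a (ext q.1) k q.2)))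
      (mu ε n) := by
    refine Integrable.of_bound (hg.comp (cont_phize a k).measurable).aestronglyMeasurable C ?_
    exact Filter.Eventually.of_forall (fun q => by rw [Real.norm_eq_abs]; exact hC q)
  refine ⟨hint, ?_⟩
  unfold mu at hint ⊢
  rw [integral_prod _ hint]
  have h1 : ∀ ω : Fin n → ℝ, ∫ p in sq, g (phi a (zc a (ext ω) k p)) =
      ∫ θ : UnitAddCircle, g (Phi a θ) := fun ω => int_sq (ext ω) k hg
  simp only [h1]
  simp

/-- the log norm -/
noncomputable def GG (a : ℝ) (n : ℕ) (q : (Fin n → ℝ) × (ℝ × ℝ)) : ℝ :=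
  Real.log ‖DX a (ext q.1) n q.2‖

lemma measurable_GG (a : ℝ) (n : ℕ) : Measurable (GG a n) := by
  unfold GG
  exact Real.measurable_log.comp (cont_DX a n).norm.measurable

lemma GG_le {a : ℝ} (n : ℕ) (q : (Fin n → ℝ) × (ℝ × ℝ)) :
    GG a n q ≤ ∑ k ∈ Finset.range n, Real.log (|phi a (zc a (ext q.1) k q.2)| + 1) := by
  unfold GG
  rw [← Real.log_prod (fun k _ => by positivity)]
  exact Real.log_le_log (DX_norm_pos _ _ _ _) (norm_DX_le _ _ _ _)

open Classical in
lemma GG_ge {a : ℝ} (ha : 1 ≤ |a|) (n : ℕ) (q : (Fin n → ℝ) × (ℝ × ℝ)) :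
    ∑ k ∈ Finset.range n, (gg (phi a (zc a (ext q.1) k q.2)) -
      (BadK a n k).indicator (fun _ => 2 * Real.log (10 * |a|)) q) ≤ GG a n q := by
  refine le_trans (le_of_eq ?_) (log_DX_ge ha (ext q.1) q.2 n)
  apply Finset.sum_congr rfl
  intro k _
  congr 1

lemma phi_gg_le {a : ℝ} (ha : 1 ≤ |a|) (x : ℝ) : |gg (phi a x)| ≤ Real.log (10 * |a|) := by
  rw [abs_of_nonneg (gg_nonneg _)]
  unfold gg
  have := abs_phi_le ha x
  apply Real.log_le_log (lt_max_of_lt_right one_pos)
  apply max_le <;> linarith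

lemma phi_log_le {a : ℝ} (ha : 1 ≤ |a|) (x : ℝ) :
    |Real.log (|phi a x| + 1)| ≤ Real.log (10 * |a|) := by
  have := abs_phi_le ha x
  have h0 := abs_nonneg (phi a x)
  rw [abs_of_nonneg (Real.log_nonneg (by linarith))]
  apply Real.log_le_log (by linarith)
  linarith

lemma integrable_GG {a ε : ℝ} (ha : 1 ≤ |a|) (hε : 0 < ε) (n : ℕ) :
    Integrable (GG a n) (mu ε n) := by
  have := prob_mu hε n
  refine Integrable.of_bound (measurable_GG a n).aestronglyMeasurable
    (n * (2 * Real.log (10 * |a|))) ?_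
  refine Filter.Eventually.of_forall (fun q => ?_)
  have hl : 0 ≤ Real.log (10 * |a|) := Real.log_nonneg (by linarith)
  rw [Real.norm_eq_abs, abs_le]
  constructor
  · have h1 := GG_ge ha n q
    have h2 : ∑ k ∈ Finset.range n, (-(2 * Real.log (10 * |a|))) ≤
        ∑ k ∈ Finset.range n, (gg (phi a (zc a (ext q.1) k q.2)) -
      (BadK a n k).indicator (fun _ => 2 * Real.log (10 * |a|)) q) := by
      apply Finset.sum_le_sum
      intro k _
      have h3 := gg_nonneg (phi a (zc a (ext q.1) k q.2))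
      have h4 : (BadK a n k).indicator (fun _ => 2 * Real.log (10 * |a|)) q ≤
          2 * Real.log (10 * |a|) := by
        apply Set.indicator_apply_le'
        · intro _; exact le_rfl
        · intro _; positivity
      linarith
    rw [Finset.sum_const, Finset.card_range, nsmul_eq_mul] at h2
    linarith
  · refine (GG_le n q).trans ?_
    have h2 : ∑ k ∈ Finset.range n, Real.log (|phi a (zc a (ext q.1) k q.2)| + 1) ≤
        ∑ k ∈ Finset.range n, (2 * Real.log (10 * |a|)) := by
      apply Finset.sum_le_sum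
      intro k _
      have h3 := (abs_le.1 (phi_log_le ha (zc a (ext q.1) k q.2))).2
      linarith
    rw [Finset.sum_const, Finset.card_range, nsmul_eq_mul] at h2
    exact h2

lemma int_GG_le {a M ε : ℝ} (ha : 1 ≤ |a|) (hM : 1 ≤ M) (hε : 0 < ε) (n : ℕ) :
    ∫ q, GG a n q ∂(mu ε n) ≤
      n * (Real.log (π * |a|) + 2 * Real.exp (-M) + Real.exp M / |a|) := by
  have hm : Measurable (fun t : ℝ => Real.log (|t| + 1)) :=
    Real.measurable_log.comp (continuous_abs.measurable.add_const 1)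
  have hk := fun k => int_mu (a := a) hε n k hm (C := Real.log (10 * |a|))
    (fun q => phi_log_le ha _)
  have h1 : ∫ q, GG a n q ∂(mu ε n) ≤
      ∫ q, ∑ k ∈ Finset.range n, Real.log (|phi a (zc a (ext q.1) k q.2)| + 1) ∂(mu ε n) :=
    integral_mono (integrable_GG ha hε n) (integrable_finsetSum _ (fun k _ => (hk k).1))
      (fun q => GG_le n q)
  rw [integral_finsetSum _ (fun k _ => (hk k).1)] at h1
  refine h1.trans ?_
  calc _ = ∑ k ∈ Finset.range n, ∫ θ : UnitAddCircle, Real.log (|Phi a θ| + 1) :=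
        Finset.sum_congr rfl (fun k _ => (hk k).2)
    _ ≤ ∑ k ∈ Finset.range n, (Real.log (π * |a|) + 2 * Real.exp (-M) + Real.exp M / |a|) :=
        Finset.sum_le_sum (fun k _ => mean_log ha hM)
    _ = _ := by rw [Finset.sum_const, Finset.card_range, nsmul_eq_mul]

lemma int_GG_ge {a M s ε β : ℝ} (ha : 1 ≤ |a|) (hM : 1 ≤ M) (hs : 2 ≤ s) (hε : 0 < ε)
    (hβ0 : 0 ≤ β) (n : ℕ) (hβ : ∀ k, k < n → (mu ε n) (BadK a n k) ≤ ENNReal.ofReal β) :
    n * (Real.log (π * |a|) - 4 * Real.exp (-M) - Real.exp M / |a| - s / (2 * |a|) - 2 / s -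
      2 * Real.log (10 * |a|) * β) ≤ ∫ q, GG a n q ∂(mu ε n) := by
  have := prob_mu hε n
  have hl : 0 ≤ Real.log (10 * |a|) := Real.log_nonneg (by linarith)
  have hk := fun k => int_mu (a := a) hε n k measurable_gg (C := Real.log (10 * |a|))
    (fun q => phi_gg_le ha _)
  have hi : ∀ k, Integrable ((BadK a n k).indicator (fun _ => 2 * Real.log (10 * |a|)))
      (mu ε n) := fun k => (integrable_const _).indicator (measurableSet_BadK a n k)
  have hd : ∀ k, Integrable (fun q : (Fin n → ℝ) × (ℝ × ℝ) =>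
      gg (phi a (zc a (ext q.1) k q.2)) -
      (BadK a n k).indicator (fun _ => 2 * Real.log (10 * |a|)) q) (mu ε n) :=
    fun k => (hk k).1.sub (hi k)
  have h1 : ∫ q, ∑ k ∈ Finset.range n, (gg (phi a (zc a (ext q.1) k q.2)) -
      (BadK a n k).indicator (fun _ => 2 * Real.log (10 * |a|)) q) ∂(mu ε n) ≤
      ∫ q, GG a n q ∂(mu ε n) :=
    integral_mono (integrable_finsetSum _ (fun k _ => hd k))
      (integrable_GG ha hε n) (fun q => GG_ge ha n q)
  rw [integral_finsetSum _ (fun k _ => hd k)] at h1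
  refine le_trans ?_ h1
  calc _ = ∑ k ∈ Finset.range n, (Real.log (π * |a|) - 4 * Real.exp (-M) - Real.exp M / |a| -
        s / (2 * |a|) - 2 / s - 2 * Real.log (10 * |a|) * β) := by
        rw [Finset.sum_const, Finset.card_range, nsmul_eq_mul]
    _ ≤ _ := by
        apply Finset.sum_le_sum
        intro k hkn
        rw [integral_sub (hk k).1 (hi k), (hk k).2,
          integral_indicator_const _ (measurableSet_BadK a n k), smul_eq_mul]
        have h2 := mean_gg ha hM hs
        have h3 : (mu ε n).real (BadK a n k) ≤ β :=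
          ENNReal.toReal_le_of_le_ofReal hβ0 (hβ k (Finset.mem_range.1 hkn))
        have h4 : (mu ε n).real (BadK a n k) * (2 * Real.log (10 * |a|)) ≤
            β * (2 * Real.log (10 * |a|)) := by gcongr
        linarith

end Pool.Agent.Helper78.SM
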