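import Mathlib

set_option autoImplicit false
open Real Filter Topology

namespace Pool.Agent.Helper78.SM

/-- choice of the window length -/
lemma choose_N {b ε : ℝ} (hb : 100 ≤ b) (hε : 0 < ε) (hε2 : ε ≤ 1 / 2) :
    ∃ N : ℕ, 12 ≤ N ∧ (2 * ε * b ^ 80 + 1) * (b ^ 42 / b ^ (6 * N)) ≤ 1 / b * (2 * ε) ∧
      (N:ℝ) ≤ Real.log (1 / ε) / (6 * Real.log b) + 22 := by
  have hb0 : 0 < b := by linarith
  have hb1 : 1 ≤ b := by linarith
  have hlb : 0 < Real.log b := Real.log_pos (by linarith)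
  have hle : 0 ≤ Real.log (1 / ε) := by
    apply Real.log_nonneg
    rw [le_div_iff₀ hε]; linarith
  set x := Real.log (1 / ε) / (6 * Real.log b) with hx
  have hx0 : 0 ≤ x := by positivity
  refine ⟨⌈x⌉₊ + 21, by omega, ?_, ?_⟩
  · have h1 : 1 / ε ≤ b ^ (6 * ⌈x⌉₊) := by
      rw [← Real.exp_log (show 0 < 1 / ε by positivity)]
      rw [← Real.exp_log (show 0 < b ^ (6 * ⌈x⌉₊) by positivity), Real.exp_le_exp, Real.log_pow]
      have h2 := Nat.le_ceil x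
      have h3 : Real.log (1 / ε) = x * (6 * Real.log b) := by
        rw [hx]; field_simp
      rw [h3]
      push_cast
      nlinarith
    have e1 : b ^ (6 * (⌈x⌉₊ + 21)) = b ^ (6 * ⌈x⌉₊) * b ^ 126 := by
      rw [← pow_add]; congr 1
    rw [e1]
    have h4 : 1 ≤ b ^ (6 * ⌈x⌉₊) * ε := by
      rw [div_le_iff₀ hε] at h1; exact h1
    set P := b ^ (6 * ⌈x⌉₊) with hP
    have hP0 : 0 < P := by positivity
    have h5 : 2 * ε * b ^ 80 + 1 ≤ 2 * b ^ 80 := by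
      have h6 : 1 ≤ b ^ 80 := one_le_pow₀ hb1
      nlinarith
    rw [mul_div_assoc', div_le_iff₀ (by positivity)]
    have e2 : 1 / b * (2 * ε) * (P * b ^ 126) = 2 * (P * ε) * b ^ 125 := by
      field_simp
    rw [e2]
    calc (2 * ε * b ^ 80 + 1) * b ^ 42 ≤ (2 * b ^ 80) * b ^ 42 := by gcongr
      _ = 2 * b ^ 122 := by ring
      _ ≤ 2 * b ^ 125 := by
          have : b ^ 122 ≤ b ^ 125 := pow_le_pow_right₀ hb1 (by norm_num)
          linarith
      _ ≤ 2 * (P * ε) * b ^ 125 := by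
          have : 0 ≤ b ^ 125 := by positivity
          nlinarith
  · have h2 := (Nat.ceil_lt_add_one hx0).le
    push_cast
    linarith

/-- the small terms -/
lemma small_terms {δ : ℝ} (hδ : 0 < δ) : ∃ M : ℝ, 1 ≤ M ∧ ∃ b₀ : ℝ, 100 ≤ b₀ ∧ ∀ b, b₀ ≤ b →
    4 * Real.exp (-M) + Real.exp M / b ^ 10 + b ^ 5 / (2 * b ^ 10) + 2 / b ^ 5 +
      320 * (Real.log b / b) + 144179200 * (Real.log b / b) ^ 2 ≤ δ := by
  obtain ⟨M, hM, hM1⟩ : ∃ M : ℝ, 4 * Real.exp (-M) ≤ δ / 2 ∧ 1 ≤ M := by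
    have h1 : Tendsto (fun M : ℝ => 4 * Real.exp (-M)) atTop (𝓝 (4 * 0)) :=
      (Real.tendsto_exp_neg_atTop_nhds_zero).const_mul 4
    rw [mul_zero] at h1
    have h2 := (h1.eventually (ge_mem_nhds (show (0:ℝ) < δ / 2 by linarith))).and
      (eventually_ge_atTop 1)
    exact h2.exists
  refine ⟨M, hM1, ?_⟩
  have hl : Tendsto (fun b : ℝ => Real.log b / b) atTop (𝓝 0) := by
    have := Real.isLittleO_log_id_atTop.tendsto_div_nhds_zero
    exact this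
  have hp : ∀ (c : ℝ) (n : ℕ), n ≠ 0 → Tendsto (fun b : ℝ => c / b ^ n) atTop (𝓝 0) :=
    fun c n hn => tendsto_const_nhds.div_atTop (tendsto_pow_atTop hn)
  have h1 : Tendsto (fun b : ℝ => Real.exp M / b ^ 10 + (1/2) / b ^ 5 + 2 / b ^ 5 +
      320 * (Real.log b / b) + 144179200 * (Real.log b / b) ^ 2) atTop
      (𝓝 (0 + 0 + 0 + 320 * 0 + 144179200 * 0 ^ 2)) :=
    ((((hp _ 10 (by norm_num)).add (hp _ 5 (by norm_num))).add (hp _ 5 (by norm_num))).add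
      (hl.const_mul 320)).add ((hl.pow 2).const_mul _)
  have h0 : (0 + 0 + 0 + 320 * 0 + 144179200 * 0 ^ 2 : ℝ) = 0 := by norm_num
  rw [h0] at h1
  have h2 := (h1.eventually (ge_mem_nhds (show (0:ℝ) < δ / 2 by linarith)))
  obtain ⟨b₀, hb₀⟩ := eventually_atTop.1 h2
  refine ⟨max b₀ 100, le_max_right _ _, ?_⟩
  intro b hb
  have h3 := hb₀ b (le_trans (le_max_left _ _) hb)
  have hb100 : 100 ≤ b := le_trans (le_max_right _ _) hb
  have hbpos : 0 < b := by linarith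
  have e : b ^ 5 / (2 * b ^ 10) = (1/2) / b ^ 5 := by field_simp
  rw [e]
  linarith

end Pool.Agent.Helper78.SM
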