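import Mathlib
import Pool.Agent.Helper78.SM.Rand
import Pool.Agent.Helper78.SM.Param

set_option autoImplicit false
open Real MeasureTheory Set
open scoped ENNReal

namespace Pool.Agent.Helper78.SM

attribute [local instance] Pool.Agent.Helper53.SM.instProbU Pool.Agent.Helper53.SM.instProbT2

/-- bounds for the integral over the product space -/
lemma GG_bounds {δ : ℝ} (hδ : 0 < δ) : ∃ a₀ : ℝ, ∀ a : ℝ, a₀ ≤ |a| → ∀ ε : ℝ, 0 < ε → ε ≤ 1 / 2 →
    ∀ n : ℕ, n * (Real.log (π * |a|) - δ - 110000 * (Real.log |a| * Real.log (1 / ε) / |a| ^ 2)) ≤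
      ∫ q, GG a n q ∂(mu ε n) ∧
    ∫ q, GG a n q ∂(mu ε n) ≤ n * (Real.log (π * |a|) + δ) := by
  obtain ⟨M, hM, b₀, hb₀, hsm⟩ := small_terms hδ
  refine ⟨b₀ ^ 10, ?_⟩
  intro a ha ε hε hε2 n
  have hA0 : 0 ≤ |a| := abs_nonneg a
  set b := |a| ^ ((1:ℝ) / 10) with hbdef
  have hab : |a| = b ^ 10 := by
    rw [hbdef, ← Real.rpow_natCast, ← Real.rpow_mul hA0]
    norm_num
  have hbnn : 0 ≤ b := Real.rpow_nonneg hA0 _
  have hbb₀ : b₀ ≤ b := by
    rw [hab] at ha
    exact (pow_le_pow_iff_left₀ (by linarith) hbnn (by norm_num)).1 ha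
  have hb : 100 ≤ b := hb₀.trans hbb₀
  have hb0 : 0 < b := by linarith
  have hb1 : 1 ≤ b := by linarith
  have ha1 : 1 ≤ |a| := by rw [hab]; exact one_le_pow₀ hb1
  have ha10 : 10 ≤ |a| := by
    rw [hab]
    calc (10:ℝ) ≤ b ^ 1 := by rw [pow_one]; linarith
      _ ≤ b ^ 10 := pow_le_pow_right₀ hb1 (by norm_num)
  have hlb : 0 < Real.log b := Real.log_pos (by linarith)
  have hL : Real.log |a| = 10 * Real.log b := by rw [hab, Real.log_pow]; norm_num
  have hA : |a| ^ 2 = b ^ 20 := by rw [hab]; ring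
  have hs := hsm b hbb₀
  have hle : 0 ≤ Real.log (1 / ε) := by
    apply Real.log_nonneg
    rw [le_div_iff₀ hε]; linarith
  have hexp1 := Real.exp_pos (-M)
  have hexp2 := Real.exp_pos M
  constructor
  · obtain ⟨N, hN12, hβ, hN⟩ := choose_N hb hε hε2
    have hs2 : 2 ≤ b ^ 5 := by
      calc (2:ℝ) ≤ b ^ 1 := by rw [pow_one]; linarith
        _ ≤ b ^ 5 := pow_le_pow_right₀ hb1 (by norm_num)
    have hl0 : 0 ≤ Real.log |a| := by rw [hL]; linarith
    have hnn : 0 ≤ (N:ℝ) * (4 * 4096 * Real.log |a| / |a| ^ 2) + 8 / b := by positivity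
    have h1 := int_GG_ge (a := a) ha1 hM hs2 hε hnn n
      (fun k hk => prob_BadK hb hab hε hN12 hβ hk)
    refine le_trans ?_ h1
    apply mul_le_mul_of_nonneg_left _ (Nat.cast_nonneg n)
    have h2 : Real.log (10 * |a|) ≤ 2 * Real.log |a| := by
      rw [Real.log_mul (by norm_num) (by linarith)]
      have := Real.log_le_log (by norm_num) ha10
      linarith
    have h3 : 2 * Real.log (10 * |a|) * (N * (4 * 4096 * Real.log |a| / |a| ^ 2) + 8 / b) ≤
        110000 * (Real.log |a| * Real.log (1 / ε) / |a| ^ 2) +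
          (320 * (Real.log b / b) + 144179200 * (Real.log b / b) ^ 2) := by
      calc _ ≤ 2 * (2 * Real.log |a|) * ((Real.log (1 / ε) / (6 * Real.log b) + 22) *
            (4 * 4096 * Real.log |a| / |a| ^ 2) + 8 / b) := by gcongr
        _ = 1638400 / 15 * (Real.log |a| * Real.log (1 / ε) / |a| ^ 2) +
            (320 * (Real.log b / b) + 144179200 * (Real.log b ^ 2 / b ^ 20)) := by
            rw [hL, hA]
            field_simp
            ring
        _ ≤ _ := by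
            have h4 : 0 ≤ Real.log |a| * Real.log (1 / ε) / |a| ^ 2 := by positivity
            have h5 : Real.log b ^ 2 / b ^ 20 ≤ (Real.log b / b) ^ 2 := by
              rw [div_pow]
              have h8 : b ^ 2 ≤ b ^ 20 := pow_le_pow_right₀ hb1 (by norm_num)
              gcongr
            have h6 : (1638400:ℝ) / 15 ≤ 110000 := by norm_num
            have h7 : (1638400:ℝ) / 15 * (Real.log |a| * Real.log (1 / ε) / |a| ^ 2) ≤
              110000 * (Real.log |a| * Real.log (1 / ε) / |a| ^ 2) := by gcongr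
            linarith
    have e1 : b ^ 5 / (2 * |a|) = b ^ 5 / (2 * b ^ 10) := by rw [hab]
    have e2 : Real.exp M / |a| = Real.exp M / b ^ 10 := by rw [hab]
    rw [e1, e2]
    linarith
  · refine (int_GG_le ha1 hM hε n).trans ?_
    apply mul_le_mul_of_nonneg_left _ (Nat.cast_nonneg n)
    have e2 : Real.exp M / |a| = Real.exp M / b ^ 10 := by rw [hab]
    rw [e2]
    have h3 : 0 ≤ b ^ 5 / (2 * b ^ 10) := by positivity
    have h4 : 0 ≤ 2 / b ^ 5 := by positivity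
    have h5 : 0 ≤ Real.log b / b := by positivity
    nlinarith [sq_nonneg (Real.log b / b)]

lemma foldl_eq_X (a : ℝ) {n : ℕ} (ω : Fin n → ℝ) (p : ℝ × ℝ) :
    Fin.foldl n (fun (q : ℝ × ℝ) i =>
      (2 * (q.1 + ω i) - q.2 + a * Real.sin (2 * π * (q.1 + ω i)), q.1 + ω i)) p =
      X a (ext ω) n p := by
  induction n with
  | zero => rfl
  | succ n ih =>
    rw [Fin.foldl_succ_last, ih (fun i => ω i.castSucc)]
    have h1 : X a (ext (fun i : Fin n => ω i.castSucc)) n p = X a (ext ω) n p := by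
      apply X_congr
      intro i hi
      unfold ext
      rw [dif_pos hi, dif_pos (by omega)]
      rfl
    have h2 : ω (Fin.last n) = ext ω n := by
      unfold ext
      rw [dif_pos (by omega)]
      rfl
    rw [h1, h2]
    show _ = Sw a (ext ω n) (X a (ext ω) n p)
    unfold Sw F
    rfl

theorem main_rand : ∃ C : ℝ, 0 < C ∧ ∀ δ : ℝ, 0 < δ → ∃ a₀ : ℝ, ∀ a : ℝ, a₀ ≤ |a| →
    ∀ ε : ℝ, 0 < ε → ε ≤ 1 / 2 → ∀ n : ℕ,
    n * (Real.log (π * |a|) - δ - C * (Real.log |a| * Real.log (1 / ε) / |a| ^ 2)) ≤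
      ∫ ω : Fin n → ℝ, (∫ p in Ioc (0:ℝ) 1 ×ˢ Ioc (0:ℝ) 1, Real.log ‖fderiv ℝ (fun p : ℝ × ℝ =>
        Fin.foldl n (fun (q : ℝ × ℝ) i =>
          (2 * (q.1 + ω i) - q.2 + a * Real.sin (2 * π * (q.1 + ω i)), q.1 + ω i)) p) p‖)
        ∂(Measure.pi (fun _ : Fin n => ProbabilityTheory.cond volume (Icc (-ε) ε))) ∧
    ∫ ω : Fin n → ℝ, (∫ p in Ioc (0:ℝ) 1 ×ˢ Ioc (0:ℝ) 1, Real.log ‖fderiv ℝ (fun p : ℝ × ℝ =>
        Fin.foldl n (fun (q : ℝ × ℝ) i =>
          (2 * (q.1 + ω i) - q.2 + a * Real.sin (2 * π * (q.1 + ω i)), q.1 + ω i)) p) p‖)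
        ∂(Measure.pi (fun _ : Fin n => ProbabilityTheory.cond volume (Icc (-ε) ε))) ≤
      n * (Real.log (π * |a|) + δ) := by
  refine ⟨110000, by norm_num, fun δ hδ => ?_⟩
  obtain ⟨a₀, h⟩ := GG_bounds hδ
  refine ⟨max a₀ 1, fun a ha ε hε hε2 n => ?_⟩
  have ha1 : 1 ≤ |a| := (le_max_right _ _).trans ha
  have hb := h a ((le_max_left _ _).trans ha) ε hε hε2 n
  have := prob_nu hε
  have := prob_sq
  have hint := integrable_GG ha1 hε n
  have e : ∫ q, GG a n q ∂(mu ε n) =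
      ∫ ω : Fin n → ℝ, (∫ p in Ioc (0:ℝ) 1 ×ˢ Ioc (0:ℝ) 1, Real.log ‖fderiv ℝ (fun p : ℝ × ℝ =>
        Fin.foldl n (fun (q : ℝ × ℝ) i =>
          (2 * (q.1 + ω i) - q.2 + a * Real.sin (2 * π * (q.1 + ω i)), q.1 + ω i)) p) p‖)
        ∂(Measure.pi (fun _ : Fin n => ProbabilityTheory.cond volume (Icc (-ε) ε))) := by
    unfold mu at hint ⊢
    rw [integral_prod _ hint]
    unfold nu sq GG
    simp only [foldl_eq_X]
    simp only [fun (ω : Fin n → ℝ) (p : ℝ × ℝ) => (hasFDerivAt_X a (ext ω) n p).fderiv]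
  rw [e] at hb
  exact hb

end Pool.Agent.Helper78.SM
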